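import Pool.Agent.LRT.Defs

/-!
# LR-T3-Amgm: small activities, AM-GM step (0.6 h)

* `cos_ineq`: `0 ≤ z ≤ 1/16`: `(1+z cos(t+s))(1+z cos(t-s)) ≥ (1+z cos t)² exp(-4 z s²)`.
  `(1+z cos(t+s))(1+z cos(t-s)) = (1 + z cos t cos s)² - z² sin² t sin² s`; with `X = 1 + z cos t ∈ [15/16, 17/16]`,
  `1 + z cos t cos s = X - z cos t (1 - cos s)`; so `≥ X² - 2 X z (1-cos s) - z² sin² s ≥ X² (1 - y)`, `y = z ((32/15)(1-cos s) + (1/14) sin² s)`;
  `1 - cos s ≤ s²/2`, `sin² s ≤ s²`: `y ≤ (6/5) z s²`... and `1 - cos s ≤ 2`: `y ≤ (9/2) z ≤ 1/2`; `1 - y ≥ exp(-2 y) ≥ exp(-4 z s²)`.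
* `amgm`: `J G h s c = ∫ ∏ (1 + z_i cos(t_i + s_i))`, `s_i = 2π ip Λ h R_i`, `t_i = 2π ip Λ φ v_i`; by `G.neg` also `= ∫ ∏ (1 + z_i cos(s_i - t_i))`;
  average, `(a+b)/2 ≥ sqrt(a b)`, `sqrt(∏ ...) ≥ ∏ (1 + z_i cos t_i) exp(-2 z_i s_i²)`, integrate.
-/

set_option autoImplicit false

noncomputable section

open scoped BigOperators
open MeasureTheory

namespace Pool.Agent.LRT

variable {Λ : Finset V} {β : ℝ}

private theorem one_sub_ge_exp {y : ℝ} (h0 : 0 ≤ y) (h1 : y ≤ 1 / 2) :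
    Real.exp (-(2 * y)) ≤ 1 - y := by
  have h2 : 1 + 2 * y ≤ Real.exp (2 * y) := by
    have := Real.add_one_le_exp (2 * y)
    linarith
  rw [Real.exp_neg]
  have h3 : (Real.exp (2 * y))⁻¹ ≤ (1 + 2 * y)⁻¹ := inv_anti₀ (by linarith) h2
  refine h3.trans ?_
  rw [inv_le_iff_one_le_mul₀ (by linarith)]
  nlinarith [mul_nonneg h0 (sub_nonneg.2 h1)]

theorem cos_ineq {z : ℝ} (hz : 0 ≤ z) (hz1 : z ≤ 1 / 16) (t s : ℝ) :
    (1 + z * Real.cos t) ^ 2 * Real.exp (-(4 * z * s ^ 2)) ≤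
      (1 + z * Real.cos (t + s)) * (1 + z * Real.cos (t - s)) := by
  rw [Real.cos_add, Real.cos_sub]
  have e1 := Real.sin_sq_add_cos_sq t
  have e2 := Real.sin_sq_add_cos_sq s
  have c1 := Real.cos_le_one t
  have c2 := Real.neg_one_le_cos t
  have c3 := Real.cos_le_one s
  have c4 := Real.neg_one_le_cos s
  have c5 := Real.one_sub_sq_div_two_le_cos (x := s)
  set a := Real.cos t
  set b := Real.sin t
  set c := Real.cos s
  set d := Real.sin s
  set D := 1 - c with hD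
  have hD0 : 0 ≤ D := by rw [hD]; linarith
  have hD2 : D ≤ 2 := by rw [hD]; linarith
  have hDs : D ≤ s ^ 2 / 2 := by rw [hD]; linarith
  set X := 1 + z * a with hX
  have hza : z * a ≤ z * 1 := mul_le_mul_of_nonneg_left c1 hz
  have hza' : z * (-1) ≤ z * a := mul_le_mul_of_nonneg_left c2 hz
  have hX1 : 15 / 16 ≤ X := by rw [hX]; linarith
  have hX2 : X ≤ 17 / 16 := by rw [hX]; linarith
  -- the exact formula
  have hf : (1 + z * (a * c - b * d)) * (1 + z * (a * c + b * d)) =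
      (X - z * a * D) ^ 2 - z ^ 2 * b ^ 2 * d ^ 2 := by
    rw [hX, hD]; ring
  have hd : d ^ 2 ≤ 2 * D := by
    have : d ^ 2 = D * (1 + c) := by rw [hD]; linear_combination e2
    rw [this]
    nlinarith [mul_nonneg hD0 (sub_nonneg.2 c3)]
  have hb : b ^ 2 ≤ 1 := by nlinarith [sq_nonneg a]
  have h1 : z ^ 2 * b ^ 2 * d ^ 2 ≤ z * D / 8 := by
    have h2 : z ^ 2 * b ^ 2 ≤ z ^ 2 * 1 := mul_le_mul_of_nonneg_left hb (sq_nonneg z)
    have h3 : z ^ 2 * b ^ 2 * d ^ 2 ≤ z ^ 2 * 1 * (2 * D) :=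
      mul_le_mul h2 hd (sq_nonneg d) (by positivity)
    have h4 : z * z ≤ z * (1 / 16) := mul_le_mul_of_nonneg_left hz1 hz
    have h5 : z * z * (2 * D) ≤ z * (1 / 16) * (2 * D) :=
      mul_le_mul_of_nonneg_right h4 (by positivity)
    calc z ^ 2 * b ^ 2 * d ^ 2 ≤ z ^ 2 * 1 * (2 * D) := h3
      _ = z * z * (2 * D) := by ring
      _ ≤ z * (1 / 16) * (2 * D) := h5
      _ = z * D / 8 := by ring
  have hzD : 0 ≤ z * D := mul_nonneg hz hD0
  have h2 : X ^ 2 - 2 * X * (z * D) ≤ (X - z * a * D) ^ 2 := by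
    have h3 : X * (z * a * D) ≤ X * (z * D) := by
      refine mul_le_mul_of_nonneg_left ?_ (by linarith)
      have : z * D * a ≤ z * D * 1 := mul_le_mul_of_nonneg_left c1 hzD
      linarith
    nlinarith [sq_nonneg (z * a * D)]
  have h3 : X ^ 2 * (1 - 3 * (z * D)) ≤ (X - z * a * D) ^ 2 - z ^ 2 * b ^ 2 * d ^ 2 := by
    have h4 : 2 * X + 1 / 8 ≤ 3 * X ^ 2 := by nlinarith
    have h5 : (z * D) * (2 * X + 1 / 8) ≤ (z * D) * (3 * X ^ 2) :=
      mul_le_mul_of_nonneg_left h4 hzD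
    nlinarith
  have hzD2 : z * D ≤ 1 / 16 * 2 := mul_le_mul hz1 hD2 hD0 (by norm_num)
  have h4 : Real.exp (-(2 * (3 * (z * D)))) ≤ 1 - 3 * (z * D) :=
    one_sub_ge_exp (by positivity) (by linarith)
  have h5 : Real.exp (-(4 * z * s ^ 2)) ≤ Real.exp (-(2 * (3 * (z * D)))) := by
    refine Real.exp_le_exp.2 ?_
    have h6 : z * D ≤ z * (s ^ 2 / 2) := mul_le_mul_of_nonneg_left hDs hz
    have h7 : 0 ≤ z * s ^ 2 := by positivity
    nlinarith
  rw [hf]
  refine le_trans ?_ h3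
  exact mul_le_mul_of_nonneg_left (h5.trans h4) (sq_nonneg X)

private theorem ip_zero_left (Λ : Finset V) (f : V → ℝ) : ip Λ 0 f = 0 := by
  simp [ip]

private theorem ip_neg_left (Λ : Finset V) (f g : V → ℝ) :
    ip Λ (fun x => -(f x)) g = - ip Λ f g := by
  simp [ip]

private theorem ip_meas (G : GField Λ β) (v : V → ℝ) : Measurable fun ω => ip Λ (G.φ ω) v := by
  unfold ip
  exact Finset.measurable_sum _ fun x _ => (G.meas x).mul_const _

private theorem int_prod (G : GField Λ β) {ι : Type} (s : Finset ι) (z : ι → ℝ)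
    (hz : ∀ i ∈ s, 0 ≤ z i ∧ z i ≤ 1 / 16) (t : ι → G.Ω → ℝ) (ht : ∀ i, Measurable (t i)) :
    Integrable (fun ω => ∏ i ∈ s, (1 + z i * Real.cos (t i ω))) G.μ := by
  have hm : Measurable fun ω => ∏ i ∈ s, (1 + z i * Real.cos (t i ω)) := by
    refine Finset.measurable_prod _ fun i _ => ?_
    exact ((Real.measurable_cos.comp (ht i)).const_mul _).const_add _
  refine Integrable.of_bound hm.aestronglyMeasurable (∏ i ∈ s, (2 : ℝ)) ?_
  refine Filter.Eventually.of_forall fun ω => ?_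
  rw [Real.norm_eq_abs, Finset.abs_prod]
  refine Finset.prod_le_prod (fun i _ => abs_nonneg _) fun i hi => ?_
  have h1 := Real.abs_cos_le_one (t i ω)
  have h2 : |z i * Real.cos (t i ω)| ≤ 1 := by
    rw [abs_mul, abs_of_nonneg (hz i hi).1]
    have : z i * |Real.cos (t i ω)| ≤ 1 / 16 * 1 :=
      mul_le_mul (hz i hi).2 h1 (abs_nonneg _) (by norm_num)
    linarith
  refine (abs_add_le _ _).trans ?_
  rw [abs_one]
  linarith

theorem amgm (G : GField Λ β) (h : V → ℝ) {ι : Type} (s : Finset ι) (c : ι → Cl)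
    (hz : ∀ i ∈ s, 0 ≤ (c i).z ∧ (c i).z ≤ 1 / 16) :
    Real.exp (-(2 * ∑ i ∈ s, (c i).z * (2 * Real.pi * ip Λ h (c i).R) ^ 2)) * J G 0 s c ≤ J G h s c := by
  set σ : ι → ℝ := fun i => 2 * Real.pi * ip Λ h (c i).R with hσ
  set t : ι → G.Ω → ℝ := fun i ω => 2 * Real.pi * ip Λ (G.φ ω) (c i).v with ht
  have htm : ∀ i, Measurable (t i) := fun i => (ip_meas G (c i).v).const_mul _
  set A : G.Ω → ℝ := fun ω => ∏ i ∈ s, (1 + (c i).z * Real.cos (t i ω + σ i)) with hA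
  set B : G.Ω → ℝ := fun ω => ∏ i ∈ s, (1 + (c i).z * Real.cos (t i ω - σ i)) with hB
  set C : G.Ω → ℝ := fun ω => ∏ i ∈ s, (1 + (c i).z * Real.cos (t i ω)) with hC
  set E : ℝ := Real.exp (-(2 * ∑ i ∈ s, (c i).z * (σ i) ^ 2)) with hE
  have iA : Integrable A G.μ :=
    int_prod G s (fun i => (c i).z) hz (fun i ω => t i ω + σ i) fun i => (htm i).add_const _
  have iB : Integrable B G.μ :=
    int_prod G s (fun i => (c i).z) hz (fun i ω => t i ω - σ i) fun i => (htm i).sub_const _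
  have iC : Integrable C G.μ := int_prod G s (fun i => (c i).z) hz t htm
  have h1 : J G h s c = ∫ ω, A ω ∂G.μ := by
    unfold J
    refine integral_congr_ae (Filter.Eventually.of_forall fun ω => ?_)
    simp only [hA, fac]
    refine Finset.prod_congr rfl fun i _ => ?_
    congr 3
    rw [ht, hσ]; ring
  have h2 : J G h s c = ∫ ω, B ω ∂G.μ := by
    have h3 := G.neg fun f => ∏ i ∈ s,
      (1 + (c i).z * Real.cos (2 * Real.pi * (ip Λ h (c i).R + ip Λ f (c i).v)))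
    have h4 : J G h s c = ∫ ω, ∏ i ∈ s,
      (1 + (c i).z * Real.cos (2 * Real.pi * (ip Λ h (c i).R + ip Λ (G.φ ω) (c i).v))) ∂G.μ := rfl
    rw [h4, ← h3]
    refine integral_congr_ae (Filter.Eventually.of_forall fun ω => ?_)
    simp only [hB]
    refine Finset.prod_congr rfl fun i _ => ?_
    rw [ip_neg_left, ← Real.cos_neg (t i ω - σ i)]
    congr 3
    rw [ht, hσ]; ring
  have h3 : J G 0 s c = ∫ ω, C ω ∂G.μ := by
    unfold J
    refine integral_congr_ae (Filter.Eventually.of_forall fun ω => ?_)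
    simp only [hC, fac]
    refine Finset.prod_congr rfl fun i _ => ?_
    rw [ip_zero_left, zero_add]
  have hpos : ∀ i ∈ s, ∀ x : ℝ, 0 ≤ 1 + (c i).z * Real.cos x := by
    intro i hi x
    have h5 := Real.neg_one_le_cos x
    have h6 : (c i).z * (-1) ≤ (c i).z * Real.cos x :=
      mul_le_mul_of_nonneg_left h5 (hz i hi).1
    have h7 := (hz i hi).2
    linarith
  have h4 : ∀ ω, E * C ω ≤ (A ω + B ω) / 2 := by
    intro ω
    have hA0 : 0 ≤ A ω := Finset.prod_nonneg fun i hi => hpos i hi _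
    have hB0 : 0 ≤ B ω := Finset.prod_nonneg fun i hi => hpos i hi _
    have hC0 : 0 ≤ C ω := Finset.prod_nonneg fun i hi => hpos i hi _
    have hE0 : 0 < E := Real.exp_pos _
    have h5 : (E * C ω) ^ 2 ≤ A ω * B ω := by
      have e1 : (E * C ω) ^ 2 = ∏ i ∈ s, ((1 + (c i).z * Real.cos (t i ω)) ^ 2 *
          Real.exp (-(4 * (c i).z * (σ i) ^ 2))) := by
        rw [Finset.prod_mul_distrib, ← Real.exp_sum, Finset.prod_pow, mul_pow, hE,
          ← Real.exp_nat_mul, mul_comm]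
        congr 2
        push_cast
        rw [Finset.sum_neg_distrib, Finset.mul_sum, mul_neg, Finset.mul_sum]
        congr 1
        refine Finset.sum_congr rfl fun i _ => ?_
        ring
      rw [e1, hA, hB]
      simp only
      rw [← Finset.prod_mul_distrib]
      refine Finset.prod_le_prod (fun i _ => by positivity) fun i hi => ?_
      exact cos_ineq (hz i hi).1 (hz i hi).2 _ _
    have h6 : (E * C ω) ^ 2 ≤ ((A ω + B ω) / 2) ^ 2 := by
      nlinarith [sq_nonneg (A ω - B ω)]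
    exact le_of_sq_le_sq h6 (by positivity)
  have h5 : J G h s c = ∫ ω, (A ω + B ω) / 2 ∂G.μ := by
    have e : ∫ ω, (A ω + B ω) / 2 ∂G.μ = (∫ ω, A ω ∂G.μ + ∫ ω, B ω ∂G.μ) / 2 := by
      rw [integral_div, integral_add iA iB]
    rw [e, ← h1, ← h2]
    ring
  have h6 : E * J G 0 s c = ∫ ω, E * C ω ∂G.μ := by
    rw [integral_const_mul, h3]
  change E * J G 0 s c ≤ J G h s c
  rw [h5, h6]
  exact integral_mono (iC.const_mul _) ((iA.add iB).div_const _) h4

end Pool.Agent.LRT
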