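import Pool.Agent.LRT.Pack

/-!
# LR-T3-Deg: degree bound and connectedness of merged blocks (0.6 h)

`deg_bound`: `i ∈ s` alive (otherwise the degree is 0). Neighbours `j ≠ i`: alive, there are `x ∈ S_i`, `y_j ∈ S_j` with
`nd x y_j ≤ 16 r k`. `pack_cover` (t = r k): `T ⊆ S_i`, `T.card = pack (r k) S_i`, `t_j ∈ T` with `nd x t_j ≤ r k`, so
`nd y_j t_j ≤ 17 r k`. Map `j ↦ (t_j, ⌊4 (y_j - t_j).1 / r k⌋, ⌊4 (y_j - t_j).2 / r k⌋)` into `T ×ˢ Icc (-68) 68 ×ˢ Icc (-68) 68`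
(integer division `Int.ediv`, `|4 (y_j - t_j)| ≤ 68 r k`). Injective on the neighbours: equal images for `j ≠ j'` give
`|4 (y_j - y_j')| < r k` in both coordinates, i.e. `4 nd y_j y_j' < r k`, contradicting `Pre.sepA`. `137^2 = 18769`.
(`Finset.card_le_card_of_injOn`.)

`chain_union`: `X ⊆ ⋃ S_i` proper nonempty. If some `i ∈ b` has `S_i ∩ X` nonempty and `S_i ⊄ X`: use `Chain` of `S_i` (monotone
in `t`: `Chain t S → t ≤ t' → Chain t' S`). Otherwise every `S_i` is inside `X` or disjoint from `X`; `Y = {i ∈ b | S_i ⊆ X}` is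
nonempty, `≠ b`; `ConnR` gives `i ∈ Y`, `j ∉ Y` with `R i j`, hence `x ∈ S_i ⊆ X`, `y ∈ S_j` (not in `X`) with `nd x y ≤ 16 r k`.
-/

set_option autoImplicit false

noncomputable section

open scoped BigOperators

namespace Pool.Agent.LRT

private theorem ediv_mem {a q : ℤ} (hq : 1 ≤ q) (h : |a| ≤ 17 * q) :
    4 * a / q ∈ Finset.Icc (-68 : ℤ) 68 := by
  rw [abs_le] at h
  rw [Finset.mem_Icc]
  constructor
  · rw [Int.le_ediv_iff_mul_le (by omega)]
    linarith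
  · have : 4 * a / q < 69 := by
      rw [Int.ediv_lt_iff_lt_mul (by omega)]
      linarith
    omega

private theorem ediv_eq {a b q : ℤ} (hq : 1 ≤ q) (h : 4 * a / q = 4 * b / q) :
    4 * |a - b| < q := by
  have h1 := Int.emod_add_mul_ediv (4 * a) q
  have h2 := Int.emod_add_mul_ediv (4 * b) q
  have h3 := Int.emod_nonneg (4 * a) (by omega : q ≠ 0)
  have h4 := Int.emod_nonneg (4 * b) (by omega : q ≠ 0)
  have h5 := Int.emod_lt_of_pos (4 * a) (by omega : 0 < q)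
  have h6 := Int.emod_lt_of_pos (4 * b) (by omega : 0 < q)
  rw [h] at h1
  rcases abs_cases (a - b) with ⟨h7, _⟩ | ⟨h7, _⟩ <;> rw [h7] <;> linarith

/-- Frozen clusters have degree 0. -/
theorem deg_frozen {Λ : Finset V} {k : ℕ} {ι : Type} (s : Finset ι) (c : ι → Cl)
    {i : ι} (hi : tau (js Λ (c i)) < k) : degR (Rk Λ k c) s i = 0 := by
  classical
  unfold degR
  apply Finset.card_eq_zero.2
  apply Finset.filter_eq_empty_iff.2
  intro j _ h
  have := h.2.1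
  omega

theorem deg_bound {Λ : Finset V} {B0 : ℝ} {k : ℕ} {ι : Type} {s : Finset ι} {c : ι → Cl}
    (hp : Pre Λ B0 k s c) {i : ι} (hi : i ∈ s) :
    degR (Rk Λ k c) s i ≤ 18769 * pack (r k) (c i).S := by
  classical
  have hr := r_pos k
  obtain ⟨T, hT, hTc, hcov⟩ := pack_cover (r k) (c i).S
  rw [max_eq_left (by omega)] at hcov
  have hch : ∀ j : ι, ∃ p : V × V, (j ≠ i ∧ Rk Λ k c i j) →
      p.1 ∈ T ∧ p.2 ∈ (c j).S ∧ nd p.2 p.1 ≤ 17 * r k := by
    intro j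
    by_cases h : j ≠ i ∧ Rk Λ k c i j
    · obtain ⟨x, hx, y, hy, hxy⟩ := h.2.2.2
      obtain ⟨t, ht, hxt⟩ := hcov x hx
      refine ⟨(t, y), fun _ => ⟨ht, hy, ?_⟩⟩
      have h1 := nd_tri y x t
      rw [nd_comm y x] at h1
      simp only
      omega
    · exact ⟨((0, 0), (0, 0)), fun h' => absurd h' h⟩
  choose p hp' using hch
  have hcard : ((T ×ˢ (Finset.Icc (-68 : ℤ) 68 ×ˢ Finset.Icc (-68 : ℤ) 68))).card =
      18769 * pack (r k) (c i).S := by
    rw [Finset.card_product, Finset.card_product, hTc]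
    simp
    ring
  rw [← hcard]
  unfold degR
  apply Finset.card_le_card_of_injOn (fun j =>
    ((p j).1, (4 * ((p j).2.1 - (p j).1.1) / r k, 4 * ((p j).2.2 - (p j).1.2) / r k)))
  · intro j hj
    have hj' := hj
    simp only [Finset.coe_filter, Set.mem_ofPred_eq] at hj'
    obtain ⟨h1, _, h3⟩ := hp' j hj'.2
    have h4 : |(p j).2.1 - (p j).1.1| ≤ 17 * r k := (le_max_left _ _).trans h3
    have h5 : |(p j).2.2 - (p j).1.2| ≤ 17 * r k := (le_max_right _ _).trans h3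
    simp only [Finset.coe_product, Set.mem_prod, Finset.mem_coe]
    exact ⟨h1, ediv_mem hr h4, ediv_mem hr h5⟩
  · intro j hj j' hj' he
    simp only [Finset.coe_filter, Set.mem_ofPred_eq] at hj hj'
    by_contra hne
    simp only [Prod.mk.injEq] at he
    obtain ⟨e1, e2, e3⟩ := he
    rw [← e1] at e2 e3
    have h1 := ediv_eq hr e2
    have h2 := ediv_eq hr e3
    have h3 := (hp' j hj.2).2.1
    have h4 := (hp' j' hj'.2).2.1
    have h5 := hp.sepA j hj.1 j' hj'.1 hne hj.2.2.2.1 hj'.2.2.2.1 _ h3 _ h4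
    have e4 : (p j).2.1 - (p j).1.1 - ((p j').2.1 - (p j).1.1) = (p j).2.1 - (p j').2.1 := by ring
    have e5 : (p j).2.2 - (p j).1.2 - ((p j').2.2 - (p j).1.2) = (p j).2.2 - (p j').2.2 := by ring
    rw [e4] at h1
    rw [e5] at h2
    have h6 : 4 * nd (p j).2 (p j').2 < r k := by
      simp only [nd]
      rcases max_cases |(p j).2.1 - (p j').2.1| |(p j).2.2 - (p j').2.2| with ⟨h7, _⟩ | ⟨h7, _⟩ <;>
        rw [h7] <;> assumption
    omega

theorem chain_mono {t t' : ℤ} (h : t ≤ t') {S : Finset V} (hS : Chain t S) : Chain t' S := by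
  intro X hX hne hXS
  obtain ⟨x, hx, y, hy, hyn, hxy⟩ := hS X hX hne hXS
  exact ⟨x, hx, y, hy, hyn, hxy.trans h⟩

theorem chain_union {Λ : Finset V} {k : ℕ} {ι : Type} {c : ι → Cl} {b : Finset ι}
    (hne : ∀ i ∈ b, (c i).S.Nonempty) (hch : ∀ i ∈ b, Chain (64 * r k) (c i).S)
    (hb : ConnR (Rk Λ k c) b) : Chain (64 * r k) (b.biUnion fun i => (c i).S) := by
  classical
  intro X hX hXne hXS
  by_cases h : ∃ i ∈ b, ((c i).S ∩ X).Nonempty ∧ ¬ (c i).S ⊆ X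
  · obtain ⟨i, hi, h1, h2⟩ := h
    have h3 : (c i).S ∩ X ≠ (c i).S := fun he => h2 (Finset.inter_eq_left.1 he)
    obtain ⟨x, hx, y, hy, hyn, hxy⟩ := hch i hi _ Finset.inter_subset_left h1 h3
    refine ⟨x, (Finset.mem_inter.1 hx).2, y, Finset.mem_biUnion.2 ⟨i, hi, hy⟩, ?_, hxy⟩
    exact fun hyX => hyn (Finset.mem_inter.2 ⟨hy, hyX⟩)
  · push Not at h
    have hsub : ∀ i ∈ b, ∀ x ∈ (c i).S, x ∈ X → (c i).S ⊆ X := fun i hi x hx hxX =>
      h i hi ⟨x, Finset.mem_inter.2 ⟨hx, hxX⟩⟩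
    obtain ⟨x, hx⟩ := hXne
    obtain ⟨i, hi, hxi⟩ := Finset.mem_biUnion.1 (hX hx)
    have hY1 : i ∈ b.filter (fun i => (c i).S ⊆ X) := Finset.mem_filter.2 ⟨hi, hsub i hi x hxi hx⟩
    have hY2 : b.filter (fun i => (c i).S ⊆ X) ≠ b := by
      intro he
      apply hXS
      apply Finset.Subset.antisymm hX
      intro y hy
      obtain ⟨j, hj, hyj⟩ := Finset.mem_biUnion.1 hy
      rw [← he] at hj
      exact (Finset.mem_filter.1 hj).2 hyj
    obtain ⟨i', hi', j, hj, hjn, hR⟩ := hb _ (Finset.filter_subset _ _) ⟨i, hY1⟩ hY2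
    obtain ⟨u, hu, v, hv, huv⟩ := hR.2.2
    refine ⟨u, (Finset.mem_filter.1 hi').2 hu, v, Finset.mem_biUnion.2 ⟨j, hj, hv⟩, ?_, by omega⟩
    intro hvX
    exact hjn (Finset.mem_filter.2 ⟨hj, hsub j hj v hv hvX⟩)

end Pool.Agent.LRT
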