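import Pool.Agent.LRT.Jstar
import Pool.Agent.LRT.Deg

/-!
# LR-T3-Block: merged blocks (0.7 h)

Setting: `hp : Pre Λ B0 k s c`, `R = Rk Λ k c`, signs `σ i = ± 1`, `b ⊆ s` nonempty, `ConnR R b`; `m := mrg c σ b z`.
* `mrg_Q`: `m.Q = ∑ i ∈ b, σ i * (c i).Q` (each `ρ_i` vanishes off `S_i`, `Wf.off`; `Finset.sum_comm`, sum over the union equals
  sum over `S_i`), `mrg_n`: `m.n ≤ ∑ i ∈ b, (c i).n` (triangle inequality, same remark), `mrg_wf`: `Wf Λ m` if `0 ≤ z`.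
* `block_single`: `b = {i}`: `js Λ m = js Λ (c i)` (`js_congr`), `m.S = (c i).S`, `m.n = (c i).n`.
* `block_alive`: if `b` has at least two elements then every `i ∈ b` is alive (`k ≤ tau (js Λ (c i))`): apply `ConnR` to `X = {i}`.
* `block_js`: at least two elements: `k ≤ js Λ m` (two different alive `i, j ∈ b`, `Pre.sepA`: points at distance `> r_k/4`,
  `le_js_of_far`).
-/

set_option autoImplicit false

noncomputable section

open scoped BigOperators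

namespace Pool.Agent.LRT

variable {Λ : Finset V} {B0 : ℝ} {k : ℕ} {ι : Type} {s : Finset ι} {c : ι → Cl}

private lemma sum_union_eq {M : Type} [AddCommMonoid M] {b : Finset ι} {f : V → M} {i : ι}
    (hi : i ∈ b) (h : ∀ x, x ∉ (c i).S → f x = 0) :
    ∑ x ∈ b.biUnion (fun i => (c i).S), f x = ∑ x ∈ (c i).S, f x := by
  refine (Finset.sum_subset ?_ ?_).symm
  · intro x hx
    exact Finset.mem_biUnion.2 ⟨i, hi, hx⟩
  · intro x _ hx
    exact h x hx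

theorem mrg_Q (hw : ∀ i ∈ s, Wf Λ (c i)) (σ : ι → ℤ) {b : Finset ι} (hb : b ⊆ s) (z : ℝ) :
    (mrg c σ b z).Q = ∑ i ∈ b, σ i * (c i).Q := by
  change ∑ x ∈ b.biUnion (fun i => (c i).S), ∑ i ∈ b, σ i * (c i).ρ x = _
  rw [Finset.sum_comm]
  refine Finset.sum_congr rfl fun i hi => ?_
  rw [sum_union_eq hi (fun x hx => by rw [(hw i (hb hi)).off x hx, mul_zero])]
  rw [← Finset.mul_sum]
  rfl

theorem mrg_n (hw : ∀ i ∈ s, Wf Λ (c i)) {σ : ι → ℤ} (hσ : ∀ i, σ i = 1 ∨ σ i = -1)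
    {b : Finset ι} (hb : b ⊆ s) (z : ℝ) : (mrg c σ b z).n ≤ ∑ i ∈ b, (c i).n := by
  change ∑ x ∈ b.biUnion (fun i => (c i).S), |((∑ i ∈ b, σ i * (c i).ρ x : ℤ) : ℝ)| ≤ _
  calc ∑ x ∈ b.biUnion (fun i => (c i).S), |((∑ i ∈ b, σ i * (c i).ρ x : ℤ) : ℝ)|
      ≤ ∑ x ∈ b.biUnion (fun i => (c i).S), ∑ i ∈ b, |((c i).ρ x : ℝ)| := by
        refine Finset.sum_le_sum fun x _ => ?_
        rw [Int.cast_sum]
        refine (Finset.abs_sum_le_sum_abs _ _).trans (Finset.sum_le_sum fun i _ => ?_)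
        rw [Int.cast_mul, abs_mul]
        rcases hσ i with h | h
        · rw [h]; simp
        · rw [h]; simp
    _ = ∑ i ∈ b, ∑ x ∈ b.biUnion (fun i => (c i).S), |((c i).ρ x : ℝ)| := Finset.sum_comm
    _ = ∑ i ∈ b, (c i).n := by
        refine Finset.sum_congr rfl fun i hi => ?_
        rw [sum_union_eq hi (fun x hx => by rw [(hw i (hb hi)).off x hx]; simp)]
        rfl

theorem mrg_wf (hw : ∀ i ∈ s, Wf Λ (c i)) {σ : ι → ℤ} (hσ : ∀ i, σ i = 1 ∨ σ i = -1)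
    {b : Finset ι} (hb : b ⊆ s) (hne : b.Nonempty) {z : ℝ} (hz : 0 ≤ z) :
    Wf Λ (mrg c σ b z) := by
  refine ⟨?_, ?_, ?_, ?_, hz⟩
  · obtain ⟨i, hi⟩ := hne
    obtain ⟨x, hx⟩ := (hw i (hb hi)).ne
    exact ⟨x, Finset.mem_biUnion.2 ⟨i, hi, hx⟩⟩
  · intro x hx
    obtain ⟨i, hi, hx'⟩ := Finset.mem_biUnion.1 hx
    exact (hw i (hb hi)).sub hx'
  · intro x hx
    change ∑ i ∈ b, σ i * (c i).ρ x = 0
    refine Finset.sum_eq_zero fun i hi => ?_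
    rw [(hw i (hb hi)).off x (fun h => hx (Finset.mem_biUnion.2 ⟨i, hi, h⟩)), mul_zero]
  · rw [mrg_Q hw σ hb z]
    change ∑ x ∈ Λ, ∑ i ∈ b, (σ i : ℝ) * (c i).v x = _
    rw [Finset.sum_comm, Int.cast_sum]
    refine Finset.sum_congr rfl fun i hi => ?_
    rw [← Finset.mul_sum, (hw i (hb hi)).tot, Int.cast_mul]

theorem block_single (hw : ∀ i ∈ s, Wf Λ (c i)) {σ : ι → ℤ} (hσ : ∀ i, σ i = 1 ∨ σ i = -1)
    {i : ι} (hi : i ∈ s) (z : ℝ) :
    js Λ (mrg c σ {i} z) = js Λ (c i) ∧ (mrg c σ {i} z).S = (c i).S := by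
  have hS : (mrg c σ {i} z).S = (c i).S := Finset.singleton_biUnion
  refine ⟨js_congr hS ?_, hS⟩
  rw [mrg_Q hw σ (Finset.singleton_subset_iff.2 hi) z, Finset.sum_singleton]
  rcases hσ i with h | h
  · rw [h, one_mul]
  · rw [h, neg_one_mul, neg_eq_zero]

theorem block_alive {b : Finset ι} (hc : ConnR (Rk Λ k c) b) (h2 : 2 ≤ b.card) :
    ∀ i ∈ b, k ≤ tau (js Λ (c i)) := by
  intro i hi
  have hne : ({i} : Finset ι) ≠ b := by
    intro h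
    rw [← h, Finset.card_singleton] at h2
    omega
  obtain ⟨i', hi', j, _, _, hR⟩ := hc {i} (Finset.singleton_subset_iff.2 hi)
    (Finset.singleton_nonempty i) hne
  rw [Finset.mem_singleton] at hi'
  subst hi'
  exact hR.1

theorem block_js (hp : Pre Λ B0 k s c) {σ : ι → ℤ} {b : Finset ι} (hb : b ⊆ s)
    (hc : ConnR (Rk Λ k c) b) (h2 : 2 ≤ b.card) (z : ℝ) : k ≤ js Λ (mrg c σ b z) := by
  obtain ⟨i, hi, j, hj, hij⟩ := Finset.one_lt_card.1 (show 1 < b.card by omega)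
  have ha := block_alive hc h2
  obtain ⟨x, hx⟩ := (hp.wf i (hb hi)).ne
  obtain ⟨y, hy⟩ := (hp.wf j (hb hj)).ne
  have hxm : x ∈ (mrg c σ b z).S := Finset.mem_biUnion.2 ⟨i, hi, hx⟩
  have hym : y ∈ (mrg c σ b z).S := Finset.mem_biUnion.2 ⟨j, hj, hy⟩
  exact le_js_of_far ⟨x, hxm⟩ ⟨x, hxm, y, hym,
    hp.sepA i (hb hi) j (hb hj) hij (ha i hi) (ha j hj) x hx y hy⟩

end Pool.Agent.LRT
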