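import Pool.Agent.LRT.Block

/-!
# LR-T3-Budget: superadditivity of the budgets under merging (0.7 h)

`kap = 4 C1`, `aa = 5 C1`, `C1 = 40000`, `bud Λ B0 k c = B0 + aa (P_k - 1) + kap * min k js - C1 * (k - js)`.
* `bud_alive_lower`: alive means `k ≤ tau js = js + js/2 + 1`, so (omega, real casts) `3 * min k js ≥ 2 (k - 1)` and
  `3 * (k - js) ≤ k + 2` (natural subtraction; treat `js ≥ k` separately). Hence
  `bud ≥ B0 + aa (P - 1) + (2/3) kap (k-1) - C1 (k+2)/3`.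
* `bud_merge`: block with at least two elements: `k ≤ js m` (`block_js`), so `bud m = B0 + aa (P_k(S_b) - 1) + kap k` and
  `P_k(S_b) ≤ ∑ P_k(S_i)` (`pack_biUnion`). With `n = card b ≥ 2`:
  `∑ bud_i - bud_m ≥ (n-1)(B0 - aa) + n((2/3) kap (k-1) - C1 (k+2)/3) - kap k`; for `n = 2` it is
  `B0 - aa - (4/3)(kap + C1) + (kap/3 - 2 C1/3) k ≥ 0`, each further element adds `B0 - aa + (2/3)kap(k-1) - C1(k+2)/3 ≥ 0`
  (write `n = 2 + m`, `nlinarith`/`positivity` with `B0 ≥ 10^6`: `aa = 200000`, `(4/3)(kap + C1) = 800000/3`).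
* `z_merge`: from `Pre.bdA`: `∏ i ∈ b, 3 ^ deg_i * z_i ≤ ∏ exp(2 deg_i) exp(-n_i - bud_i - C1 P_i) ≤ exp(-∑ n_i - ∑ bud_i)` because
  `3 ≤ exp 2` and `2 deg_i ≤ 37538 P_i ≤ C1 P_i` (`deg_bound`).
-/

set_option autoImplicit false

noncomputable section

open scoped BigOperators

namespace Pool.Agent.LRT

variable {Λ : Finset V} {B0 : ℝ} {k : ℕ} {ι : Type} {s : Finset ι} {c : ι → Cl}

theorem bud_alive_lower (c : Cl) (B0 : ℝ) (h : k ≤ tau (js Λ c)) :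
    B0 + aa * ((pack (r k) c.S : ℝ) - 1) + 2 / 3 * kap * ((k : ℝ) - 1) - C1 * ((k : ℝ) + 2) / 3
      ≤ bud Λ B0 k c := by
  rw [bud]
  generalize js Λ c = j at *
  rw [tau] at h
  have h1 : 2 * k ≤ 3 * min k j + 2 := by omega
  have h2 : 3 * (k - j) ≤ k + 2 := by omega
  have h1' : 2 * (k : ℝ) ≤ 3 * ((min k j : ℕ) : ℝ) + 2 := by exact_mod_cast h1
  have h2' : 3 * ((k - j : ℕ) : ℝ) ≤ k + 2 := by exact_mod_cast h2
  generalize ((min k j : ℕ) : ℝ) = u at *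
  generalize ((k - j : ℕ) : ℝ) = w at *
  have h3 : 2 / 3 * kap * ((k : ℝ) - 1) ≤ kap * u := by
    rw [kap, C1]; linarith
  have h4 : C1 * w ≤ C1 * ((k : ℝ) + 2) / 3 := by
    rw [C1]; linarith
  linarith

theorem bud_merge (hB : 1000000 ≤ B0) (hp : Pre Λ B0 k s c) {σ : ι → ℤ}
    {b : Finset ι} (hb : b ⊆ s) (hc : ConnR (Rk Λ k c) b) (h2 : 2 ≤ b.card) (z : ℝ) :
    bud Λ B0 k (mrg c σ b z) ≤ ∑ i ∈ b, bud Λ B0 k (c i) := by
  have hal := block_alive hc h2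
  have hjs := block_js hp (σ := σ) hb hc h2 z
  have hS : (mrg c σ b z).S = b.biUnion fun i => (c i).S := rfl
  have hpk := pack_biUnion (t := r k) b (fun i => (c i).S)
  have hpk' : (pack (r k) (b.biUnion fun i => (c i).S) : ℝ) ≤
      ∑ i ∈ b, (pack (r k) (c i).S : ℝ) := by exact_mod_cast hpk
  have hm : bud Λ B0 k (mrg c σ b z) ≤
      B0 + aa * ((∑ i ∈ b, (pack (r k) (c i).S : ℝ)) - 1) + kap * k := by
    rw [bud, hS, min_eq_left hjs, Nat.sub_eq_zero_of_le hjs]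
    have : aa * ((pack (r k) (b.biUnion fun i => (c i).S) : ℝ) - 1) ≤
        aa * ((∑ i ∈ b, (pack (r k) (c i).S : ℝ)) - 1) := by
      refine mul_le_mul_of_nonneg_left (by linarith) ?_
      rw [aa, C1]; norm_num
    rw [Nat.cast_zero, mul_zero, sub_zero]
    linarith
  obtain ⟨L, hL⟩ : ∃ L : ℝ, L = B0 - aa + 2 / 3 * kap * ((k : ℝ) - 1) - C1 * ((k : ℝ) + 2) / 3 :=
    ⟨_, rfl⟩
  have hi : ∀ i ∈ b, L + aa * (pack (r k) (c i).S : ℝ) ≤ bud Λ B0 k (c i) := by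
    intro i hi
    have := bud_alive_lower (Λ := Λ) (c i) B0 (hal i hi)
    rw [hL]
    linarith
  have hsum := Finset.sum_le_sum hi
  rw [Finset.sum_add_distrib, Finset.sum_const, nsmul_eq_mul, ← Finset.mul_sum] at hsum
  have hk : (0 : ℝ) ≤ k := Nat.cast_nonneg k
  have hL0 : 0 ≤ L := by
    rw [hL, aa, kap, C1]; linarith
  have h2L : 2 * L ≤ b.card * L := by
    refine mul_le_mul_of_nonneg_right ?_ hL0
    exact_mod_cast h2
  have hfin : B0 - aa + kap * k ≤ 2 * L := by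
    rw [hL, aa, kap, C1]; linarith
  linarith

theorem z_merge (hp : Pre Λ B0 k s c) {b : Finset ι} (hb : b ⊆ s)
    (hal : ∀ i ∈ b, k ≤ tau (js Λ (c i))) :
    ∏ i ∈ b, (3 : ℝ) ^ degR (Rk Λ k c) s i * (c i).z ≤
      Real.exp (-(∑ i ∈ b, (c i).n) - ∑ i ∈ b, bud Λ B0 k (c i)) := by
  have h3 : (3 : ℝ) ≤ Real.exp 2 := by
    have := Real.add_one_le_exp (2 : ℝ)
    linarith
  have hi : ∀ i ∈ b, (3 : ℝ) ^ degR (Rk Λ k c) s i * (c i).z ≤
      Real.exp (-(c i).n - bud Λ B0 k (c i)) := by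
    intro i hi
    have hd := deg_bound hp (hb hi)
    have hd' : (degR (Rk Λ k c) s i : ℝ) ≤ 18769 * (pack (r k) (c i).S : ℝ) := by
      exact_mod_cast hd
    have hz := hp.bdA i (hb hi) (hal i hi)
    have hpow : (3 : ℝ) ^ degR (Rk Λ k c) s i ≤ Real.exp (degR (Rk Λ k c) s i * 2) := by
      rw [Real.exp_nat_mul]
      exact pow_le_pow_left₀ (by norm_num) h3 _
    have hP : (0 : ℝ) ≤ (pack (r k) (c i).S : ℝ) := Nat.cast_nonneg _
    calc (3 : ℝ) ^ degR (Rk Λ k c) s i * (c i).z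
        ≤ Real.exp (degR (Rk Λ k c) s i * 2) *
          Real.exp (-(c i).n - bud Λ B0 k (c i) - C1 * pack (r k) (c i).S) :=
          mul_le_mul hpow hz (hp.wf i (hb hi)).pos (Real.exp_pos _).le
      _ = Real.exp (degR (Rk Λ k c) s i * 2 +
          (-(c i).n - bud Λ B0 k (c i) - C1 * pack (r k) (c i).S)) := by
          rw [← Real.exp_add]
      _ ≤ Real.exp (-(c i).n - bud Λ B0 k (c i)) := by
          refine Real.exp_le_exp.mpr ?_
          have : (degR (Rk Λ k c) s i : ℝ) * 2 ≤ C1 * pack (r k) (c i).S := by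
            rw [C1]; linarith
          linarith
  calc ∏ i ∈ b, (3 : ℝ) ^ degR (Rk Λ k c) s i * (c i).z
      ≤ ∏ i ∈ b, Real.exp (-(c i).n - bud Λ B0 k (c i)) := by
        refine Finset.prod_le_prod (fun i hi' => ?_) hi
        exact mul_nonneg (by positivity) (hp.wf i (hb hi')).pos
    _ = Real.exp (∑ i ∈ b, (-(c i).n - bud Λ B0 k (c i))) := (Real.exp_sum _ _).symm
    _ = Real.exp (-(∑ i ∈ b, (c i).n) - ∑ i ∈ b, bud Λ B0 k (c i)) := by
        rw [Finset.sum_sub_distrib, Finset.sum_neg_distrib]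

end Pool.Agent.LRT
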