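import Pool.Agent.LRT.Defs
import Pool.Agent.Helper92.LR.Collapse

/-!
# The bump lemma (helper92)

Bumps around `x0` at scale `r k`, constant on the balls `nd x p.1 ≤ 3 r p.2` of the frozen clusters
`p ∈ P`.  Proof: collapse the balls in the sup distance (`Helper92.LR.collapse`) and clamp the
collapsed distance to `x0`.
-/

set_option autoImplicit false

noncomputable section

open scoped BigOperators

namespace Pool.Agent.LRT

private theorem nd_self (x : V) : nd x x = 0 := by simp [nd]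

private theorem nd_symm (x y : V) : nd x y = nd y x := by
  simp only [nd]
  rw [abs_sub_comm x.1, abs_sub_comm x.2]

private theorem nd_tri (x y z : V) : nd x z ≤ nd x y + nd y z := by
  simp only [nd]
  apply max_le
  · have h1 : |x.1 - z.1| ≤ |x.1 - y.1| + |y.1 - z.1| := abs_sub_le _ _ _
    have h2 := le_max_left |x.1 - y.1| |x.2 - y.2|
    have h3 := le_max_left |y.1 - z.1| |y.2 - z.2|
    linarith
  · have h1 : |x.2 - z.2| ≤ |x.2 - y.2| + |y.2 - z.2| := abs_sub_le _ _ _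
    have h2 := le_max_right |x.1 - y.1| |x.2 - y.2|
    have h3 := le_max_right |y.1 - z.1| |y.2 - z.2|
    linarith

private theorem pm_nd : Pool.Agent.Helper92.LR.PM (fun x y : V => (nd x y : ℝ)) where
  self x := by simp [nd_self]
  symm x y := by rw [nd_symm]
  tri x y z := by exact_mod_cast nd_tri x y z

private def aj (j : ℕ) : ℝ := 6 * 64 ^ j

private def bj (j : ℕ) : ℝ := 7 * 64 ^ tau j

private theorem aj_pos (j : ℕ) : 0 < aj j := by unfold aj; positivity

private theorem bj_pos (j : ℕ) : 0 < bj j := by unfold bj; positivity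

private theorem sum_aj (K : ℕ) : ∑ j ∈ Finset.range K, 2 * aj j = 12 / 63 * (64 ^ K - 1) := by
  induction K with
  | zero => simp
  | succ K ih => rw [Finset.sum_range_succ, ih, aj]; ring

private theorem ratio_le (j : ℕ) : 2 * aj j / bj j ≤ 12 / 7 * (1 / 8 : ℝ) ^ (j + 1) := by
  have h1 : (8 : ℝ) ^ (j + 1) * 64 ^ j ≤ 64 ^ tau j := by
    have h2 : (64 : ℝ) = 8 ^ 2 := by norm_num
    rw [h2, ← pow_mul, ← pow_mul, ← pow_add]
    apply pow_le_pow_right₀ (by norm_num)
    unfold tau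
    omega
  rw [div_le_iff₀ (bj_pos j)]
  unfold aj bj
  have h3 : (0 : ℝ) < 8 ^ (j + 1) := by positivity
  rw [one_div, inv_pow]
  have h4 : (12 / 7 * ((8 : ℝ) ^ (j + 1))⁻¹ * (7 * 64 ^ tau j)) =
      12 * (((8 : ℝ) ^ (j + 1))⁻¹ * 64 ^ tau j) := by ring
  rw [h4]
  have h5 : (64 : ℝ) ^ j ≤ ((8 : ℝ) ^ (j + 1))⁻¹ * 64 ^ tau j := by
    rw [inv_mul_eq_div, le_div_iff₀ h3]
    linarith
  linarith

private theorem sum_ratio (K : ℕ) : ∑ j ∈ Finset.range K, 12 / 7 * (1 / 8 : ℝ) ^ (j + 1) =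
    12 / 49 * (1 - (1 / 8) ^ K) := by
  induction K with
  | zero => simp
  | succ K ih => rw [Finset.sum_range_succ, ih]; ring

private theorem prod_le (K : ℕ) : ∏ j ∈ Finset.range K, (1 + 2 * aj j / bj j) ≤ 49 / 37 := by
  have h1 : ∏ j ∈ Finset.range K, (1 + 2 * aj j / bj j) ≤
      ∏ j ∈ Finset.range K, Real.exp (12 / 7 * (1 / 8 : ℝ) ^ (j + 1)) := by
    apply Finset.prod_le_prod
    · intro j _
      have := aj_pos j
      have := bj_pos j
      positivity
    · intro j _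
      have h2 := ratio_le j
      have h3 := Real.add_one_le_exp (12 / 7 * (1 / 8 : ℝ) ^ (j + 1))
      linarith
  rw [← Real.exp_sum, sum_ratio] at h1
  have h2 : Real.exp (12 / 49 * (1 - (1 / 8) ^ K)) ≤ Real.exp (12 / 49) := by
    apply Real.exp_le_exp.2
    have : (0 : ℝ) ≤ (1 / 8) ^ K := by positivity
    linarith
  have h3 : Real.exp (12 / 49 : ℝ) ≤ 49 / 37 := by
    have h4 := Real.one_sub_le_exp_neg (12 / 49 : ℝ)
    have h5 : Real.exp (-(12 / 49 : ℝ)) * Real.exp (12 / 49) = 1 := by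
      rw [← Real.exp_add]; simp
    have h6 := Real.exp_pos (12 / 49 : ℝ)
    nlinarith
  linarith

private theorem clamp_lip (s t : ℝ) : |max 0 (min 1 s) - max 0 (min 1 t)| ≤ |s - t| := by
  have h1 := abs_max_sub_max_le_max 0 (min 1 s) 0 (min 1 t)
  have h2 := abs_min_sub_min_le_max 1 s 1 t
  rw [sub_self, abs_zero] at h1 h2
  rw [max_eq_right (abs_nonneg (min 1 s - min 1 t))] at h1
  rw [max_eq_right (abs_nonneg (s - t))] at h2
  exact h1.trans h2

/-- The bump lemma. -/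
theorem bump_exists (k : ℕ) (x0 : V) (P : Finset (V × ℕ)) (hP : ∀ p ∈ P, tau p.2 < k)
    (hsep : ∀ p ∈ P, ∀ q ∈ P, p ≠ q → p.2 = q.2 → 16 * r (tau p.2) < nd p.1 q.1) :
    ∃ u : V → ℝ, (∀ x, 0 ≤ u x ∧ u x ≤ 1) ∧ (∀ x, nd x x0 ≤ 2 * r k + 1 → u x = 1) ∧
      (∀ x, 5 * r k ≤ nd x x0 → u x = 0) ∧
      (∀ p ∈ P, ∀ x y, nd x p.1 ≤ 3 * r p.2 → nd y p.1 ≤ 3 * r p.2 → u x = u y) ∧
      (∀ x y, nd x y ≤ 1 → |u x - u y| ≤ 2 / (r k : ℝ)) := by
  classical
  let H : ℕ → Set (Set V) := fun j => {S | ∃ p ∈ P, p.2 = j ∧ S = {x | nd x p.1 ≤ 3 * r p.2}}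
  have hr : ∀ j, ((r j : ℤ) : ℝ) = 64 ^ j := fun j => by simp [r]
  obtain ⟨e, he, h1, h2, h3⟩ := Pool.Agent.Helper92.LR.collapse pm_nd H aj bj (k - 1)
    (fun j _ => (aj_pos j).le) (fun j _ => bj_pos j)
    (by
      rintro j _ S ⟨p, _, hpj, rfl⟩ x hx y hy
      have hx' : nd x p.1 ≤ 3 * r p.2 := hx
      have hy' : nd y p.1 ≤ 3 * r p.2 := hy
      have h4 : nd x y ≤ 6 * r p.2 := by
        have := nd_tri x p.1 y
        rw [nd_symm p.1 y] at this
        linarith
      have h5 : ((nd x y : ℤ) : ℝ) ≤ 6 * ((r p.2 : ℤ) : ℝ) := by exact_mod_cast h4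
      rw [hr, hpj] at h5
      exact h5)
    (by
      rintro j _ S ⟨p, hp, hpj, rfl⟩ T ⟨q, hq, hqj, rfl⟩ hST x hx y hy
      have hx' : nd x p.1 ≤ 3 * r p.2 := hx
      have hy' : nd y q.1 ≤ 3 * r q.2 := hy
      have hpq : p ≠ q := fun h => hST (by rw [h])
      have h4 := hsep p hp q hq hpq (hpj.trans hqj.symm)
      have h5 := nd_tri p.1 x q.1
      have h6 := nd_tri x y q.1
      rw [nd_symm p.1 x] at h5
      have h7 : 16 * r (tau j) - 6 * r j ≤ nd x y := by
        rw [hpj] at h4 hx'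
        rw [hqj] at hy'
        linarith
      have h8 : 16 * ((r (tau j) : ℤ) : ℝ) - 6 * ((r j : ℤ) : ℝ) ≤ (nd x y : ℝ) := by
        exact_mod_cast h7
      rw [hr, hr] at h8
      refine le_trans ?_ h8
      rw [sum_aj]
      have h9 := prod_le j
      have h10 : (64 : ℝ) ^ j * 64 ≤ 64 ^ tau j := by
        rw [← pow_succ]
        apply pow_le_pow_right₀ (by norm_num)
        unfold tau
        omega
      have h11 : (1 : ℝ) ≤ 64 ^ j := one_le_pow₀ (by norm_num)
      have h12 : 0 ≤ bj j + 12 / 63 * (64 ^ j - 1) := by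
        have := bj_pos j
        nlinarith
      refine (mul_le_mul_of_nonneg_right h9 h12).trans ?_
      unfold bj
      nlinarith)
  have hrk : (0 : ℝ) < ((r k : ℤ) : ℝ) := by rw [hr]; positivity
  have hrk1 : (1 : ℝ) ≤ ((r k : ℤ) : ℝ) := by rw [hr]; exact one_le_pow₀ (by norm_num)
  let u : V → ℝ := fun x => max 0 (min 1 (7 - 2 * e x x0 / (r k : ℝ)))
  have hone : ∀ x, e x x0 ≤ 3 * (r k : ℝ) → u x = 1 := by
    intro x hx
    have h4 : 2 * e x x0 / (r k : ℝ) ≤ 6 := by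
      rw [div_le_iff₀ hrk]
      linarith
    simp only [u]
    rw [min_eq_left (by linarith)]
    norm_num
  have hzero : ∀ x, 7 / 2 * (r k : ℝ) ≤ e x x0 → u x = 0 := by
    intro x hx
    have h4 : 7 ≤ 2 * e x x0 / (r k : ℝ) := by
      rw [le_div_iff₀ hrk]
      linarith
    simp only [u]
    rw [max_eq_left]
    exact (min_le_right _ _).trans (by linarith)
  refine ⟨u, fun x => ⟨le_max_left _ _, max_le (by norm_num) (min_le_left _ _)⟩, ?_, ?_, ?_, ?_⟩
  · intro x hx
    apply hone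
    have h4 : ((nd x x0 : ℤ) : ℝ) ≤ 2 * ((r k : ℤ) : ℝ) + 1 := by exact_mod_cast hx
    have h5 := h1 x x0
    linarith
  · intro x hx
    apply hzero
    have h4 : 5 * ((r k : ℤ) : ℝ) ≤ ((nd x x0 : ℤ) : ℝ) := by exact_mod_cast hx
    have h5 := h3 x x0
    rw [sum_aj] at h5
    have h6 : 12 / 63 * ((64 : ℝ) ^ (k - 1) - 1) ≤ 1 / 100 * ((r k : ℤ) : ℝ) := by
      rw [hr]
      rcases Nat.eq_zero_or_pos k with rfl | hk
      · norm_num
      · obtain ⟨m, rfl⟩ : ∃ m, k = m + 1 := ⟨k - 1, by omega⟩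
        rw [Nat.add_sub_cancel, pow_succ]
        have : (0 : ℝ) < 64 ^ m := by positivity
        linarith
    have h7 := prod_le (k - 1)
    have h8 : 0 ≤ e x x0 + 12 / 63 * ((64 : ℝ) ^ (k - 1) - 1) := by
      have h9 := he.nonneg x x0
      have h10 : (1 : ℝ) ≤ 64 ^ (k - 1) := one_le_pow₀ (by norm_num)
      nlinarith
    have h9 := mul_le_mul_of_nonneg_right h7 h8
    linarith
  · intro p hp x y hx hy
    have hj : p.2 < k - 1 := by
      have := hP p hp
      unfold tau at this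
      omega
    have h4 : e x y = 0 := h2 p.2 hj _ ⟨p, hp, rfl, rfl⟩ x hx y hy
    have h5 : e x x0 = e y x0 := by
      have h6 := he.tri x y x0
      have h7 := he.tri y x x0
      rw [he.symm y x] at h7
      linarith
    simp only [u, h5]
  · intro x y hxy
    have h4 : |e x x0 - e y x0| ≤ 1 := by
      have h5 : ((nd x y : ℤ) : ℝ) ≤ 1 := by exact_mod_cast hxy
      have h6 := h1 x y
      have h7 := he.tri x y x0
      have h8 := he.tri y x x0
      rw [he.symm y x] at h8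
      rw [abs_le]
      constructor <;> linarith
    have h5 : |u x - u y| ≤ |(7 - 2 * e x x0 / (r k : ℝ)) - (7 - 2 * e y x0 / (r k : ℝ))| := by
      simp only [u]
      exact clamp_lip _ _
    refine h5.trans ?_
    have h6 : (7 - 2 * e x x0 / (r k : ℝ)) - (7 - 2 * e y x0 / (r k : ℝ)) =
        -(2 / (r k : ℝ) * (e x x0 - e y x0)) := by ring
    rw [h6, abs_neg, abs_mul, abs_of_nonneg (by positivity)]
    have h7 : 0 ≤ 2 / (r k : ℝ) := by positivity
    nlinarith

end Pool.Agent.LRT
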