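import Mathlib

/-!
# (T3): Froehlich-Spencer for the nearest neighbour discrete Gaussian. Common definitions.

Blueprint: /team-store/lr_t3_h95.md.  Sites `V = ℤ × ℤ`, sup-norm distance `nd`, scales `r k = 64^k`.
-/

set_option autoImplicit false

noncomputable section

open scoped BigOperators
open MeasureTheory

namespace Pool.Agent.LRT

/-- Sites. -/
abbrev V := ℤ × ℤ

/-! ## Lattice -/

/-- Dirichlet energy: sum over nearest neighbour pairs of squared increments. -/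
def Dir (f : V → ℝ) : ℝ :=
  ∑' x : V, ((f (x.1 + 1, x.2) - f x) ^ 2 + (f (x.1, x.2 + 1) - f x) ^ 2)

/-- `A f = -Δ f`. -/
def Lap (f : V → ℝ) (x : V) : ℝ :=
  4 * f x - f (x.1 + 1, x.2) - f (x.1 - 1, x.2) - f (x.1, x.2 + 1) - f (x.1, x.2 - 1)

/-- `⟨f, g⟩` over `Λ`. -/
def ip (Λ : Finset V) (f g : V → ℝ) : ℝ := ∑ x ∈ Λ, f x * g x

/-- `f` vanishes off `Λ`. -/
def Off (Λ : Finset V) (f : V → ℝ) : Prop := ∀ x, x ∉ Λ → f x = 0

/-- Extension by zero of an integer field. -/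
def ext (Λ : Finset V) (ψ : Λ → ℤ) : V → ℝ := fun x => if h : x ∈ Λ then (ψ ⟨x, h⟩ : ℝ) else 0

/-- Sup-norm distance. -/
def nd (x y : V) : ℤ := max |x.1 - y.1| |x.2 - y.2|

/-- Scales. -/
def r (k : ℕ) : ℤ := 64 ^ k

/-- Freezing time of scale `j`. -/
def tau (j : ℕ) : ℕ := j + j / 2 + 1

/-! ## Gaussian field with covariance `(1/β) (A⁻¹ - 1/8)` -/

/-- The Gaussian field used in the representation. -/
structure GField (Λ : Finset V) (β : ℝ) where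
  Ω : Type
  ms : MeasurableSpace Ω
  μ : Measure Ω
  pr : IsProbabilityMeasure μ
  φ : Ω → V → ℝ
  meas : ∀ x, Measurable fun ω => φ ω x
  /-- the form `⟨v, (A⁻¹ - 1/8) w⟩` -/
  B : (V → ℝ) →ₗ[ℝ] (V → ℝ) →ₗ[ℝ] ℝ
  symm : ∀ v w, B v w = B w v
  char : ∀ v : V → ℝ, ∫ ω, Complex.exp (2 * Real.pi * Complex.I * (ip Λ (φ ω) v : ℝ)) ∂μ =
    Complex.exp (-(2 * Real.pi ^ 2 / β * B v v : ℝ))
  lap : ∀ u : V → ℝ, Off Λ u → ∀ w : V → ℝ, B (Lap u) w = ip Λ u w - (1 / 8) * ip Λ (Lap u) w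
  /-- symmetry of the law -/
  neg : ∀ F : (V → ℝ) → ℝ, ∫ ω, F (fun x => -(φ ω x)) ∂μ = ∫ ω, F (φ ω) ∂μ
  /-- `exp(-(β/2) D)` as a mixture of isotropic Gaussians -/
  mix : ∃ c : ℝ, 0 < c ∧ ∀ y : V → ℝ, Off Λ y →
    Real.exp (-(β / 2) * Dir y) = c * ∫ ω, Real.exp (-(4 * β) * ∑ x ∈ Λ, (y x - φ ω x) ^ 2) ∂μ

attribute [instance] GField.ms GField.pr

/-! ## Clusters -/

/-- A cluster: support set, integer density, real density, activity. -/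
structure Cl where
  S : Finset V
  ρ : V → ℤ
  v : V → ℝ
  z : ℝ

/-- The integer density as a real function. -/
def Cl.R (c : Cl) : V → ℝ := fun x => (c.ρ x : ℝ)

/-- Total charge. -/
def Cl.Q (c : Cl) : ℤ := ∑ x ∈ c.S, c.ρ x

/-- `|ρ|_1`. -/
def Cl.n (c : Cl) : ℝ := ∑ x ∈ c.S, |(c.ρ x : ℝ)|

variable {Λ : Finset V} {β : ℝ}

/-- The factor of a cluster. -/
def fac (G : GField Λ β) (h : V → ℝ) (c : Cl) (ω : G.Ω) : ℝ :=
  1 + c.z * Real.cos (2 * Real.pi * (ip Λ h c.R + ip Λ (G.φ ω) c.v))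

/-- The partition function of a finite family of clusters. -/
def J (G : GField Λ β) (h : V → ℝ) {ι : Type} (s : Finset ι) (c : ι → Cl) : ℝ :=
  ∫ ω, ∏ i ∈ s, fac G h (c i) ω ∂G.μ

/-- Good families (`h`, `θ` fixed). -/
def Good (G : GField Λ β) (h : V → ℝ) (θ : ℝ) {ι : Type} (s : Finset ι) (c : ι → Cl) : Prop :=
  θ * J G 0 s c ≤ J G h s c

/-! ## Geometry of clusters -/

/-- Packing number at distance `t`: largest subset with pairwise distances `> t`. -/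
def pack (t : ℤ) (S : Finset V) : ℕ := by
  classical
  exact (S.powerset.filter fun T => ∀ x ∈ T, ∀ y ∈ T, x ≠ y → t < nd x y).sup Finset.card

/-- Chain connected with steps `4 * nd ≤ t`. -/
def Chain (t : ℤ) (S : Finset V) : Prop :=
  ∀ X : Finset V, X ⊆ S → X.Nonempty → X ≠ S → ∃ x ∈ X, ∃ y ∈ S, y ∉ X ∧ 4 * nd x y ≤ t

/-- The cluster is finished at scale `j`: small, and neutral or near the boundary. -/
def Ended (Λ : Finset V) (c : Cl) (j : ℕ) : Prop :=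
  (∀ x ∈ c.S, ∀ y ∈ c.S, nd x y ≤ r j) ∧
    (c.Q = 0 ∨ ∃ x ∈ c.S, ∃ w, w ∉ Λ ∧ nd x w ≤ 8 * r j)

/-- First scale at which the cluster is finished. -/
def js (Λ : Finset V) (c : Cl) : ℕ := sInf {j | Ended Λ c j}

/-- Constants. -/
def C1 : ℝ := 40000
def kap : ℝ := 4 * C1
def aa : ℝ := 5 * C1

/-- Budget after merging at stage `k`. -/
def bud (Λ : Finset V) (B0 : ℝ) (k : ℕ) (c : Cl) : ℝ :=
  B0 + aa * ((pack (r k) c.S : ℝ) - 1) + kap * (min k (js Λ c) : ℕ) - C1 * (k - js Λ c : ℕ)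

/-- Final budget of a cluster frozen at scale `j`. -/
def fin (B0 : ℝ) (j : ℕ) : ℝ := B0 + kap * j - C1 * (tau j - j : ℕ)

/-- Well formed clusters. -/
structure Wf (Λ : Finset V) (c : Cl) : Prop where
  ne : c.S.Nonempty
  sub : c.S ⊆ Λ
  off : ∀ x, x ∉ c.S → c.ρ x = 0
  tot : ∑ x ∈ Λ, c.v x = (c.Q : ℝ)
  pos : 0 ≤ c.z

/-- Invariants before merging at stage `k`. -/
structure Pre (Λ : Finset V) (B0 : ℝ) (k : ℕ) {ι : Type} (s : Finset ι) (c : ι → Cl) : Prop where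
  wf : ∀ i ∈ s, Wf Λ (c i)
  sepA : ∀ i ∈ s, ∀ j ∈ s, i ≠ j → k ≤ tau (js Λ (c i)) → k ≤ tau (js Λ (c j)) →
    ∀ x ∈ (c i).S, ∀ y ∈ (c j).S, r k < 4 * nd x y
  sepB : ∀ i ∈ s, ∀ j ∈ s, i ≠ j → js Λ (c i) = js Λ (c j) → tau (js Λ (c i)) < k →
    ∀ x ∈ (c i).S, ∀ y ∈ (c j).S, 16 * r (tau (js Λ (c i))) < nd x y
  chain : ∀ i ∈ s, k ≤ tau (js Λ (c i)) → Chain (r k) (c i).S
  supp : ∀ i ∈ s, ∀ x, (c i).v x ≠ 0 → ∃ y ∈ (c i).S, nd x y ≤ r (min k (js Λ (c i)))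
  bdA : ∀ i ∈ s, k ≤ tau (js Λ (c i)) →
    (c i).z ≤ Real.exp (-(c i).n - bud Λ B0 k (c i) - C1 * pack (r k) (c i).S)
  bdB : ∀ i ∈ s, tau (js Λ (c i)) < k → (c i).z ≤ Real.exp (-(c i).n - fin B0 (js Λ (c i)))

/-- Invariants after merging at stage `k`. -/
structure Post (Λ : Finset V) (B0 : ℝ) (k : ℕ) {ι : Type} (s : Finset ι) (c : ι → Cl) : Prop where
  wf : ∀ i ∈ s, Wf Λ (c i)
  sepA : ∀ i ∈ s, ∀ j ∈ s, i ≠ j → k ≤ tau (js Λ (c i)) → k ≤ tau (js Λ (c j)) →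
    ∀ x ∈ (c i).S, ∀ y ∈ (c j).S, 16 * r k < nd x y
  sepB : ∀ i ∈ s, ∀ j ∈ s, i ≠ j → js Λ (c i) = js Λ (c j) → tau (js Λ (c i)) < k →
    ∀ x ∈ (c i).S, ∀ y ∈ (c j).S, 16 * r (tau (js Λ (c i))) < nd x y
  chain : ∀ i ∈ s, k ≤ tau (js Λ (c i)) → Chain (64 * r k) (c i).S
  supp : ∀ i ∈ s, ∀ x, (c i).v x ≠ 0 → ∃ y ∈ (c i).S, nd x y ≤ r (min k (js Λ (c i)))
  bdA : ∀ i ∈ s, k ≤ tau (js Λ (c i)) →
    (c i).z ≤ Real.exp (-(c i).n - bud Λ B0 k (c i))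
  bdB : ∀ i ∈ s, tau (js Λ (c i)) < k → (c i).z ≤ Real.exp (-(c i).n - fin B0 (js Λ (c i)))

/-- A block is connected for the relation `R`. -/
def ConnR {ι : Type} (R : ι → ι → Prop) (b : Finset ι) : Prop :=
  ∀ X : Finset ι, X ⊆ b → X.Nonempty → X ≠ b → ∃ i ∈ X, ∃ j ∈ b, j ∉ X ∧ R i j

/-- Degree in `s` for the relation `R`. -/
def degR {ι : Type} (R : ι → ι → Prop) (s : Finset ι) (i : ι) : ℕ := by
  classical
  exact (s.filter fun j => j ≠ i ∧ R i j).card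

/-- The merging relation at stage `k`: both alive and at distance `≤ 16 r_k`. -/
def Rk (Λ : Finset V) (k : ℕ) {ι : Type} (c : ι → Cl) (i j : ι) : Prop :=
  k ≤ tau (js Λ (c i)) ∧ k ≤ tau (js Λ (c j)) ∧ ∃ x ∈ (c i).S, ∃ y ∈ (c j).S, nd x y ≤ 16 * r k

/-- Active at stage `k`: compact, not finished. -/
def Active (Λ : Finset V) (k : ℕ) (c : Cl) : Prop :=
  (∀ x ∈ c.S, ∀ y ∈ c.S, nd x y ≤ r k) ∧ k < js Λ c

/-- On-site weight `∑_q exp(-g q²) cos(2π q y)`. -/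
def lam (g y : ℝ) : ℝ := ∑' q : ℤ, Real.exp (-(g * (q : ℝ) ^ 2)) * Real.cos (2 * Real.pi * q * y)

/-- Initial cluster: charge `q` at `x`, activity `2^(q+1) exp(-g q²)`. -/
def site (g : ℝ) (q : V → ℕ) (x : V) : Cl where
  S := {x}
  ρ := Pi.single x (q x : ℤ)
  v := Pi.single x (q x : ℝ)
  z := 2 ^ (q x + 1) * Real.exp (-(g * (q x : ℝ) ^ 2))

/-- The merged cluster of a block `b` with signs `σ` and activity `z`. -/
def mrg {ι : Type} (c : ι → Cl) (σ : ι → ℤ) (b : Finset ι) (z : ℝ) : Cl where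
  S := b.biUnion fun i => (c i).S
  ρ := fun x => ∑ i ∈ b, σ i * (c i).ρ x
  v := fun x => ∑ i ∈ b, (σ i : ℝ) * (c i).v x
  z := z

end Pool.Agent.LRT
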