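import Pool.Agent.LRT.Pack

/-!
# LR-T3-Energy: summation by parts and the energy of a bump (0.6 h)

* `dir_eq`: `Dir f = ip Λ f (Lap f)` for `f` vanishing off `Λ`: everything is finitely supported (the summand of `Dir` vanishes off
  `Λ ∪ (Λ - e1) ∪ (Λ - e2)`, `summable_of_finite_support`/`hasSum_sum_of_ne_finset_zero`); expand the squares, shift the summation variable
  (`Equiv.tsum_eq (Equiv.addRight _)`): `∑ (f(x+e)-f x)^2 = 2 ∑ f x^2 - 2 ∑ f x f(x+e)` and `∑ f x f(x+e) = ∑ f x f(x-e)`.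
* `lap_symm`: `ip Λ f (Lap g) = ip Λ (Lap f) g` for `f, g` vanishing off `Λ` (polarise `dir_eq` or shift directly).
* `lap_sum`: if `u` vanishes off `Λ` and all four neighbours of the points of the support of `u` are in `Λ` then `∑_Λ Lap u = 0`.
* `dir_le`: `Dir f ≤ 8 ∑_Λ f²` (`(a-b)² ≤ 2a² + 2b²`), `dir_nonneg`, `dir_pos`.
* `dir_bump`: `u` vanishes at `nd x x0 ≥ 5 t`, `|u x - u y| ≤ 2/t` for `nd x y ≤ 1`, `t ≥ 1` integer: the summand at `x` of `Dir u` vanishes
  unless `nd x x0 ≤ 5 t` (else `x` and both its neighbours have `u = 0`), and is `≤ 2 (2/t)² = 8/t²`; the ball `nd x x0 ≤ 5 t` has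
  `(10 t + 1)² ≤ 121 t²` points: `Dir u ≤ 968 ≤ 1936`.
-/

set_option autoImplicit false

noncomputable section

open scoped BigOperators

namespace Pool.Agent.LRT

variable {Λ : Finset V}

private lemma en_sum {T : Finset V} {F : V → ℝ} (h : ∀ x, x ∉ T → F x = 0) : Summable F :=
  (hasSum_sum_of_ne_finset_zero h).summable

private lemma en_tsum {T : Finset V} {F : V → ℝ} (h : ∀ x, x ∉ T → F x = 0) :
    ∑' x, F x = ∑ x ∈ T, F x := tsum_eq_sum h

private lemma en_shift (F : V → ℝ) (e : V) : ∑' x, F (x + e) = ∑' x, F x :=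
  (Equiv.addRight e).tsum_eq F

private lemma en_summ_shift {F : V → ℝ} (h : Summable F) (e : V) : Summable fun x => F (x + e) :=
  (Equiv.addRight e).summable_iff.2 h

private lemma en_mul {f g : V → ℝ} (hf : Off Λ f) : Summable fun x => f x * g x :=
  en_sum (T := Λ) fun x hx => by rw [hf x hx, zero_mul]

private lemma en_swap (f g : V → ℝ) (e : V) :
    ∑' x, f x * g (x + e) = ∑' x, f (x - e) * g x := by
  rw [← en_shift (fun x => f (x - e) * g x) e]
  simp only [add_sub_cancel_right]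

private lemma en_e1 (f : V → ℝ) (x : V) : f (x.1 + 1, x.2) = f (x + (1, 0)) := by
  congr 1
  ext <;> simp

private lemma en_e2 (f : V → ℝ) (x : V) : f (x.1, x.2 + 1) = f (x + (0, 1)) := by
  congr 1
  ext <;> simp

private lemma en_m1 (f : V → ℝ) (x : V) : f (x.1 - 1, x.2) = f (x - (1, 0)) := by
  congr 1
  ext <;> simp

private lemma en_m2 (f : V → ℝ) (x : V) : f (x.1, x.2 - 1) = f (x - (0, 1)) := by
  congr 1
  ext <;> simp

private lemma en_ip (f g : V → ℝ) (hf : Off Λ f) : ip Λ f g = ∑' x, f x * g x := by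
  rw [ip, en_tsum (T := Λ)]
  intro x hx
  rw [hf x hx, zero_mul]

private lemma en_lap (f g : V → ℝ) (hf : Off Λ f) :
    ip Λ f (Lap g) = 4 * ∑' x, f x * g x - ∑' x, f x * g (x + (1, 0)) -
      ∑' x, f x * g (x - (1, 0)) - ∑' x, f x * g (x + (0, 1)) - ∑' x, f x * g (x - (0, 1)) := by
  rw [en_ip _ _ hf]
  have s0 := (en_mul (g := g) hf).mul_left 4
  have s1 := en_mul (g := fun x => g (x + (1, 0))) hf
  have s2 := en_mul (g := fun x => g (x - (1, 0))) hf
  have s3 := en_mul (g := fun x => g (x + (0, 1))) hf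
  have s4 := en_mul (g := fun x => g (x - (0, 1))) hf
  rw [← tsum_mul_left, ← s0.tsum_sub s1, ← (s0.sub s1).tsum_sub s2,
    ← ((s0.sub s1).sub s2).tsum_sub s3, ← (((s0.sub s1).sub s2).sub s3).tsum_sub s4]
  congr 1
  ext x
  rw [Lap, en_e1 g, en_e2 g, en_m1 g, en_m2 g]
  ring

theorem dir_nonneg (f : V → ℝ) : 0 ≤ Dir f :=
  tsum_nonneg fun x => by positivity

private lemma en_dir {f : V → ℝ} (hf : Off Λ f) :
    Dir f = 4 * ∑' x, f x * f x - 2 * ∑' x, f x * f (x + (1, 0)) -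
      2 * ∑' x, f x * f (x + (0, 1)) := by
  have s0 := en_mul (g := f) hf
  have a1 := en_summ_shift s0 (1, 0)
  have a2 := en_summ_shift s0 (0, 1)
  have s1 := (en_mul (g := fun x => f (x + (1, 0))) hf).mul_left 2
  have s3 := (en_mul (g := fun x => f (x + (0, 1))) hf).mul_left 2
  have e1 := en_shift (fun x => f x * f x) (1, 0)
  have e2 := en_shift (fun x => f x * f x) (0, 1)
  have key : Dir f = (∑' x, f (x + (1, 0)) * f (x + (1, 0)) +
      ∑' x, f (x + (0, 1)) * f (x + (0, 1)) + ∑' x, 2 * (f x * f x)) -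
      ∑' x, 2 * (f x * f (x + (1, 0))) - ∑' x, 2 * (f x * f (x + (0, 1))) := by
    rw [← a1.tsum_add a2, ← (a1.add a2).tsum_add (s0.mul_left 2),
      ← ((a1.add a2).add (s0.mul_left 2)).tsum_sub s1,
      ← (((a1.add a2).add (s0.mul_left 2)).sub s1).tsum_sub s3]
    unfold Dir
    congr 1
    ext x
    rw [en_e1 f, en_e2 f]
    ring
  rw [key, tsum_mul_left, tsum_mul_left, tsum_mul_left]
  linarith

theorem dir_eq {f : V → ℝ} (hf : Off Λ f) : Dir f = ip Λ f (Lap f) := by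
  rw [en_dir hf, en_lap f f hf]
  have h1 := en_swap f f (1, 0)
  have h2 := en_swap f f (0, 1)
  simp only [mul_comm (f (_ - _)) (f _)] at h1 h2
  linarith

theorem dir_le {f : V → ℝ} (hf : Off Λ f) : Dir f ≤ 8 * ∑ x ∈ Λ, f x ^ 2 := by
  have s0 := en_mul (g := f) hf
  have a1 := en_summ_shift s0 (1, 0)
  have a2 := en_summ_shift s0 (0, 1)
  have s1 := (en_mul (g := fun x => f (x + (1, 0))) hf).mul_left 2
  have s3 := (en_mul (g := fun x => f (x + (0, 1))) hf).mul_left 2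
  have e1 := en_shift (fun x => f x * f x) (1, 0)
  have e2 := en_shift (fun x => f x * f x) (0, 1)
  have hs : Summable fun x : V => (f (x.1 + 1, x.2) - f x) ^ 2 + (f (x.1, x.2 + 1) - f x) ^ 2 := by
    refine ((((a1.add a2).add (s0.mul_left 2)).sub s1).sub s3).congr fun x => ?_
    rw [en_e1 f, en_e2 f]
    ring
  have hs2 := ((a1.add a2).add (s0.mul_left 2)).mul_left 2
  have hle : Dir f ≤ ∑' x, 2 * (f (x + (1, 0)) * f (x + (1, 0)) +
      f (x + (0, 1)) * f (x + (0, 1)) + 2 * (f x * f x)) := by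
    refine hs.tsum_le_tsum (fun x => ?_) hs2
    rw [en_e1 f, en_e2 f]
    nlinarith [sq_nonneg (f (x + (1, 0)) + f x), sq_nonneg (f (x + (0, 1)) + f x)]
  rw [tsum_mul_left, (a1.add a2).tsum_add (s0.mul_left 2), a1.tsum_add a2, tsum_mul_left] at hle
  have h3 : ∑' x, f x * f x = ∑ x ∈ Λ, f x ^ 2 := by
    rw [en_tsum (T := Λ)]
    · exact Finset.sum_congr rfl fun x _ => by ring
    · intro x hx
      rw [hf x hx, zero_mul]
  rw [← h3]
  linarith

theorem dir_pos {f : V → ℝ} (hf : Off Λ f) (h0 : f ≠ 0) : 0 < Dir f := by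
  have s0 := en_mul (g := f) hf
  have a1 := en_summ_shift s0 (1, 0)
  have a2 := en_summ_shift s0 (0, 1)
  have s1 := (en_mul (g := fun x => f (x + (1, 0))) hf).mul_left 2
  have s3 := (en_mul (g := fun x => f (x + (0, 1))) hf).mul_left 2
  have hs : Summable fun x : V => (f (x.1 + 1, x.2) - f x) ^ 2 + (f (x.1, x.2 + 1) - f x) ^ 2 := by
    refine ((((a1.add a2).add (s0.mul_left 2)).sub s1).sub s3).congr fun x => ?_
    rw [en_e1 f, en_e2 f]
    ring
  by_contra hc
  rw [not_lt] at hc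
  have hz : ∀ x : V, f (x.1 + 1, x.2) = f x := by
    intro x
    have h1 := hs.le_tsum x (fun y _ => by positivity)
    have h2 : (f (x.1 + 1, x.2) - f x) ^ 2 + (f (x.1, x.2 + 1) - f x) ^ 2 ≤ 0 := h1.trans hc
    have h3 : (f (x.1 + 1, x.2) - f x) ^ 2 = 0 := by
      nlinarith [sq_nonneg (f (x.1 + 1, x.2) - f x), sq_nonneg (f (x.1, x.2 + 1) - f x)]
    have h4 := pow_eq_zero_iff (two_ne_zero) |>.1 h3
    linarith
  obtain ⟨x, hx⟩ := Function.ne_iff.1 h0
  have hn : ∀ n : ℕ, f (x.1 + n, x.2) = f x := by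
    intro n
    induction n with
    | zero => simp
    | succ n ih =>
      have := hz (x.1 + n, x.2)
      simp only at this
      rw [ih] at this
      rw [← this]
      congr 1
      ext
      · push_cast; ring
      · rfl
  have hinf := Set.infinite_of_injective_forall_mem (s := (Λ : Set V))
    (f := fun n : ℕ => ((x.1 + n, x.2) : V))
    (fun a b hab => by
      have := congrArg Prod.fst hab
      simpa using this)
    (fun n => by
      by_contra hm
      have h1 := hf _ hm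
      rw [hn] at h1
      exact hx h1)
  exact hinf Λ.finite_toSet

theorem lap_symm {f g : V → ℝ} (hf : Off Λ f) (hg : Off Λ g) :
    ip Λ f (Lap g) = ip Λ (Lap f) g := by
  have hc : ip Λ (Lap f) g = ip Λ g (Lap f) := by
    unfold ip
    exact Finset.sum_congr rfl fun x _ => mul_comm _ _
  rw [hc, en_lap f g hf, en_lap g f hg]
  have h0 : ∑' x, f x * g x = ∑' x, g x * f x := by
    congr 1
    ext x
    ring
  have h1 := en_swap f g (1, 0)
  have h2 := en_swap f g (0, 1)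
  have h3 := en_swap g f (1, 0)
  have h4 := en_swap g f (0, 1)
  simp only [mul_comm (f (_ - _)) (g _), mul_comm (g (_ - _)) (f _)] at h1 h2 h3 h4
  rw [h0, h1, h2, h3, h4]
  ring

theorem lap_sum {u : V → ℝ} (hu : ∀ x, u x ≠ 0 → ∀ y, nd x y ≤ 1 → y ∈ Λ) :
    ∑ x ∈ Λ, Lap u x = 0 := by
  have hu0 : Off Λ u := by
    intro x hx
    by_contra h
    exact hx (hu x h x (by simp [nd]))
  have s0 : Summable u := en_sum (T := Λ) hu0
  have e1 := en_shift u (1, 0)
  have e2 := en_shift u (0, 1)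
  have e3 := en_shift u (-(1, 0))
  have e4 := en_shift u (-(0, 1))
  have s1 := en_summ_shift s0 (1, 0)
  have s2 := en_summ_shift s0 (0, 1)
  have s3 := en_summ_shift s0 (-(1, 0))
  have s4 := en_summ_shift s0 (-(0, 1))
  have key : ∑' x, Lap u x = 4 * ∑' x, u x - ∑' x, u (x + (1, 0)) - ∑' x, u (x + -(1, 0)) -
      ∑' x, u (x + (0, 1)) - ∑' x, u (x + -(0, 1)) := by
    rw [← tsum_mul_left, ← (s0.mul_left 4).tsum_sub s1, ← ((s0.mul_left 4).sub s1).tsum_sub s3,
      ← (((s0.mul_left 4).sub s1).sub s3).tsum_sub s2,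
      ← ((((s0.mul_left 4).sub s1).sub s3).sub s2).tsum_sub s4]
    congr 1
    ext x
    rw [Lap, en_e1 u, en_e2 u, en_m1 u, en_m2 u, sub_eq_add_neg x, sub_eq_add_neg x]
  rw [← en_tsum (T := Λ), key, e1, e2, e3, e4]
  · ring
  · intro x hx
    have hn : ∀ y, nd y x ≤ 1 → u y = 0 := by
      intro y hy
      by_contra h
      exact hx (hu y h x hy)
    have q0 := hn x (by simp [nd])
    have q1 := hn (x.1 + 1, x.2) (by simp [nd])
    have q2 := hn (x.1 - 1, x.2) (by simp [nd])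
    have q3 := hn (x.1, x.2 + 1) (by simp [nd])
    have q4 := hn (x.1, x.2 - 1) (by simp [nd])
    rw [Lap, q0, q1, q2, q3, q4]
    norm_num

theorem dir_bump {u : V → ℝ} {t : ℤ} (ht : 1 ≤ t) (x0 : V)
    (h0 : ∀ x, 5 * t ≤ nd x x0 → u x = 0)
    (hl : ∀ x y, nd x y ≤ 1 → |u x - u y| ≤ 2 / (t : ℝ)) : Dir u ≤ 1936 := by
  set T : Finset V := Finset.Icc (x0.1 - 5 * t) (x0.1 + 5 * t) ×ˢ
    Finset.Icc (x0.2 - 5 * t) (x0.2 + 5 * t) with hT
  have hmem : ∀ x : V, x ∉ T → 5 * t + 1 ≤ nd x x0 := by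
    intro x hx
    by_contra hc
    rw [not_le] at hc
    have hc' : nd x x0 ≤ 5 * t := by omega
    apply hx
    rw [nd, max_le_iff, abs_le, abs_le] at hc'
    rw [hT, Finset.mem_product, Finset.mem_Icc, Finset.mem_Icc]
    refine ⟨⟨?_, ?_⟩, ?_, ?_⟩ <;> omega
  have hz : ∀ x : V, x ∉ T → (u (x.1 + 1, x.2) - u x) ^ 2 + (u (x.1, x.2 + 1) - u x) ^ 2 = 0 := by
    intro x hx
    have h1 := hmem x hx
    have a0 : u x = 0 := h0 x (by omega)
    have a1 : u (x.1 + 1, x.2) = 0 := by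
      apply h0
      rw [nd, le_max_iff] at h1 ⊢
      rcases h1 with h1 | h1
      · left
        rw [le_abs] at h1 ⊢
        simp only
        omega
      · right
        simp only
        omega
    have a2 : u (x.1, x.2 + 1) = 0 := by
      apply h0
      rw [nd, le_max_iff] at h1 ⊢
      rcases h1 with h1 | h1
      · left
        simp only
        omega
      · right
        rw [le_abs] at h1 ⊢
        simp only
        omega
    rw [a0, a1, a2]
    norm_num
  have htR : (1 : ℝ) ≤ (t : ℝ) := by exact_mod_cast ht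
  have ht0 : (0 : ℝ) < (t : ℝ) := by linarith
  have hb : ∀ x : V, (u (x.1 + 1, x.2) - u x) ^ 2 + (u (x.1, x.2 + 1) - u x) ^ 2 ≤
      8 / (t : ℝ) ^ 2 := by
    intro x
    have b1 := hl (x.1 + 1, x.2) x (by simp [nd])
    have b2 := hl (x.1, x.2 + 1) x (by simp [nd])
    have c1 : (u (x.1 + 1, x.2) - u x) ^ 2 ≤ (2 / (t : ℝ)) ^ 2 := by
      rw [← sq_abs (u (x.1 + 1, x.2) - u x)]
      exact pow_le_pow_left₀ (abs_nonneg _) b1 2
    have c2 : (u (x.1, x.2 + 1) - u x) ^ 2 ≤ (2 / (t : ℝ)) ^ 2 := by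
      rw [← sq_abs (u (x.1, x.2 + 1) - u x)]
      exact pow_le_pow_left₀ (abs_nonneg _) b2 2
    have e : 8 / (t : ℝ) ^ 2 = (2 / (t : ℝ)) ^ 2 + (2 / (t : ℝ)) ^ 2 := by ring
    rw [e]
    exact add_le_add c1 c2
  have hcard : ((T.card : ℕ) : ℝ) = (10 * (t : ℝ) + 1) ^ 2 := by
    rw [hT, Finset.card_product, Int.card_Icc, Int.card_Icc]
    have e1 : x0.1 + 5 * t + 1 - (x0.1 - 5 * t) = 10 * t + 1 := by ring
    have e2 : x0.2 + 5 * t + 1 - (x0.2 - 5 * t) = 10 * t + 1 := by ring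
    rw [e1, e2]
    have e3 : (((10 * t + 1).toNat : ℕ) : ℝ) = 10 * (t : ℝ) + 1 := by
      have : (((10 * t + 1).toNat : ℕ) : ℤ) = 10 * t + 1 := Int.toNat_of_nonneg (by omega)
      have h2 : ((((10 * t + 1).toNat : ℕ) : ℤ) : ℝ) = ((10 * t + 1 : ℤ) : ℝ) := by rw [this]
      push_cast at h2
      exact h2
    push_cast
    rw [e3]
    ring
  have h1 : Dir u = ∑ x ∈ T, ((u (x.1 + 1, x.2) - u x) ^ 2 + (u (x.1, x.2 + 1) - u x) ^ 2) :=
    en_tsum hz
  rw [h1]
  refine (Finset.sum_le_card_nsmul T _ (8 / (t : ℝ) ^ 2) (fun x _ => hb x)).trans ?_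
  rw [nsmul_eq_mul, hcard, mul_div_assoc', div_le_iff₀ (by positivity)]
  nlinarith

end Pool.Agent.LRT
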