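import Pool.Agent.LRT.Defs

/-!
# LR-T3-Extract: exact extraction of local Gaussian energy (0.8 h)

PLAN. `J G h s c = ∑_{ε : s → {-1,0,1}} (∏ w_i(ε_i)) * cos-part`: with complex exponentials, for `i ∈ s`
`fac G h (c i) ω = 1 + (z_i/2) e^{i a_i} + (z_i/2) e^{-i a_i}`, `a_i = 2π (ip Λ h R_i + ip Λ (φ ω) v_i)`. Expand the product over the finset
(`Finset.prod_univ_sum` or `Finset.prod_sum` with the index set `{-1,0,1} : Finset ℤ`, functions `ε ∈ s.pi (fun _ => {-1,0,1})`, or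
`Fintype.piFinset`), integrate each term with `G.char` (bounded continuous, measurable by `G.meas`):
`∫ exp(2π i ip Λ (φ ω) (∑ ε_i v_i)) = exp(-(2π²/β) B(∑ ε_i v_i, ∑ ε_i v_i))`.
So `J G h s c = ∑_ε (∏_i w_i(ε_i)) exp(2π i ip Λ h (∑ ε_i R_i)) exp(-(2π²/β) ∑_{i,j} ε_i ε_j B(v_i, v_j))`, `w_i(0) = 1`, `w_i(±1) = z_i/2`.
If `B(v'_i, v'_j) = B(v_i, v_j)` for `i ≠ j`, `B(v'_i, v'_i) = B(v_i, v_i) - g_i`, `z'_i = z_i exp(-(2π²/β) g_i)`, `ρ'_i = ρ_i`, the two sums
agree term by term (`ε_i² = |ε_i|`).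
-/

set_option autoImplicit false

noncomputable section

open scoped BigOperators
open MeasureTheory

namespace Pool.Agent.LRT

variable {Λ : Finset V} {β : ℝ}

/-- weight of a sign -/
private def wt (z : ℝ) (e : ℤ) : ℝ := if e = 0 then 1 else z / 2

private theorem fac_expand (G : GField Λ β) (h : V → ℝ) (c : Cl) (ω : G.Ω) :
    ((fac G h c ω : ℝ) : ℂ) = ∑ e ∈ ({-1, 0, 1} : Finset ℤ), (wt c.z e : ℂ) *
      (Complex.exp (2 * Real.pi * Complex.I * ((e : ℝ) * ip Λ h c.R : ℝ)) *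
        Complex.exp (2 * Real.pi * Complex.I * ((e : ℝ) * ip Λ (G.φ ω) c.v : ℝ))) := by
  have h1 : (-1 : ℤ) ∉ ({0, 1} : Finset ℤ) := by decide
  have h2 : (0 : ℤ) ∉ ({1} : Finset ℤ) := by decide
  rw [Finset.sum_insert h1, Finset.sum_insert h2, Finset.sum_singleton]
  rw [← Complex.exp_add, ← Complex.exp_add, ← Complex.exp_add]
  have w1 : wt c.z (-1) = c.z / 2 := if_neg (by decide)
  have w2 : wt c.z 0 = 1 := if_pos rfl
  have w3 : wt c.z 1 = c.z / 2 := if_neg (by decide)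
  rw [w1, w2, w3, fac]
  push_cast
  rw [Complex.cos]
  have e0 : (2 * (Real.pi : ℂ) * Complex.I * (0 * (ip Λ h c.R : ℂ)) +
      2 * (Real.pi : ℂ) * Complex.I * (0 * (ip Λ (G.φ ω) c.v : ℂ))) = 0 := by ring
  have e1 : (2 * (Real.pi : ℂ) * Complex.I * (-1 * (ip Λ h c.R : ℂ)) +
      2 * (Real.pi : ℂ) * Complex.I * (-1 * (ip Λ (G.φ ω) c.v : ℂ))) =
      -(2 * (Real.pi : ℂ) * ((ip Λ h c.R : ℂ) + (ip Λ (G.φ ω) c.v : ℂ))) * Complex.I := by ring
  have e2 : (2 * (Real.pi : ℂ) * Complex.I * (1 * (ip Λ h c.R : ℂ)) +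
      2 * (Real.pi : ℂ) * Complex.I * (1 * (ip Λ (G.φ ω) c.v : ℂ))) =
      (2 * (Real.pi : ℂ) * ((ip Λ h c.R : ℂ) + (ip Λ (G.φ ω) c.v : ℂ))) * Complex.I := by ring
  rw [e0, e1, e2, Complex.exp_zero]
  ring

private theorem ip_meas (G : GField Λ β) (v : V → ℝ) : Measurable fun ω => ip Λ (G.φ ω) v := by
  unfold ip
  exact Finset.measurable_sum _ (fun x _ => (G.meas x).mul_const _)

private theorem char_int (G : GField Λ β) (v : V → ℝ) : Integrable
    (fun ω => Complex.exp (2 * Real.pi * Complex.I * (ip Λ (G.φ ω) v : ℝ))) G.μ := by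
  refine Integrable.of_bound (C := 1) ?_ ?_
  · refine Measurable.aestronglyMeasurable ?_
    refine Complex.measurable_exp.comp ?_
    exact (Complex.measurable_ofReal.comp (ip_meas G v)).const_mul _
  · refine Filter.Eventually.of_forall (fun ω => ?_)
    have e : (2 * (Real.pi : ℂ) * Complex.I * ((ip Λ (G.φ ω) v : ℝ) : ℂ)) =
        ((2 * Real.pi * ip Λ (G.φ ω) v : ℝ) : ℂ) * Complex.I := by
      push_cast; ring
    rw [e, Complex.norm_exp_ofReal_mul_I]

private theorem ip_sum (Λ : Finset V) (f : V → ℝ) {κ : Type} (t : Finset κ) (a : κ → ℝ)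
    (v : κ → V → ℝ) : ip Λ f (∑ i ∈ t, a i • v i) = ∑ i ∈ t, a i * ip Λ f (v i) := by
  unfold ip
  simp only [Finset.sum_apply, Pi.smul_apply, smul_eq_mul, Finset.mul_sum]
  rw [Finset.sum_comm]
  refine Finset.sum_congr rfl (fun i _ => Finset.sum_congr rfl (fun x _ => ?_))
  ring

private theorem J_expand (G : GField Λ β) (h : V → ℝ) {ι : Type} [DecidableEq ι]
    (s : Finset ι) (c : ι → Cl) :
    ((J G h s c : ℝ) : ℂ) = ∑ x ∈ Fintype.piFinset (fun _ : s => ({-1, 0, 1} : Finset ℤ)),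
      ((∏ i : s, (wt (c i).z (x i) : ℂ)) *
        (Complex.exp (2 * Real.pi * Complex.I * (∑ i : s, (x i : ℝ) * ip Λ h (c i).R : ℝ)) *
        Complex.exp (-(2 * Real.pi ^ 2 / β *
          G.B (∑ i : s, (x i : ℝ) • (c i).v) (∑ i : s, (x i : ℝ) • (c i).v) : ℝ)))) := by
  have e1 : ((J G h s c : ℝ) : ℂ) = ∫ ω, ((∏ i ∈ s, fac G h (c i) ω : ℝ) : ℂ) ∂G.μ := by
    rw [J, integral_complex_ofReal]
  rw [e1]
  have e2 : ∀ ω, ((∏ i ∈ s, fac G h (c i) ω : ℝ) : ℂ) =
      ∑ x ∈ Fintype.piFinset (fun _ : s => ({-1, 0, 1} : Finset ℤ)),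
      ((∏ i : s, (wt (c i).z (x i) : ℂ)) *
        Complex.exp (2 * Real.pi * Complex.I * (∑ i : s, (x i : ℝ) * ip Λ h (c i).R : ℝ))) *
        Complex.exp (2 * Real.pi * Complex.I *
          (ip Λ (G.φ ω) (∑ i : s, (x i : ℝ) • (c i).v) : ℝ)) := by
    intro ω
    rw [Complex.ofReal_prod, ← Finset.prod_coe_sort]
    have e3 : ∀ i : s, ((fac G h (c i) ω : ℝ) : ℂ) = ∑ e ∈ ({-1, 0, 1} : Finset ℤ), (wt (c i).z e : ℂ) *
      (Complex.exp (2 * Real.pi * Complex.I * ((e : ℝ) * ip Λ h (c i).R : ℝ)) *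
        Complex.exp (2 * Real.pi * Complex.I * ((e : ℝ) * ip Λ (G.φ ω) (c i).v : ℝ))) :=
      fun i => fac_expand G h (c i) ω
    rw [Finset.prod_congr rfl (fun i _ => e3 i), Finset.prod_univ_sum]
    refine Finset.sum_congr rfl (fun x _ => ?_)
    rw [Finset.prod_mul_distrib, Finset.prod_mul_distrib, ← Complex.exp_sum, ← Complex.exp_sum,
      ← Finset.mul_sum, ← Finset.mul_sum, ip_sum]
    push_cast
    ring
  rw [integral_congr_ae (Filter.Eventually.of_forall e2), integral_finset_sum]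
  · refine Finset.sum_congr rfl (fun x _ => ?_)
    rw [integral_const_mul, G.char, mul_assoc]
  · intro x _
    exact (char_int G _).const_mul _

private theorem quad_sum {κ : Type} [Fintype κ] [DecidableEq κ]
    (B : (V → ℝ) →ₗ[ℝ] (V → ℝ) →ₗ[ℝ] ℝ) (a : κ → ℝ) (v : κ → V → ℝ) :
    B (∑ i, a i • v i) (∑ i, a i • v i) = ∑ i, ∑ j, a i * a j * B (v i) (v j) := by
  rw [map_sum, Finset.sum_comm]
  refine Finset.sum_congr rfl (fun j _ => ?_)
  rw [map_sum, LinearMap.sum_apply]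
  refine Finset.sum_congr rfl (fun i _ => ?_)
  rw [map_smul, map_smul, LinearMap.smul_apply, smul_eq_mul, smul_eq_mul]
  ring

theorem extract (G : GField Λ β) (h : V → ℝ) {ι : Type} (s : Finset ι) (c c' : ι → Cl) (g : ι → ℝ)
    (hρ : ∀ i ∈ s, (c' i).ρ = (c i).ρ)
    (hoff : ∀ i ∈ s, ∀ j ∈ s, i ≠ j → G.B (c' i).v (c' j).v = G.B (c i).v (c j).v)
    (hdiag : ∀ i ∈ s, G.B (c' i).v (c' i).v = G.B (c i).v (c i).v - g i)
    (hz : ∀ i ∈ s, (c' i).z = (c i).z * Real.exp (-(2 * Real.pi ^ 2 / β) * g i)) :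
    J G h s c' = J G h s c := by
  classical
  have key : ((J G h s c' : ℝ) : ℂ) = ((J G h s c : ℝ) : ℂ) := by
    rw [J_expand, J_expand]
    refine Finset.sum_congr rfl (fun x hx => ?_)
    have hR : ∀ i : s, (c' i).R = (c i).R := by
      intro i
      unfold Cl.R
      rw [hρ i i.2]
    have e1 : (∑ i : s, (x i : ℝ) * ip Λ h (c' i).R) = ∑ i : s, (x i : ℝ) * ip Λ h (c i).R :=
      Finset.sum_congr rfl (fun i _ => by rw [hR i])
    have hxi : ∀ i : s, x i = -1 ∨ x i = 0 ∨ x i = 1 := by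
      intro i
      have h1 := (Fintype.mem_piFinset.mp hx) i
      rw [Finset.mem_insert, Finset.mem_insert, Finset.mem_singleton] at h1
      exact h1
    have e2 : G.B (∑ i : s, (x i : ℝ) • (c' i).v) (∑ i : s, (x i : ℝ) • (c' i).v) =
        G.B (∑ i : s, (x i : ℝ) • (c i).v) (∑ i : s, (x i : ℝ) • (c i).v) -
          ∑ i : s, (x i : ℝ) ^ 2 * g i := by
      rw [quad_sum G.B (fun i : s => (x i : ℝ)) (fun i : s => (c' i).v),
        quad_sum G.B (fun i : s => (x i : ℝ)) (fun i : s => (c i).v), ← Finset.sum_sub_distrib]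
      refine Finset.sum_congr rfl (fun i _ => ?_)
      have e3 : ∀ j : s, (x i : ℝ) * (x j : ℝ) * G.B (c' i).v (c' j).v =
          (x i : ℝ) * (x j : ℝ) * G.B (c i).v (c j).v -
            (if i = j then (x i : ℝ) ^ 2 * g i else 0) := by
        intro j
        by_cases hij : i = j
        · rw [if_pos hij, ← hij, hdiag i i.2]
          ring
        · rw [if_neg hij, hoff i i.2 j j.2 (fun e => hij (Subtype.ext e))]
          ring
      rw [Finset.sum_congr rfl (fun j _ => e3 j), Finset.sum_sub_distrib,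
        Finset.sum_ite_eq Finset.univ i, if_pos (Finset.mem_univ i)]
    have e4 : (∏ i : s, (wt (c' i).z (x i) : ℂ)) = (∏ i : s, (wt (c i).z (x i) : ℂ)) *
        Complex.exp ((-(2 * Real.pi ^ 2 / β * ∑ i : s, (x i : ℝ) ^ 2 * g i) : ℝ)) := by
      have e5 : ∀ i : s, (wt (c' i).z (x i) : ℂ) = (wt (c i).z (x i) : ℂ) *
          Complex.exp ((-(2 * Real.pi ^ 2 / β * ((x i : ℝ) ^ 2 * g i)) : ℝ)) := by
        intro i
        rw [← Complex.ofReal_exp, ← Complex.ofReal_mul]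
        refine congrArg _ ?_
        rcases hxi i with h1 | h1 | h1
        · rw [h1, wt, wt, if_neg (by decide), if_neg (by decide), hz i i.2]
          have e6 : -(2 * Real.pi ^ 2 / β * ((((-1 : ℤ) : ℝ)) ^ 2 * g i)) =
              -(2 * Real.pi ^ 2 / β) * g i := by push_cast; ring
          rw [e6]
          ring
        · rw [h1, wt, wt, if_pos rfl, if_pos rfl]
          have e6 : -(2 * Real.pi ^ 2 / β * ((((0 : ℤ) : ℝ)) ^ 2 * g i)) = 0 := by push_cast; ring
          rw [e6, Real.exp_zero, mul_one]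
        · rw [h1, wt, wt, if_neg (by decide), if_neg (by decide), hz i i.2]
          have e6 : -(2 * Real.pi ^ 2 / β * ((((1 : ℤ) : ℝ)) ^ 2 * g i)) =
              -(2 * Real.pi ^ 2 / β) * g i := by push_cast; ring
          rw [e6]
          ring
      rw [Finset.prod_congr rfl (fun i _ => e5 i), Finset.prod_mul_distrib, ← Complex.exp_sum,
        ← Complex.ofReal_sum, Finset.sum_neg_distrib, ← Finset.mul_sum]
    rw [e1, e2, e4]
    have e7 : ∀ A P Q D E : ℂ, D * E = Q → A * D * (P * E) = A * (P * Q) := by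
      intro A P Q D E hDE
      rw [← hDE]
      ring
    refine e7 _ _ _ _ _ ?_
    rw [← Complex.exp_add]
    refine congrArg _ ?_
    push_cast
    ring
  exact_mod_cast key

end Pool.Agent.LRT
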