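import Pool.Agent.LRT.Wave
import Pool.Agent.LRT.Extract

/-!
# LR-T3-ExStep: the extraction step (0.8 h)

PLAN. For active `i ∈ s` choose `u_i` (`wave_exists`), `t_i = sign(Q_i)/1936` (`Q_i ≠ 0`, `active_facts`); otherwise `u_i = 0`, `t_i = 0`.
`v'_i = v_i - t_i • Lap u_i`, `g_i = 2 t_i (ip u_i v_i - (1/8) ip (Lap u_i) v_i) - t_i² (ip u_i (Lap u_i) - (1/8) ip (Lap u_i) (Lap u_i))`,
`z'_i = z_i exp(-(2π²/β) g_i)`; for inactive `i` let `c' i = c i`.
* `extract` applies: by `G.lap` (`Off Λ u_i`), `B(Lap u_i, v_j) = ip u_i v_j - (1/8) ip (Lap u_i) v_j = 0` for `j ≠ i`;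
  for two different active `i, j`: `B(Lap u_i, Lap u_j) = ip u_i (Lap u_j) - (1/8) ip (Lap u_i)(Lap u_j) = 0`: supports are within
  `5 r_k + 1 ≤ 6 r_k` of `S_i`, `S_j`, which are at distance `> 16 r_k` (`Post.sepA`, active ⇒ alive). Diagonal: expand, `G.symm`.
* gain: `ip u_i v_i = ∑_Λ v_i = Q_i`, `ip (Lap u_i) v_i = 0`, `ip u_i (Lap u_i) = Dir u_i ≤ 1936` (`dir_eq`), `ip (Lap)(Lap) ≥ 0`:
  `g_i ≥ 2 |Q_i|/1936 - 1936/1936² ≥ 1/1936`.
* `Wf`: `∑_Λ v'_i = Q_i - t_i ∑_Λ Lap u_i = Q_i` (`lap_sum`).  * support of `v'_i`: `supp v_i` is within `r_k` of `S_i`, `Lap u_i` within `5 r_k + 1`.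
-/

set_option autoImplicit false

noncomputable section

open scoped BigOperators
open MeasureTheory

namespace Pool.Agent.LRT

variable {Λ : Finset V} {β : ℝ}

private theorem ex_lap_ne {u : V → ℝ} {x : V} (h : Lap u x ≠ 0) :
    ∃ x', nd x x' ≤ 1 ∧ u x' ≠ 0 := by
  by_contra hcon
  push Not at hcon
  apply h
  unfold Lap
  have h0 := hcon x (by simp [nd])
  have h1 := hcon (x.1 + 1, x.2) (by simp [nd])
  have h2 := hcon (x.1 - 1, x.2) (by simp [nd])
  have h3 := hcon (x.1, x.2 + 1) (by simp [nd])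
  have h4 := hcon (x.1, x.2 - 1) (by simp [nd])
  rw [h0, h1, h2, h3, h4]
  ring

private theorem ex_ip_zero {f g : V → ℝ} (h : ∀ x, f x * g x = 0) : ip Λ f g = 0 := by
  unfold ip
  exact Finset.sum_eq_zero fun x _ => h x

private theorem ex_alive {k : ℕ} {c : Cl} (h : Active Λ k c) : k ≤ tau (js Λ c) := by
  have h1 := h.2
  unfold tau
  omega

private theorem ex_off {u : V → ℝ} (h : ∀ x, u x ≠ 0 → ∀ y, nd x y ≤ 1 → y ∈ Λ) : Off Λ u := by
  intro x hx
  by_contra h0
  exact hx (h x h0 x (by simp [nd]))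

/-- the new cluster -/
private def exC (β : ℝ) (Λ : Finset V) (c : Cl) (u : V → ℝ) (t : ℝ) : Cl where
  S := c.S
  ρ := c.ρ
  v := c.v - t • Lap u
  z := c.z * Real.exp (-(2 * Real.pi ^ 2 / β) *
    (2 * t * (ip Λ u c.v - (1 / 8) * ip Λ (Lap u) c.v) -
      t ^ 2 * (ip Λ u (Lap u) - (1 / 8) * ip Λ (Lap u) (Lap u))))

private theorem ex_lap_zero : Lap (0 : V → ℝ) = 0 := by
  funext x
  simp [Lap]

theorem extract_step (G : GField Λ β) (hβ : 0 < β) (hβ1 : kap + C1 ≤ 2 * Real.pi ^ 2 / β / 1936)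
    {B0 : ℝ} {k : ℕ} {ι : Type} {s : Finset ι} {c : ι → Cl} (hp : Post Λ B0 k s c) :
    ∃ c' : ι → Cl, (∀ h : V → ℝ, J G h s c' = J G h s c) ∧ ∀ i ∈ s,
      (c' i).S = (c i).S ∧ (c' i).ρ = (c i).ρ ∧ Wf Λ (c' i) ∧
      (¬ Active Λ k (c i) → c' i = c i) ∧
      (Active Λ k (c i) → (∀ x, (c' i).v x ≠ 0 → ∃ y ∈ (c i).S, nd x y ≤ 6 * r k) ∧
        (c' i).z ≤ (c i).z * Real.exp (-(kap + C1))) := by
  classical
  have hex : ∀ i, ∃ u : V → ℝ, (i ∈ s → Active Λ k (c i) →
      (∀ x, u x ≠ 0 → ∀ y, nd x y ≤ 1 → y ∈ Λ) ∧ Dir u ≤ 1936 ∧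
      (∀ x, (c i).v x ≠ 0 → u x = 1 ∧ Lap u x = 0) ∧
      (∀ x, u x ≠ 0 → ∃ y ∈ (c i).S, nd x y ≤ 5 * r k) ∧
      (∀ j ∈ s, j ≠ i → ip Λ u (c j).v = 0 ∧ ∀ x, (c j).v x ≠ 0 → Lap u x = 0)) := by
    intro i
    by_cases h : i ∈ s ∧ Active Λ k (c i)
    · obtain ⟨u, hu⟩ := wave_exists hp h.1 h.2
      exact ⟨u, fun _ _ => hu⟩
    · exact ⟨0, fun h1 h2 => absurd ⟨h1, h2⟩ h⟩
  choose u hu using hex
  let t : ι → ℝ := fun i => if Active Λ k (c i) then ((Int.sign (c i).Q : ℤ) : ℝ) / 1936 else 0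
  let c' : ι → Cl := fun i => if Active Λ k (c i) then exC β Λ (c i) (u i) (t i) else c i
  let g : ι → ℝ := fun i => 2 * t i * (ip Λ (u i) (c i).v - (1 / 8) * ip Λ (Lap (u i)) (c i).v) -
      (t i) ^ 2 * (ip Λ (u i) (Lap (u i)) - (1 / 8) * ip Λ (Lap (u i)) (Lap (u i)))
  have hcA : ∀ i, Active Λ k (c i) → c' i = exC β Λ (c i) (u i) (t i) := fun i h => if_pos h
  have hcN : ∀ i, ¬ Active Λ k (c i) → c' i = c i := fun i h => if_neg h
  have hv : ∀ i, (c' i).v = (c i).v - t i • Lap (u i) := by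
    intro i
    by_cases h : Active Λ k (c i)
    · rw [hcA i h]; rfl
    · have ht : t i = 0 := if_neg h
      rw [hcN i h, ht, zero_smul, sub_zero]
  have hS : ∀ i, (c' i).S = (c i).S := by
    intro i
    by_cases h : Active Λ k (c i)
    · rw [hcA i h]; rfl
    · rw [hcN i h]
  have hρ : ∀ i, (c' i).ρ = (c i).ρ := by
    intro i
    by_cases h : Active Λ k (c i)
    · rw [hcA i h]; rfl
    · rw [hcN i h]
  -- the form on the new densities
  have hB : ∀ i ∈ s, Active Λ k (c i) → ∀ w : V → ℝ,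
      G.B (Lap (u i)) w = ip Λ (u i) w - (1 / 8) * ip Λ (Lap (u i)) w := fun i hi ha w =>
    G.lap (u i) (ex_off (hu i hi ha).1) w
  have hBv : ∀ i ∈ s, Active Λ k (c i) → ∀ j ∈ s, j ≠ i → G.B (Lap (u i)) (c j).v = 0 := by
    intro i hi ha j hj hji
    obtain ⟨h1, h2⟩ := (hu i hi ha).2.2.2.2 j hj hji
    rw [hB i hi ha, h1, ex_ip_zero (fun x => by
      by_cases h : (c j).v x = 0
      · rw [h, mul_zero]
      · rw [h2 x h, zero_mul]), mul_zero, sub_zero]
  have hBB : ∀ i ∈ s, Active Λ k (c i) → ∀ j ∈ s, Active Λ k (c j) → j ≠ i →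
      G.B (Lap (u i)) (Lap (u j)) = 0 := by
    intro i hi ha j hj haj hji
    have hr := r_pos k
    have far : ∀ x x' : V, nd x x' ≤ 2 → u i x ≠ 0 → u j x' ≠ 0 → False := by
      intro x x' hxx hx hx'
      obtain ⟨y, hy, hy1⟩ := (hu i hi ha).2.2.2.1 x hx
      obtain ⟨y', hy', hy1'⟩ := (hu j hj haj).2.2.2.1 x' hx'
      have h1 := hp.sepA i hi j hj (fun h => hji h.symm) (ex_alive ha) (ex_alive haj) y hy y' hy'
      have h2 := nd_tri y x y'
      have h3 := nd_tri x x' y'
      have h4 := nd_comm x y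
      omega
    rw [hB i hi ha, ex_ip_zero (fun x => ?_), ex_ip_zero (fun x => ?_), mul_zero, sub_zero]
    · by_contra h
      obtain ⟨x1, q1, q2⟩ := ex_lap_ne (left_ne_zero_of_mul h)
      obtain ⟨x2, q3, q4⟩ := ex_lap_ne (right_ne_zero_of_mul h)
      refine far x1 x2 ?_ q2 q4
      have h1 := nd_tri x1 x x2
      have h2 := nd_comm x x1
      omega
    · by_contra h
      obtain ⟨x2, q3, q4⟩ := ex_lap_ne (right_ne_zero_of_mul h)
      exact far x x2 (by omega) (left_ne_zero_of_mul h) q4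
  have hexp : ∀ i j, G.B (c' i).v (c' j).v = G.B (c i).v (c j).v - t i * G.B (Lap (u i)) (c j).v -
      t j * G.B (c i).v (Lap (u j)) + t i * t j * G.B (Lap (u i)) (Lap (u j)) := by
    intro i j
    rw [hv i, hv j]
    simp only [map_sub, map_smul, LinearMap.sub_apply, LinearMap.smul_apply, smul_eq_mul]
    ring
  have ht0 : ∀ i, ¬ Active Λ k (c i) → t i = 0 := fun i h => if_neg h
  refine ⟨c', fun h => ?_, ?_⟩
  · refine extract G h s c c' g (fun i _ => hρ i) ?_ ?_ ?_
    · intro i hi j hj hij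
      rw [hexp]
      have e1 : t i * G.B (Lap (u i)) (c j).v = 0 := by
        by_cases ha : Active Λ k (c i)
        · rw [hBv i hi ha j hj (fun h => hij h.symm), mul_zero]
        · rw [ht0 i ha, zero_mul]
      have e2 : t j * G.B (c i).v (Lap (u j)) = 0 := by
        by_cases ha : Active Λ k (c j)
        · rw [G.symm, hBv j hj ha i hi hij, mul_zero]
        · rw [ht0 j ha, zero_mul]
      have e3 : t i * t j * G.B (Lap (u i)) (Lap (u j)) = 0 := by
        by_cases ha : Active Λ k (c i)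
        · by_cases haj : Active Λ k (c j)
          · rw [hBB i hi ha j hj haj (fun h => hij h.symm), mul_zero]
          · rw [ht0 j haj, mul_zero, zero_mul]
        · rw [ht0 i ha, zero_mul, zero_mul]
      rw [e1, e2, e3]
      ring
    · intro i hi
      rw [hexp]
      by_cases ha : Active Λ k (c i)
      · rw [G.symm (c i).v (Lap (u i)), hB i hi ha, hB i hi ha]
        simp only [g]
        ring
      · simp only [g]
        rw [ht0 i ha]
        ring
    · intro i hi
      by_cases ha : Active Λ k (c i)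
      · rw [hcA i ha]; rfl
      · rw [hcN i ha]
        simp only [g]
        rw [ht0 i ha]
        simp
  · intro i hi
    have hw := hp.wf i hi
    refine ⟨hS i, hρ i, ?_, hcN i, fun ha => ?_⟩
    · refine ⟨?_, ?_, ?_, ?_, ?_⟩
      · rw [hS]; exact hw.ne
      · rw [hS]; exact hw.sub
      · rw [hS, hρ]; exact hw.off
      · have hQ : (c' i).Q = (c i).Q := by
          unfold Cl.Q
          rw [hS, hρ]
        rw [hQ, hv, ← hw.tot]
        simp only [Pi.sub_apply, Pi.smul_apply, smul_eq_mul]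
        rw [Finset.sum_sub_distrib, ← Finset.mul_sum]
        by_cases ha : Active Λ k (c i)
        · rw [lap_sum (hu i hi ha).1, mul_zero, sub_zero]
        · rw [ht0 i ha, zero_mul, sub_zero]
      · by_cases ha : Active Λ k (c i)
        · rw [hcA i ha]
          exact mul_nonneg hw.pos (Real.exp_pos _).le
        · rw [hcN i ha]; exact hw.pos
    · have hr := r_pos k
      constructor
      · intro x hx
        rw [hv] at hx
        by_cases h1 : (c i).v x = 0
        · have h2 : Lap (u i) x ≠ 0 := by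
            intro h2
            apply hx
            simp [h1, h2]
          obtain ⟨x', q1, q2⟩ := ex_lap_ne h2
          obtain ⟨y, hy, hy1⟩ := (hu i hi ha).2.2.2.1 x' q2
          refine ⟨y, hy, ?_⟩
          have h3 := nd_tri x x' y
          omega
        · obtain ⟨y, hy, hy1⟩ := hp.supp i hi x h1
          refine ⟨y, hy, ?_⟩
          have h3 := r_mono (min_le_left k (js Λ (c i)))
          omega
      · -- the gain
        obtain ⟨a1, a2, a3, a4, a5⟩ := hu i hi ha
        obtain ⟨hQ, _⟩ := active_facts hw ha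
        have e1 : ip Λ (u i) (c i).v = ((c i).Q : ℝ) := by
          rw [← hw.tot]
          unfold ip
          refine Finset.sum_congr rfl fun x _ => ?_
          by_cases h : (c i).v x = 0
          · rw [h, mul_zero]
          · rw [(a3 x h).1, one_mul]
        have e2 : ip Λ (Lap (u i)) (c i).v = 0 := ex_ip_zero fun x => by
          by_cases h : (c i).v x = 0
          · rw [h, mul_zero]
          · rw [(a3 x h).2, zero_mul]
        have e3 : ip Λ (u i) (Lap (u i)) ≤ 1936 := by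
          rw [← dir_eq (ex_off a1)]
          exact a2
        have e4 : 0 ≤ ip Λ (Lap (u i)) (Lap (u i)) := by
          unfold ip
          exact Finset.sum_nonneg fun x _ => mul_self_nonneg _
        have ht : t i = ((Int.sign (c i).Q : ℤ) : ℝ) / 1936 := if_pos ha
        have hts : (t i) ^ 2 = 1 / 1936 ^ 2 := by
          rw [ht, div_pow]
          congr 1
          rcases lt_or_gt_of_ne hQ with h | h
          · rw [Int.sign_eq_neg_one_of_neg h]; norm_num
          · rw [Int.sign_eq_one_of_pos h]; norm_num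
        have htQ : 1 / 1936 ≤ t i * ((c i).Q : ℝ) := by
          have h1 : ((Int.sign (c i).Q : ℤ) : ℝ) * ((c i).Q : ℝ) = |((c i).Q : ℝ)| := by
            rw [← Int.cast_mul, Int.sign_mul_self_eq_abs, Int.cast_abs]
          have h2 : (1 : ℝ) ≤ |((c i).Q : ℝ)| := by
            rw [← Int.cast_abs]
            exact_mod_cast Int.one_le_abs hQ
          rw [ht, div_mul_eq_mul_div, h1]
          exact div_le_div_of_nonneg_right h2 (by norm_num)
        have hg : 1 / 1936 ≤ g i := by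
          simp only [g]
          rw [e1, e2, hts]
          have h1 : 2 * t i * (((c i).Q : ℝ) - 1 / 8 * 0) = 2 * (t i * ((c i).Q : ℝ)) := by ring
          rw [h1]
          have h2 : (1 : ℝ) / 1936 ^ 2 * (ip Λ (u i) (Lap (u i)) -
              1 / 8 * ip Λ (Lap (u i)) (Lap (u i))) ≤ 1 / 1936 ^ 2 * 1936 := by
            apply mul_le_mul_of_nonneg_left _ (by norm_num)
            linarith
          have h3 : (1 : ℝ) / 1936 ^ 2 * 1936 = 1 / 1936 := by norm_num
          linarith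
        have hz : (c' i).z = (c i).z * Real.exp (-(2 * Real.pi ^ 2 / β) * g i) := by
          rw [hcA i ha]; rfl
        rw [hz]
        apply mul_le_mul_of_nonneg_left _ hw.pos
        apply Real.exp_le_exp.2
        have hpos : 0 ≤ 2 * Real.pi ^ 2 / β := by positivity
        have h4 : 2 * Real.pi ^ 2 / β * (1 / 1936) ≤ 2 * Real.pi ^ 2 / β * g i :=
          mul_le_mul_of_nonneg_left hg hpos
        have h5 : 2 * Real.pi ^ 2 / β * (1 / 1936) = 2 * Real.pi ^ 2 / β / 1936 := by ring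
        linarith

end Pool.Agent.LRT
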