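import Pool.Agent.LRT.Pack

/-!
# LR-T3-Jstar: the finishing scale `js` (0.4 h)

`Ended Λ c j` is monotone in `j` (`r` monotone).  It holds for some `j` when `c.S` is nonempty and finite: `Λ` finite, so there is
`w ∉ Λ` (`Infinite V`), and `r j = 64^j ≥ j` is eventually larger than all the finitely many distances. Hence
`js Λ c ≤ k ↔ Ended Λ c k` (`Nat.sInf_mem`, `Nat.sInf_le`, monotonicity).
`js_bound`: a uniform bound for all clusters inside `Λ`: with `w ∉ Λ` fixed take `K` with `nd x y ≤ r K` for all `x, y ∈ Λ` and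
`nd x w ≤ 8 r K`.
`js_congr`: same `S`, charges vanish simultaneously, then `Ended` is the same predicate.
-/

set_option autoImplicit false

noncomputable section

open scoped BigOperators

namespace Pool.Agent.LRT

private theorem ended_mono {Λ : Finset V} {c : Cl} {j k : ℕ} (hjk : j ≤ k) (h : Ended Λ c j) :
    Ended Λ c k := by
  obtain ⟨h1, h2⟩ := h
  have hr := r_mono hjk
  refine ⟨fun x hx y hy => (h1 x hx y hy).trans hr, ?_⟩
  rcases h2 with h2 | ⟨x, hx, w, hw, h3⟩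
  · exact Or.inl h2
  · exact Or.inr ⟨x, hx, w, hw, by omega⟩

private theorem le_r (K : ℕ) : (K : ℤ) ≤ r K := by
  have h : K < 64 ^ K := Nat.lt_pow_self (by norm_num)
  have h2 : ((K : ℕ) : ℤ) < ((64 ^ K : ℕ) : ℤ) := by exact_mod_cast h
  unfold r
  push_cast at h2
  exact h2.le

private theorem exists_scale (U : Finset V) (w : V) :
    ∃ K : ℕ, (∀ x ∈ U, ∀ y ∈ U, nd x y ≤ r K) ∧ ∀ x ∈ U, nd x w ≤ 8 * r K := by
  set M : ℤ := ∑ x ∈ U, ∑ y ∈ U, nd x y + ∑ x ∈ U, nd x w with hM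
  have h1 : 0 ≤ ∑ x ∈ U, ∑ y ∈ U, nd x y :=
    Finset.sum_nonneg fun x _ => Finset.sum_nonneg fun y _ => nd_nonneg x y
  have h2 : 0 ≤ ∑ x ∈ U, nd x w := Finset.sum_nonneg fun x _ => nd_nonneg x w
  have hr := le_r M.toNat
  have hM0 : 0 ≤ M := by omega
  have hM1 : M ≤ r M.toNat := by
    rw [Int.toNat_of_nonneg hM0] at hr
    exact hr
  have hrp := r_pos M.toNat
  refine ⟨M.toNat, fun x hx y hy => ?_, fun x hx => ?_⟩
  · have h3 : nd x y ≤ ∑ y ∈ U, nd x y :=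
      Finset.single_le_sum (f := fun y => nd x y) (fun y _ => nd_nonneg x y) hy
    have h4 : ∑ y ∈ U, nd x y ≤ ∑ x ∈ U, ∑ y ∈ U, nd x y :=
      Finset.single_le_sum (f := fun x => ∑ y ∈ U, nd x y)
        (fun x _ => Finset.sum_nonneg fun y _ => nd_nonneg x y) hx
    omega
  · have h3 : nd x w ≤ ∑ x ∈ U, nd x w :=
      Finset.single_le_sum (f := fun x => nd x w) (fun x _ => nd_nonneg x w) hx
    omega

private theorem exists_out (Λ : Finset V) : ∃ w : V, w ∉ Λ := Infinite.exists_notMem_finset Λ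

private theorem exists_ended {Λ : Finset V} {c : Cl} (hne : c.S.Nonempty) :
    ∃ j, Ended Λ c j := by
  obtain ⟨w, hw⟩ := exists_out Λ
  obtain ⟨K, h1, h2⟩ := exists_scale c.S w
  obtain ⟨x, hx⟩ := hne
  exact ⟨K, h1, Or.inr ⟨x, hx, w, hw, h2 x hx⟩⟩

theorem js_le_iff {Λ : Finset V} {c : Cl} (hne : c.S.Nonempty) (k : ℕ) :
    js Λ c ≤ k ↔ Ended Λ c k := by
  constructor
  · intro h
    have h1 : Ended Λ c (js Λ c) := Nat.sInf_mem (s := {j | Ended Λ c j}) (exists_ended hne)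
    exact ended_mono h h1
  · intro h
    exact Nat.sInf_le (s := {j | Ended Λ c j}) h

theorem js_bound (Λ : Finset V) : ∃ K : ℕ, ∀ c : Cl, Wf Λ c → js Λ c ≤ K := by
  obtain ⟨w, hw⟩ := exists_out Λ
  obtain ⟨K, h1, h2⟩ := exists_scale Λ w
  refine ⟨K, fun c hc => ?_⟩
  rw [js_le_iff hc.ne]
  obtain ⟨x, hx⟩ := hc.ne
  exact ⟨fun x hx y hy => h1 x (hc.sub hx) y (hc.sub hy),
    Or.inr ⟨x, hx, w, hw, h2 x (hc.sub hx)⟩⟩

theorem js_congr {Λ : Finset V} {c c' : Cl} (hS : c.S = c'.S) (hQ : c.Q = 0 ↔ c'.Q = 0) :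
    js Λ c = js Λ c' := by
  unfold js
  congr 1
  ext j
  simp only [Set.mem_ofPred_eq, Ended]
  rw [hS, hQ]

/-- Facts about active clusters: charged, far from the complement of `Λ`. -/
theorem active_facts {Λ : Finset V} {k : ℕ} {c : Cl} (hw : Wf Λ c) (ha : Active Λ k c) :
    c.Q ≠ 0 ∧ ∀ x ∈ c.S, ∀ w, w ∉ Λ → 8 * r k < nd x w := by
  obtain ⟨h1, h2⟩ := ha
  have h3 : ¬ Ended Λ c k := by
    rw [← js_le_iff hw.ne]
    omega
  constructor
  · intro h
    exact h3 ⟨h1, Or.inl h⟩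
  · intro x hx w hww
    by_contra hc
    exact h3 ⟨h1, Or.inr ⟨x, hx, w, hww, not_lt.1 hc⟩⟩

/-- Not compact at scale `k`: then `k < js`. -/
theorem lt_js_of_pack {Λ : Finset V} {k : ℕ} {c : Cl} (hne : c.S.Nonempty)
    (hp : 2 ≤ pack (r k) c.S) : k < js Λ c := by
  by_contra hc
  rw [not_lt, js_le_iff hne] at hc
  have h1 := (pack_one (t := r k) (by have := r_pos k; omega) hne).2 hc.1
  omega

/-- Diameter larger than `r_k / 4` forces `k ≤ js`. -/
theorem le_js_of_far {Λ : Finset V} {k : ℕ} {c : Cl} (hne : c.S.Nonempty)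
    (hp : ∃ x ∈ c.S, ∃ y ∈ c.S, r k < 4 * nd x y) : k ≤ js Λ c := by
  by_contra hc
  obtain ⟨x, hx, y, hy, hxy⟩ := hp
  obtain ⟨j, rfl⟩ : ∃ j, k = j + 1 := ⟨k - 1, by omega⟩
  have h1 : js Λ c ≤ j := by omega
  rw [js_le_iff hne] at h1
  have h2 := h1.1 x hx y hy
  have h3 := r_succ j
  have h4 := r_pos j
  omega

end Pool.Agent.LRT
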