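import Pool.Agent.LRT.Energy
import Pool.Agent.LRT.Jstar

/-!
# LR-T3-PathD: local path bound (0.7 h)

`DirB c R h` = sum over `x` in the box `nd x c ≤ R` of the two squared increments (to the right, up) at `x` (finite sum).
* `path_bound`: `nd x c ≤ R`, `nd y c ≤ R`, `nd x y ≤ m`: `(h x - h y)² ≤ 2 m * DirB c R h`: monotone staircase path from `x` to `y` (first
  horizontal, then vertical) inside the box, at most `2 m` edges, Cauchy-Schwarz (`Finset.inner_mul_le_norm_mul_norm` / `sum_mul_sq_le_sq_mul_sq`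
  / `inner_mul_le`): prove it by two one-dimensional statements (telescoping along a row and along a column).
* `rho_bound`: cluster `c`, `Wf`, `Ended Λ c j`, `h` off `Λ` zero, `x0 ∈ c.S`: `(ip Λ h c.R)² ≤ c.n² * 18 * r j * DirB x0 (10 * r j) h`.
  `Q = 0`: `ip Λ h R = ∑_{x∈S} ρ x (h x - h x0)`; each `|h x - h x0|² ≤ 2 r_j DirB`. `Q ≠ 0`: `w ∉ Λ`, `nd x1 w ≤ 8 r_j`, `x1 ∈ S`, `h w = 0`:
  `ip Λ h R = ∑ ρ x (h x - h w)`, `nd x w ≤ 9 r_j`, all inside the box of radius `9 r_j` around `x0`: `|h x - h w|² ≤ 18 r_j DirB`.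
* `dirB_disj`: for a finite family of centres pairwise at distance `> 20 m` (boxes of radius `10 m` disjoint): `∑ DirB c_i (10 m) h ≤ Dir h`.
-/

set_option autoImplicit false

noncomputable section

open scoped BigOperators

namespace Pool.Agent.LRT

/-- local Dirichlet energy: box of radius `R` around `c` -/
def DirB (c : V) (R : ℤ) (h : V → ℝ) : ℝ :=
  ∑ x ∈ Finset.Icc (c.1 - R) (c.1 + R) ×ˢ Finset.Icc (c.2 - R) (c.2 + R),
    ((h (x.1 + 1, x.2) - h x) ^ 2 + (h (x.1, x.2 + 1) - h x) ^ 2)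

variable {Λ : Finset V}

private theorem pd_nd_le {x y : V} {R : ℤ} : nd x y ≤ R ↔ |x.1 - y.1| ≤ R ∧ |x.2 - y.2| ≤ R := by
  unfold nd
  exact max_le_iff

private theorem pd_nd_comm (x y : V) : nd x y = nd y x := by
  unfold nd
  rw [abs_sub_comm x.1, abs_sub_comm x.2]

private theorem pd_nd_tri {x y z : V} {a b : ℤ} (h1 : nd x y ≤ a) (h2 : nd y z ≤ b) :
    nd x z ≤ a + b := by
  rw [pd_nd_le] at h1 h2 ⊢
  constructor
  · calc |x.1 - z.1| = |(x.1 - y.1) + (y.1 - z.1)| := by congr 1; ring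
      _ ≤ |x.1 - y.1| + |y.1 - z.1| := abs_add_le _ _
      _ ≤ a + b := add_le_add h1.1 h2.1
  · calc |x.2 - z.2| = |(x.2 - y.2) + (y.2 - z.2)| := by congr 1; ring
      _ ≤ |x.2 - y.2| + |y.2 - z.2| := abs_add_le _ _
      _ ≤ a + b := add_le_add h1.2 h2.2

private def pd_box (c : V) (R : ℤ) : Finset V :=
  Finset.Icc (c.1 - R) (c.1 + R) ×ˢ Finset.Icc (c.2 - R) (c.2 + R)

private theorem pd_mem {x c : V} {R : ℤ} : x ∈ pd_box c R ↔ nd x c ≤ R := by
  unfold pd_box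
  rw [Finset.mem_product, Finset.mem_Icc, Finset.mem_Icc, pd_nd_le, abs_le, abs_le]
  constructor
  · rintro ⟨⟨a, b⟩, c, d⟩
    exact ⟨⟨by linarith, by linarith⟩, by linarith, by linarith⟩
  · rintro ⟨⟨a, b⟩, c, d⟩
    exact ⟨⟨by linarith, by linarith⟩, by linarith, by linarith⟩

private theorem pd_tele (g : ℤ → ℝ) (a : ℤ) (n : ℕ) :
    (g (a + n) - g a) ^ 2 ≤ n * ∑ i ∈ Finset.range n, (g (a + i + 1) - g (a + i)) ^ 2 := by
  have h1 : g (a + n) - g a = ∑ i ∈ Finset.range n, (g (a + i + 1) - g (a + i)) := by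
    have := Finset.sum_range_sub (fun i : ℕ => g (a + i)) n
    simp only [Nat.cast_zero, add_zero] at this
    rw [← this]
    refine Finset.sum_congr rfl fun i _ => ?_
    push_cast
    rw [add_assoc]
  rw [h1]
  have := sq_sum_le_card_mul_sum_sq (s := Finset.range n)
    (f := fun i : ℕ => (g (a + i + 1) - g (a + i)))
  rwa [Finset.card_range] at this

/-- a row, ordered ends -/
private theorem pd_row1 (c : V) {R m : ℤ} (h : V → ℝ) {a b t : ℤ} (hab : a ≤ b) (hm : b - a ≤ m)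
    (ha : nd (a, t) c ≤ R) (hb : nd (b, t) c ≤ R) :
    (h (b, t) - h (a, t)) ^ 2 ≤ m * ∑ x ∈ pd_box c R, (h (x.1 + 1, x.2) - h x) ^ 2 := by
  obtain ⟨n, rfl⟩ : ∃ n : ℕ, b = a + n := ⟨(b - a).toNat, by omega⟩
  have h1 : (h (a + n, t) - h (a, t)) ^ 2 ≤
      n * ∑ i ∈ Finset.range n, (h (a + i + 1, t) - h (a + i, t)) ^ 2 :=
    pd_tele (fun i => h (i, t)) a n
  have h2 : ∑ i ∈ Finset.range n, (h (a + i + 1, t) - h (a + i, t)) ^ 2 ≤
      ∑ x ∈ pd_box c R, (h (x.1 + 1, x.2) - h x) ^ 2 := by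
    have hinj : Set.InjOn (fun i : ℕ => ((a + i, t) : V)) (Finset.range n : Set ℕ) := by
      intro i _ j _ hij
      simp only [Prod.mk.injEq] at hij
      have := hij.1
      omega
    have h3 : ∑ i ∈ Finset.range n, (h (a + i + 1, t) - h (a + i, t)) ^ 2 =
        ∑ x ∈ (Finset.range n).image (fun i : ℕ => ((a + i, t) : V)),
          (h (x.1 + 1, x.2) - h x) ^ 2 := by
      rw [Finset.sum_image hinj]
    rw [h3]
    refine Finset.sum_le_sum_of_subset_of_nonneg ?_ fun _ _ _ => sq_nonneg _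
    intro x hx
    obtain ⟨i, hi, rfl⟩ := Finset.mem_image.1 hx
    have hi' := Finset.mem_range.1 hi
    rw [pd_mem]
    rw [pd_nd_le, abs_le, abs_le] at ha hb ⊢
    simp only at ha hb ⊢
    refine ⟨⟨?_, ?_⟩, ?_, ?_⟩
    · have := ha.1.1; omega
    · have := hb.1.2; omega
    · exact ha.2.1
    · exact ha.2.2
  have h4 : (n : ℝ) ≤ m := by
    have : (n : ℤ) ≤ m := by omega
    exact_mod_cast this
  refine h1.trans ?_
  apply mul_le_mul h4 h2 (Finset.sum_nonneg fun _ _ => sq_nonneg _)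
  exact (Nat.cast_nonneg n).trans h4

/-- a column, ordered ends -/
private theorem pd_col1 (c : V) {R m : ℤ} (h : V → ℝ) {a b t : ℤ} (hab : a ≤ b) (hm : b - a ≤ m)
    (ha : nd (t, a) c ≤ R) (hb : nd (t, b) c ≤ R) :
    (h (t, b) - h (t, a)) ^ 2 ≤ m * ∑ x ∈ pd_box c R, (h (x.1, x.2 + 1) - h x) ^ 2 := by
  obtain ⟨n, rfl⟩ : ∃ n : ℕ, b = a + n := ⟨(b - a).toNat, by omega⟩
  have h1 : (h (t, a + n) - h (t, a)) ^ 2 ≤
      n * ∑ i ∈ Finset.range n, (h (t, a + i + 1) - h (t, a + i)) ^ 2 :=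
    pd_tele (fun i => h (t, i)) a n
  have h2 : ∑ i ∈ Finset.range n, (h (t, a + i + 1) - h (t, a + i)) ^ 2 ≤
      ∑ x ∈ pd_box c R, (h (x.1, x.2 + 1) - h x) ^ 2 := by
    have hinj : Set.InjOn (fun i : ℕ => ((t, a + i) : V)) (Finset.range n : Set ℕ) := by
      intro i _ j _ hij
      simp only [Prod.mk.injEq] at hij
      have := hij.2
      omega
    have h3 : ∑ i ∈ Finset.range n, (h (t, a + i + 1) - h (t, a + i)) ^ 2 =
        ∑ x ∈ (Finset.range n).image (fun i : ℕ => ((t, a + i) : V)),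
          (h (x.1, x.2 + 1) - h x) ^ 2 := by
      rw [Finset.sum_image hinj]
    rw [h3]
    refine Finset.sum_le_sum_of_subset_of_nonneg ?_ fun _ _ _ => sq_nonneg _
    intro x hx
    obtain ⟨i, hi, rfl⟩ := Finset.mem_image.1 hx
    have hi' := Finset.mem_range.1 hi
    rw [pd_mem]
    rw [pd_nd_le, abs_le, abs_le] at ha hb ⊢
    simp only at ha hb ⊢
    refine ⟨⟨?_, ?_⟩, ?_, ?_⟩
    · exact ha.1.1
    · exact ha.1.2
    · have := ha.2.1; omega
    · have := hb.2.2; omega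
  have h4 : (n : ℝ) ≤ m := by
    have : (n : ℤ) ≤ m := by omega
    exact_mod_cast this
  refine h1.trans ?_
  apply mul_le_mul h4 h2 (Finset.sum_nonneg fun _ _ => sq_nonneg _)
  exact (Nat.cast_nonneg n).trans h4

private theorem pd_row (c : V) {R m : ℤ} (h : V → ℝ) {a b t : ℤ} (hm : |a - b| ≤ m)
    (ha : nd (a, t) c ≤ R) (hb : nd (b, t) c ≤ R) :
    (h (a, t) - h (b, t)) ^ 2 ≤ m * ∑ x ∈ pd_box c R, (h (x.1 + 1, x.2) - h x) ^ 2 := by
  rcases le_total a b with hab | hab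
  · rw [← neg_sq, neg_sub]
    exact pd_row1 c h hab (by rw [abs_le] at hm; linarith [hm.1]) ha hb
  · exact pd_row1 c h hab (by rw [abs_le] at hm; linarith [hm.2]) hb ha

private theorem pd_col (c : V) {R m : ℤ} (h : V → ℝ) {a b t : ℤ} (hm : |a - b| ≤ m)
    (ha : nd (t, a) c ≤ R) (hb : nd (t, b) c ≤ R) :
    (h (t, a) - h (t, b)) ^ 2 ≤ m * ∑ x ∈ pd_box c R, (h (x.1, x.2 + 1) - h x) ^ 2 := by
  rcases le_total a b with hab | hab
  · rw [← neg_sq, neg_sub]
    exact pd_col1 c h hab (by rw [abs_le] at hm; linarith [hm.1]) ha hb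
  · exact pd_col1 c h hab (by rw [abs_le] at hm; linarith [hm.2]) hb ha

private theorem pd_dirB (c : V) (R : ℤ) (h : V → ℝ) :
    DirB c R h = ∑ x ∈ pd_box c R, (h (x.1 + 1, x.2) - h x) ^ 2 +
      ∑ x ∈ pd_box c R, (h (x.1, x.2 + 1) - h x) ^ 2 := by
  rw [← Finset.sum_add_distrib]
  rfl

private theorem pd_dirB_nonneg (c : V) (R : ℤ) (h : V → ℝ) : 0 ≤ DirB c R h :=
  Finset.sum_nonneg fun _ _ => by positivity

theorem path_bound (c : V) {R m : ℤ} (h : V → ℝ) {x y : V} (hx : nd x c ≤ R) (hy : nd y c ≤ R)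
    (hxy : nd x y ≤ m) : (h x - h y) ^ 2 ≤ 2 * m * DirB c R h := by
  have hz : nd (y.1, x.2) c ≤ R := by
    rw [pd_nd_le] at hx hy ⊢
    exact ⟨hy.1, hx.2⟩
  have hxy' := pd_nd_le.1 hxy
  have h1 := pd_row c h (a := x.1) (b := y.1) (t := x.2) hxy'.1 hx hz
  have h2 := pd_col c h (a := x.2) (b := y.2) (t := y.1) hxy'.2 hz hy
  have e1 : ((x.1, x.2) : V) = x := rfl
  have e2 : ((y.1, y.2) : V) = y := rfl
  rw [e1] at h1
  rw [e2] at h2
  rw [pd_dirB]
  set A := ∑ x ∈ pd_box c R, (h (x.1 + 1, x.2) - h x) ^ 2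
  set B := ∑ x ∈ pd_box c R, (h (x.1, x.2 + 1) - h x) ^ 2
  have h3 : (h x - h y) ^ 2 ≤ 2 * (h x - h (y.1, x.2)) ^ 2 + 2 * (h (y.1, x.2) - h y) ^ 2 := by
    nlinarith [sq_nonneg ((h x - h (y.1, x.2)) - (h (y.1, x.2) - h y))]
  have h4 : 2 * (m : ℝ) * (A + B) = 2 * (m * A) + 2 * (m * B) := by ring
  rw [h4]
  linarith

/-- the charge distribution tested against `h - t`, when the total charge or `t` vanishes -/
private theorem pd_test {h : V → ℝ} {c : Cl} (hw : Wf Λ c) {t M : ℝ} (ht : (c.Q : ℝ) * t = 0)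
    (hM : 0 ≤ M) (hb : ∀ x ∈ c.S, (h x - t) ^ 2 ≤ M) : (ip Λ h c.R) ^ 2 ≤ c.n ^ 2 * M := by
  have h1 : ip Λ h c.R = ∑ x ∈ c.S, (c.ρ x : ℝ) * (h x - t) := by
    have e1 : ip Λ h c.R = ∑ x ∈ c.S, h x * (c.ρ x : ℝ) := by
      unfold ip Cl.R
      symm
      apply Finset.sum_subset hw.sub
      intro x _ hx
      rw [hw.off x hx]
      simp
    have e2 : ∑ x ∈ c.S, (c.ρ x : ℝ) * (h x - t) =
        ∑ x ∈ c.S, h x * (c.ρ x : ℝ) - (c.Q : ℝ) * t := by
      unfold Cl.Q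
      push_cast
      rw [Finset.sum_mul, ← Finset.sum_sub_distrib]
      refine Finset.sum_congr rfl fun x _ => by ring
    rw [e1, e2, ht, sub_zero]
  have h2 : |ip Λ h c.R| ≤ c.n * Real.sqrt M := by
    rw [h1]
    calc |∑ x ∈ c.S, (c.ρ x : ℝ) * (h x - t)| ≤ ∑ x ∈ c.S, |(c.ρ x : ℝ) * (h x - t)| :=
          Finset.abs_sum_le_sum_abs _ _
      _ ≤ ∑ x ∈ c.S, |(c.ρ x : ℝ)| * Real.sqrt M := by
          refine Finset.sum_le_sum fun x hx => ?_
          rw [abs_mul]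
          exact mul_le_mul_of_nonneg_left (Real.abs_le_sqrt (hb x hx)) (abs_nonneg _)
      _ = c.n * Real.sqrt M := by rw [Cl.n, Finset.sum_mul]
  have h3 : (ip Λ h c.R) ^ 2 ≤ (c.n * Real.sqrt M) ^ 2 := by
    rw [← sq_abs]
    exact pow_le_pow_left₀ (abs_nonneg _) h2 2
  rwa [mul_pow, Real.sq_sqrt hM] at h3

theorem rho_bound {h : V → ℝ} (hh : Off Λ h) {c : Cl} (hw : Wf Λ c) {j : ℕ} (he : Ended Λ c j)
    {x0 : V} (hx : x0 ∈ c.S) :
    (ip Λ h c.R) ^ 2 ≤ c.n ^ 2 * (18 * r j * DirB x0 (10 * r j) h) := by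
  have hr : 0 < r j := by unfold r; positivity
  have hr' : (0 : ℝ) < r j := by exact_mod_cast hr
  have hD := pd_dirB_nonneg x0 (10 * r j) h
  have h00 : nd x0 x0 ≤ 10 * r j := by
    rw [pd_nd_le]
    simp only [sub_self, abs_zero]
    constructor <;> linarith
  rcases he.2 with hQ | ⟨x1, hx1, w, hwΛ, hd⟩
  · refine pd_test hw (t := h x0) (by rw [hQ]; simp) (by positivity) fun x hxS => ?_
    have h1 := he.1 x hxS x0 hx
    have h2 := path_bound x0 (R := 10 * r j) (m := r j) h (x := x) (y := x0) (by linarith) h00 h1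
    refine h2.trans ?_
    apply mul_le_mul_of_nonneg_right _ hD
    linarith
  · refine pd_test hw (t := 0) (by simp) (by positivity) fun x hxS => ?_
    have h0 : h w = 0 := hh w hwΛ
    have h1 : nd x w ≤ 9 * r j := by
      have := pd_nd_tri (he.1 x hxS x1 hx1) hd
      linarith
    have h3 : nd w x0 ≤ 10 * r j := by
      have := pd_nd_tri (show nd w x1 ≤ 8 * r j by rwa [pd_nd_comm]) (he.1 x1 hx1 x0 hx)
      linarith
    have h4 : nd x x0 ≤ 10 * r j := by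
      have := he.1 x hxS x0 hx
      linarith
    have h2 := path_bound x0 (R := 10 * r j) (m := 9 * r j) h (x := x) (y := w) h4 h3 h1
    rw [h0] at h2
    refine h2.trans (le_of_eq ?_)
    push_cast
    ring

theorem dirB_disj {h : V → ℝ} (hh : Off Λ h) {m : ℤ} {ι : Type} (s : Finset ι) (x : ι → V)
    (hs : ∀ i ∈ s, ∀ j ∈ s, i ≠ j → 20 * m < nd (x i) (x j)) :
    ∑ i ∈ s, DirB (x i) (10 * m) h ≤ Dir h := by
  classical
  have hsum : Summable fun y : V => ((h (y.1 + 1, y.2) - h y) ^ 2 + (h (y.1, y.2 + 1) - h y) ^ 2) := by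
    refine summable_of_ne_finset_zero (s := Λ ∪ Λ.image (fun y => ((y.1 - 1, y.2) : V)) ∪
      Λ.image (fun y => ((y.1, y.2 - 1) : V))) fun y hy => ?_
    rw [Finset.mem_union, Finset.mem_union, not_or, not_or] at hy
    have h1 : h y = 0 := hh y hy.1.1
    have h2 : h (y.1 + 1, y.2) = 0 := hh _ fun h' => hy.1.2
      (Finset.mem_image.2 ⟨(y.1 + 1, y.2), h', by simp⟩)
    have h3 : h (y.1, y.2 + 1) = 0 := hh _ fun h' => hy.2
      (Finset.mem_image.2 ⟨(y.1, y.2 + 1), h', by simp⟩)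
    rw [h1, h2, h3]
    simp
  have hdisj : (s : Set ι).PairwiseDisjoint fun i => pd_box (x i) (10 * m) := by
    intro i hi j hj hij
    change Disjoint (pd_box (x i) (10 * m)) (pd_box (x j) (10 * m))
    rw [Finset.disjoint_left]
    intro y hy1 hy2
    rw [pd_mem] at hy1 hy2
    have h1 := hs i hi j hj hij
    have h2 := pd_nd_tri (show nd (x i) y ≤ 10 * m by rwa [pd_nd_comm]) hy2
    linarith
  have e : ∑ i ∈ s, DirB (x i) (10 * m) h = ∑ y ∈ s.biUnion fun i => pd_box (x i) (10 * m),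
      ((h (y.1 + 1, y.2) - h y) ^ 2 + (h (y.1, y.2 + 1) - h y) ^ 2) := by
    rw [Finset.sum_biUnion hdisj]
    rfl
  rw [e]
  exact hsum.sum_le_tsum _ fun y _ => by positivity

end Pool.Agent.LRT
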