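import Pool.Agent.LRT.Amgm
import Pool.Agent.LRT.PathD

/-!
# LR-T3-Final: all clusters frozen (0.7 h)

All `tau (js_i) < k`: `z_i ≤ exp(-n_i - fin B0 js_i)`, `fin B0 j = B0 + kap j - C1 (j/2 + 1) ≥ B0 - C1 + (kap/2) j` so `z_i ≤ 1/16` (`B0 ≥ 10^6`).
Apply `amgm`; it remains: `2 ∑ z_i (2π ip)² ≤ 3000 exp(C1 - B0) Dir h`. Choose `x_i ∈ S_i`; `rho_bound` with `j = js_i` (`js_le_iff`):
`z_i ip² ≤ n_i² exp(-n_i) exp(-fin) 18 r_j DirB(x_i, 10 r_j)`, `n² exp(-n) ≤ 1`. Group by the scale `j < k`: the centres of scale `j` are at distance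
`> 16 r (tau j) ≥ 1024 r_j > 20 r_j` (`sepB`), so `∑_{js_i = j} DirB ≤ Dir h` (`dirB_disj`). Total
`≤ 8 π² * 18 * (∑_{j<k} 64^j exp(-(kap/2) j)) exp(C1 - B0) Dir h ≤ 144 π² * 2 * exp(C1 - B0) Dir h`, and `288 π² ≤ 2850` (`π < 3.1416`);
`64^j exp(-(kap/2) j) ≤ 2^{-j}` (`kap/2 = 80000`). Then `exp(-3000...) ≤ exp(-2 ∑)`, `J G 0 s c ≥ 0`.
-/

set_option autoImplicit false

noncomputable section

open scoped BigOperators
open MeasureTheory

namespace Pool.Agent.LRT

variable {Λ : Finset V} {β : ℝ}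

private lemma fg_fin_ge (B0 : ℝ) (j : ℕ) : B0 - C1 + 80000 * j ≤ fin B0 j := by
  unfold fin kap C1 tau
  have h1 : j + j / 2 + 1 - j = j / 2 + 1 := by omega
  rw [h1]
  have h2 : ((j / 2 : ℕ) : ℝ) ≤ (j : ℝ) / 2 := Nat.cast_div_le
  have h3 : (0 : ℝ) ≤ (j : ℝ) := Nat.cast_nonneg j
  push_cast
  nlinarith

private lemma fg_sq_exp {n : ℝ} (hn : 0 ≤ n) : n ^ 2 * Real.exp (-n) ≤ 1 := by
  have h1 := Real.quadratic_le_exp_of_nonneg (by linarith : (0 : ℝ) ≤ n / 2)
  have h2 : n ≤ Real.exp (n / 2) := by nlinarith [sq_nonneg (n - 2)]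
  have h3 : n ^ 2 ≤ Real.exp n := by
    have h4 : Real.exp n = Real.exp (n / 2) * Real.exp (n / 2) := by
      rw [← Real.exp_add]
      congr 1
      ring
    rw [h4, sq]
    exact mul_le_mul h2 h2 hn (Real.exp_pos _).le
  rw [Real.exp_neg, ← div_eq_mul_inv, div_le_one (Real.exp_pos _)]
  exact h3

private lemma fg_scale (j : ℕ) : Real.exp (-(80000 * (j : ℝ))) * (64 : ℝ) ^ j ≤ (1 / 2) ^ j := by
  have h1 : Real.exp (-(80000 * (j : ℝ))) = (Real.exp (-80000)) ^ j := by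
    rw [← Real.exp_nat_mul]
    congr 1
    ring
  rw [h1, ← mul_pow]
  apply pow_le_pow_left₀ (by positivity)
  have h2 : (80000 : ℝ) + 1 ≤ Real.exp 80000 := Real.add_one_le_exp _
  rw [Real.exp_neg]
  rw [inv_mul_le_iff₀ (Real.exp_pos _)]
  linarith

theorem frozen_good (G : GField Λ β) {h : V → ℝ} (hh : Off Λ h) {B0 : ℝ} (hB : 1000000 ≤ B0)
    {k : ℕ} {ι : Type} {s : Finset ι} {c : ι → Cl} (hp : Pre Λ B0 k s c)
    (hf : ∀ i ∈ s, tau (js Λ (c i)) < k) :
    Good G h (Real.exp (-(3000 * Real.exp (C1 - B0) * Dir h))) s c := by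
  classical
  have hn : ∀ i, 0 ≤ (c i).n := fun i => Finset.sum_nonneg fun x _ => abs_nonneg _
  have hC1 : C1 = 40000 := rfl
  -- the activities
  have hzb : ∀ i ∈ s, (c i).z ≤ Real.exp (-(c i).n) * (Real.exp (C1 - B0) *
      Real.exp (-(80000 * (js Λ (c i) : ℝ)))) := by
    intro i hi
    refine (hp.bdB i hi (hf i hi)).trans ?_
    rw [← Real.exp_add, ← Real.exp_add]
    apply Real.exp_le_exp.mpr
    have := fg_fin_ge B0 (js Λ (c i))
    linarith
  have hz : ∀ i ∈ s, 0 ≤ (c i).z ∧ (c i).z ≤ 1 / 16 := by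
    intro i hi
    refine ⟨(hp.wf i hi).pos, (hzb i hi).trans ?_⟩
    have h1 : Real.exp (-(c i).n) ≤ 1 := Real.exp_le_one_iff.mpr (by linarith [hn i])
    have h2 : Real.exp (-(80000 * (js Λ (c i) : ℝ))) ≤ 1 :=
      Real.exp_le_one_iff.mpr (by
        have : (0 : ℝ) ≤ (js Λ (c i) : ℝ) := Nat.cast_nonneg _
        linarith)
    have h3 : Real.exp (C1 - B0) ≤ 1 / 16 := by
      have h4 : Real.exp (C1 - B0) ≤ Real.exp (-16) := Real.exp_le_exp.mpr (by rw [hC1]; linarith)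
      refine h4.trans ?_
      rw [Real.exp_neg]
      rw [inv_le_comm₀ (Real.exp_pos _) (by norm_num)]
      have : (16 : ℝ) + 1 ≤ Real.exp 16 := Real.add_one_le_exp _
      linarith
    have h5 : Real.exp (C1 - B0) * Real.exp (-(80000 * (js Λ (c i) : ℝ))) ≤ 1 / 16 * 1 :=
      mul_le_mul h3 h2 (Real.exp_pos _).le (by norm_num)
    have h6 : Real.exp (-(c i).n) * (Real.exp (C1 - B0) *
      Real.exp (-(80000 * (js Λ (c i) : ℝ)))) ≤ 1 * (1 / 16 * 1) :=
      mul_le_mul h1 h5 (by positivity) (by norm_num)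
    linarith
  have hJ0 : 0 ≤ J G 0 s c := by
    unfold J
    apply integral_nonneg
    intro ω
    apply Finset.prod_nonneg
    intro i hi
    unfold fac
    have h1 := hz i hi
    have h2 := Real.neg_one_le_cos (2 * Real.pi * (ip Λ 0 (c i).R + ip Λ (G.φ ω) (c i).v))
    nlinarith [h1.1, h1.2]
  have hDir0 : 0 ≤ Dir h := tsum_nonneg fun x => by positivity
  have hDB0 : ∀ (x : V) (R : ℤ), 0 ≤ DirB x R h := fun x R =>
    Finset.sum_nonneg fun y _ => by positivity
  -- choice of base points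
  have hex : ∀ i, ∃ x : V, i ∈ s → x ∈ (c i).S := by
    intro i
    by_cases hi : i ∈ s
    · obtain ⟨x, hx⟩ := (hp.wf i hi).ne
      exact ⟨x, fun _ => hx⟩
    · exact ⟨(0, 0), fun h' => absurd h' hi⟩
  choose x0 hx0 using hex
  -- single cluster bound
  have hone : ∀ i ∈ s, (c i).z * (2 * Real.pi * ip Λ h (c i).R) ^ 2 ≤
      72 * Real.pi ^ 2 * Real.exp (C1 - B0) *
        ((1 / 2) ^ (js Λ (c i)) * DirB (x0 i) (10 * r (js Λ (c i))) h) := by
    intro i hi
    have hend : Ended Λ (c i) (js Λ (c i)) := (js_le_iff (hp.wf i hi).ne _).1 le_rfl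
    have h1 := rho_bound hh (hp.wf i hi) hend (hx0 i hi)
    have hr : ((r (js Λ (c i)) : ℤ) : ℝ) = (64 : ℝ) ^ (js Λ (c i)) := by
      unfold r
      push_cast
      ring
    rw [hr] at h1
    have hD := hDB0 (x0 i) (10 * r (js Λ (c i)))
    calc (c i).z * (2 * Real.pi * ip Λ h (c i).R) ^ 2
        = 4 * Real.pi ^ 2 * ((c i).z * (ip Λ h (c i).R) ^ 2) := by ring
      _ ≤ 4 * Real.pi ^ 2 * ((Real.exp (-(c i).n) * (Real.exp (C1 - B0) *
            Real.exp (-(80000 * (js Λ (c i) : ℝ))))) *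
          ((c i).n ^ 2 * (18 * (64 : ℝ) ^ (js Λ (c i)) *
            DirB (x0 i) (10 * r (js Λ (c i))) h))) := by
          apply mul_le_mul_of_nonneg_left _ (by positivity)
          exact mul_le_mul (hzb i hi) h1 (sq_nonneg _) (by positivity)
      _ = 72 * Real.pi ^ 2 * Real.exp (C1 - B0) * (((c i).n ^ 2 * Real.exp (-(c i).n)) *
          ((Real.exp (-(80000 * (js Λ (c i) : ℝ))) * (64 : ℝ) ^ (js Λ (c i))) *
            DirB (x0 i) (10 * r (js Λ (c i))) h)) := by ring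
      _ ≤ 72 * Real.pi ^ 2 * Real.exp (C1 - B0) * (1 *
          ((1 / 2) ^ (js Λ (c i)) * DirB (x0 i) (10 * r (js Λ (c i))) h)) := by
          apply mul_le_mul_of_nonneg_left _ (by positivity)
          apply mul_le_mul (fg_sq_exp (hn i)) _ (by positivity) (by norm_num)
          exact mul_le_mul_of_nonneg_right (fg_scale _) hD
      _ = _ := by ring
  -- sum over the clusters
  have hsum : ∑ i ∈ s, ((1 / 2 : ℝ) ^ (js Λ (c i)) * DirB (x0 i) (10 * r (js Λ (c i))) h) ≤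
      2 * Dir h := by
    have hmaps : ∀ i ∈ s, js Λ (c i) ∈ Finset.range k := by
      intro i hi
      rw [Finset.mem_range]
      have := hf i hi
      unfold tau at this
      omega
    rw [← Finset.sum_fiberwise_of_maps_to hmaps]
    have hlev : ∀ j ∈ Finset.range k, ∑ i ∈ s with js Λ (c i) = j,
        ((1 / 2 : ℝ) ^ (js Λ (c i)) * DirB (x0 i) (10 * r (js Λ (c i))) h) ≤
        (1 / 2 : ℝ) ^ j * Dir h := by
      intro j _
      have h1 : ∑ i ∈ s with js Λ (c i) = j,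
          ((1 / 2 : ℝ) ^ (js Λ (c i)) * DirB (x0 i) (10 * r (js Λ (c i))) h) =
          (1 / 2 : ℝ) ^ j * ∑ i ∈ s with js Λ (c i) = j, DirB (x0 i) (10 * r j) h := by
        rw [Finset.mul_sum]
        refine Finset.sum_congr rfl fun i hi => ?_
        rw [(Finset.mem_filter.1 hi).2]
      rw [h1]
      apply mul_le_mul_of_nonneg_left _ (by positivity)
      apply dirB_disj hh
      intro i hi i' hi' hne
      obtain ⟨his, hij⟩ := Finset.mem_filter.1 hi
      obtain ⟨his', hij'⟩ := Finset.mem_filter.1 hi'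
      have h2 := hp.sepB i his i' his' hne (hij.trans hij'.symm) (hf i his) (x0 i) (hx0 i his)
        (x0 i') (hx0 i' his')
      refine lt_of_le_of_lt ?_ h2
      rw [hij]
      unfold r tau
      have h3 : (64 : ℤ) ^ (j + 1) ≤ 64 ^ (j + j / 2 + 1) :=
        pow_le_pow_right₀ (by norm_num) (by omega)
      rw [pow_succ] at h3
      have h4 : (0 : ℤ) < 64 ^ j := by positivity
      nlinarith
    refine (Finset.sum_le_sum hlev).trans ?_
    rw [← Finset.sum_mul]
    exact mul_le_mul_of_nonneg_right (sum_geometric_two_le k) hDir0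
  have htot : 2 * ∑ i ∈ s, (c i).z * (2 * Real.pi * ip Λ h (c i).R) ^ 2 ≤
      3000 * Real.exp (C1 - B0) * Dir h := by
    have h1 := Finset.sum_le_sum hone
    rw [← Finset.mul_sum] at h1
    have hpi : Real.pi ^ 2 ≤ 10 := by
      have := Real.pi_lt_d2
      have := Real.pi_pos
      nlinarith
    have hE := Real.exp_pos (C1 - B0)
    have h2 : 72 * Real.pi ^ 2 * Real.exp (C1 - B0) *
        ∑ i ∈ s, ((1 / 2 : ℝ) ^ (js Λ (c i)) * DirB (x0 i) (10 * r (js Λ (c i))) h) ≤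
        72 * Real.pi ^ 2 * Real.exp (C1 - B0) * (2 * Dir h) :=
      mul_le_mul_of_nonneg_left hsum (by positivity)
    have h3 : 72 * Real.pi ^ 2 * Real.exp (C1 - B0) * (2 * Dir h) ≤
        72 * 10 * Real.exp (C1 - B0) * (2 * Dir h) := by
      apply mul_le_mul_of_nonneg_right _ (by positivity)
      apply mul_le_mul_of_nonneg_right _ hE.le
      linarith
    have h4 : 0 ≤ Real.exp (C1 - B0) * Dir h := by positivity
    nlinarith
  unfold Good
  refine le_trans ?_ (amgm G h s c hz)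
  apply mul_le_mul_of_nonneg_right _ hJ0
  apply Real.exp_le_exp.mpr
  linarith

end Pool.Agent.LRT
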