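import Pool.Agent.LRT.Energy

/-!
# LR-T3-GausB: spectral decomposition of the Dirichlet Laplacian (0.6 h)

`EuclideanSpace ℝ Λ` (index type the subtype), operator `f ↦ (Lap (extension by 0 of f)) restricted to Λ`; symmetric by `lap_symm`,
`LinearMap.IsSymmetric.eigenvectorBasis` with `n = finrank = Λ.card`. `e a` = extension by `0` of the `a`-th eigenvector, `l a` its
eigenvalue. `l a = ip Λ (e a) (Lap (e a)) = Dir (e a)` (`dir_eq`), positive by `dir_pos` (`e a ≠ 0`), `≤ 8` by `dir_le`.
Parseval: `OrthonormalBasis.sum_inner_mul_inner`. (Alternatively use `Matrix.IsHermitian` for the matrix of `Lap`.)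
-/

set_option autoImplicit false

noncomputable section

open scoped BigOperators
open MeasureTheory ProbabilityTheory

namespace Pool.Agent.LRT

/-- extension by zero -/
def exE {Λ : Finset V} (f : EuclideanSpace ℝ Λ) : V → ℝ :=
  fun x => if h : x ∈ Λ then f ⟨x, h⟩ else 0

theorem exE_off {Λ : Finset V} (f : EuclideanSpace ℝ Λ) : Off Λ (exE f) := by
  intro x hx
  simp [exE, hx]

theorem exE_mem {Λ : Finset V} (f : EuclideanSpace ℝ Λ) (x : Λ) : exE f x.1 = f x := by
  simp [exE]

theorem exE_add {Λ : Finset V} (f g : EuclideanSpace ℝ Λ) (x : V) :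
    exE (f + g) x = exE f x + exE g x := by
  unfold exE
  by_cases h : x ∈ Λ <;> simp [h]

theorem exE_smul {Λ : Finset V} (a : ℝ) (f : EuclideanSpace ℝ Λ) (x : V) :
    exE (a • f) x = a * exE f x := by
  unfold exE
  by_cases h : x ∈ Λ <;> simp [h]

/-- restriction -/
def reE (Λ : Finset V) (f : V → ℝ) : EuclideanSpace ℝ Λ := WithLp.toLp 2 (fun x : Λ => f x.1)

theorem reE_apply (Λ : Finset V) (f : V → ℝ) (x : Λ) : reE Λ f x = f x.1 := rfl

theorem inner_ip (Λ : Finset V) (F G : EuclideanSpace ℝ Λ) (f g : V → ℝ)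
    (hF : ∀ x : Λ, F x = f x.1) (hG : ∀ x : Λ, G x = g x.1) :
    inner ℝ F G = ip Λ f g := by
  rw [PiLp.inner_apply]
  unfold ip
  rw [← Finset.sum_coe_sort Λ]
  refine Finset.sum_congr rfl fun x _ => ?_
  rw [hF, hG]
  simp [mul_comm]

/-- the Dirichlet Laplacian as an operator -/
def opT (Λ : Finset V) : EuclideanSpace ℝ Λ →ₗ[ℝ] EuclideanSpace ℝ Λ where
  toFun f := reE Λ (Lap (exE f))
  map_add' f g := by
    ext x
    change Lap (exE (f + g)) x.1 = Lap (exE f) x.1 + Lap (exE g) x.1
    unfold Lap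
    simp only [exE_add]
    ring
  map_smul' a f := by
    ext x
    change Lap (exE (a • f)) x.1 = a * Lap (exE f) x.1
    unfold Lap
    simp only [exE_smul]
    ring

theorem opT_symm (Λ : Finset V) : (opT Λ).IsSymmetric := by
  intro f g
  rw [inner_ip Λ (opT Λ f) g (Lap (exE f)) (exE g) (fun x => rfl) (fun x => (exE_mem g x).symm),
    inner_ip Λ f (opT Λ g) (exE f) (Lap (exE g)) (fun x => (exE_mem f x).symm) (fun x => rfl)]
  exact (lap_symm (exE_off f) (exE_off g)).symm

/-- spectral decomposition of the Dirichlet Laplacian -/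
theorem spectral (Λ : Finset V) : ∃ (n : ℕ) (e : Fin n → V → ℝ) (l : Fin n → ℝ),
    (∀ a, Off Λ (e a)) ∧ (∀ a b, ip Λ (e a) (e b) = if a = b then 1 else 0) ∧
    (∀ f g : V → ℝ, ip Λ f g = ∑ a, ip Λ (e a) f * ip Λ (e a) g) ∧
    (∀ a, 0 < l a ∧ l a ≤ 8) ∧ (∀ a, ∀ x ∈ Λ, Lap (e a) x = l a * e a x) := by
  have hT := opT_symm Λ
  set b := hT.eigenvectorBasis (rfl : Module.finrank ℝ (EuclideanSpace ℝ Λ) = _) with hb
  set l := hT.eigenvalues (rfl : Module.finrank ℝ (EuclideanSpace ℝ Λ) = _) with hl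
  have horth : ∀ a c, ip Λ (exE (b a)) (exE (b c)) = if a = c then 1 else 0 := by
    intro a c
    rw [← inner_ip Λ (b a) (b c) _ _ (fun x => (exE_mem (b a) x).symm)
      (fun x => (exE_mem (b c) x).symm)]
    exact (orthonormal_iff_ite.mp b.orthonormal) a c
  have heig : ∀ a, ∀ x ∈ Λ, Lap (exE (b a)) x = l a * exE (b a) x := by
    intro a x hx
    have h1 : opT Λ (b a) = l a • b a :=
      hT.apply_eigenvectorBasis (rfl : Module.finrank ℝ (EuclideanSpace ℝ Λ) = _) a
    have h2 := congrArg (fun F : EuclideanSpace ℝ Λ => F ⟨x, hx⟩) h1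
    have h3 : (l a • b a) ⟨x, hx⟩ = l a * exE (b a) x := by
      have h4 : exE (b a) x = (b a) ⟨x, hx⟩ := exE_mem (b a) ⟨x, hx⟩
      rw [h4]
      rfl
    exact h2.trans h3
  refine ⟨_, fun a => exE (b a), l, fun a => exE_off _, horth, ?_, ?_, heig⟩
  · intro f g
    rw [← inner_ip Λ (reE Λ f) (reE Λ g) f g (fun x => rfl) (fun x => rfl),
      ← b.sum_inner_mul_inner (reE Λ f) (reE Λ g)]
    refine Finset.sum_congr rfl fun a _ => ?_
    rw [real_inner_comm (b a) (reE Λ f),
      inner_ip Λ (b a) (reE Λ f) (exE (b a)) f (fun x => (exE_mem (b a) x).symm) (fun x => rfl),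
      inner_ip Λ (b a) (reE Λ g) (exE (b a)) g (fun x => (exE_mem (b a) x).symm) (fun x => rfl)]
  · intro a
    have h1 : Dir (exE (b a)) = l a := by
      rw [dir_eq (exE_off (b a))]
      have : ip Λ (exE (b a)) (Lap (exE (b a))) = l a * ip Λ (exE (b a)) (exE (b a)) := by
        unfold ip
        rw [Finset.mul_sum]
        refine Finset.sum_congr rfl fun x hx => ?_
        rw [heig a x hx]
        ring
      rw [this, horth a a, if_pos rfl, mul_one]
    have h2 : ∑ x ∈ Λ, exE (b a) x ^ 2 = 1 := by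
      have := horth a a
      rw [if_pos rfl] at this
      rw [← this]
      unfold ip
      exact Finset.sum_congr rfl fun x _ => by ring
    constructor
    · rw [← h1]
      refine dir_pos (exE_off (b a)) ?_
      intro h0
      rw [h0] at h2
      simp at h2
    · rw [← h1]
      have := dir_le (exE_off (b a))
      rw [h2] at this
      linarith

end Pool.Agent.LRT
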