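import Pool.Agent.LRT.GausA
import Pool.Agent.LRT.GausB

/-!
# LR-T3-Gaus: existence of the Gaussian field (0.9 h; from `mix_one`, `spectral`)

PLAN. `n = Λ.card`. The symmetric operator `A = Lap` (Dirichlet) on `EuclideanSpace ℝ Λ` (`ip Λ f (Lap g)` symmetric, `lap_symm`) satisfies
`0 < ⟨f, A f⟩ = Dir f ≤ 8 |f|²` (`dir_pos`, `dir_le`). Spectral theorem (`LinearMap.IsSymmetric.eigenvectorBasis` or
`Matrix.IsHermitian.spectral_theorem`): orthonormal basis `e_a` (`a : Fin n`), eigenvalues `0 < l_a ≤ 8`.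
`Ω = Fin n → ℝ` (or `Λ → ℝ`), `μ = Measure.pi (fun _ => gaussianReal 0 1)`, `η_a = sqrt ((1/l_a - 1/8)/β)`,
`φ ω x = ∑_a ω_a η_a e_a x` (extended by zero off `Λ`), `B v w = ∑_a (1/l_a - 1/8) (ip Λ e_a v) (ip Λ e_a w)`.
* `char`: `ip Λ (φ ω) v = ∑_a ω_a η_a ip(e_a, v)`; `∫ exp(i ∑ t_a ω_a) = ∏ exp(-t_a²/2)` (`integral_fintype_prod_eq_prod`,
  `ProbabilityTheory.charFun_gaussianReal`).
* `lap`: `ip(e_a, Lap u) = l_a ip(e_a, u)` (symmetry), so `B (Lap u) w = ∑ (1 - l_a/8) ip(e_a,u) ip(e_a,w) = ip u w - (1/8) ip (Lap u) w` (Parseval).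
* `neg`: `ω ↦ -ω` preserves `μ` (`gaussianReal_map_neg`, `measurePreserving_pi`), `MeasurePreserving.integral_comp'` with
  `MeasurableEquiv.neg`.
* `mix`: with `y_a = ip(e_a, y)`: `Dir y = ∑ l_a y_a²`, `∑_Λ (y x - φ x)² = ∑_a (y_a - η_a ω_a)²` (Parseval), and in one dimension
  `∫ exp(-4β (t - η s)²) dγ(s) = c exp(-t²/(2 (1/(8β) + η²))) = c exp(-(β/2) l t²)` with `1/(8β) + η² = 1/(β l)`
  (`gaussianReal` density, complete the square, `integral_gaussian`).
-/

set_option autoImplicit false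

noncomputable section

open scoped BigOperators
open MeasureTheory ProbabilityTheory

namespace Pool.Agent.LRT

private theorem ip_sum_right (Λ : Finset V) (f : V → ℝ) {κ : Type} (t : Finset κ) (a : κ → ℝ)
    (v : κ → V → ℝ) : ip Λ f (fun x => ∑ i ∈ t, a i * v i x) = ∑ i ∈ t, a i * ip Λ f (v i) := by
  unfold ip
  simp only [Finset.mul_sum]
  rw [Finset.sum_comm]
  refine Finset.sum_congr rfl (fun i _ => Finset.sum_congr rfl (fun x _ => ?_))
  ring

private theorem ip_comm (Λ : Finset V) (f g : V → ℝ) : ip Λ f g = ip Λ g f := by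
  unfold ip
  exact Finset.sum_congr rfl (fun x _ => mul_comm _ _)

private theorem ip_add_right (Λ : Finset V) (f g h : V → ℝ) :
    ip Λ f (g + h) = ip Λ f g + ip Λ f h := by
  unfold ip
  rw [← Finset.sum_add_distrib]
  exact Finset.sum_congr rfl (fun x _ => by rw [Pi.add_apply, mul_add])

private theorem ip_smul_right (Λ : Finset V) (f g : V → ℝ) (c : ℝ) :
    ip Λ f (c • g) = c * ip Λ f g := by
  unfold ip
  rw [Finset.mul_sum]
  exact Finset.sum_congr rfl (fun x _ => by rw [Pi.smul_apply, smul_eq_mul]; ring)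

/-- the diagonal form -/
private def form (Λ : Finset V) {n : ℕ} (e : Fin n → V → ℝ) (c : Fin n → ℝ) :
    (V → ℝ) →ₗ[ℝ] (V → ℝ) →ₗ[ℝ] ℝ :=
  LinearMap.mk₂ ℝ (fun v w => ∑ a, c a * (ip Λ (e a) v * ip Λ (e a) w))
    (by
      intro u v w
      rw [← Finset.sum_add_distrib]
      refine Finset.sum_congr rfl (fun a _ => ?_)
      rw [ip_add_right]; ring)
    (by
      intro t v w
      rw [smul_eq_mul, Finset.mul_sum]
      refine Finset.sum_congr rfl (fun a _ => ?_)
      rw [ip_smul_right]; ring)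
    (by
      intro u v w
      rw [← Finset.sum_add_distrib]
      refine Finset.sum_congr rfl (fun a _ => ?_)
      rw [ip_add_right]; ring)
    (by
      intro t v w
      rw [smul_eq_mul, Finset.mul_sum]
      refine Finset.sum_congr rfl (fun a _ => ?_)
      rw [ip_smul_right]; ring)

private theorem form_apply (Λ : Finset V) {n : ℕ} (e : Fin n → V → ℝ) (c : Fin n → ℝ)
    (v w : V → ℝ) : form Λ e c v w = ∑ a, c a * (ip Λ (e a) v * ip Λ (e a) w) := rfl

/-- the law of independent standard Gaussian variables -/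
private def gm (n : ℕ) : Measure (Fin n → ℝ) := Measure.pi (fun _ => gaussianReal 0 1)

private theorem gm_prob (n : ℕ) : IsProbabilityMeasure (gm n) := by
  unfold gm
  infer_instance

private theorem gm_prodC (n : ℕ) (f : Fin n → ℝ → ℂ) :
    ∫ ω, ∏ a, f a (ω a) ∂(gm n) = ∏ a, ∫ s, f a s ∂(gaussianReal 0 1) :=
  integral_fintype_prod_eq_prod f

private theorem gm_prodR (n : ℕ) (f : Fin n → ℝ → ℝ) :
    ∫ ω, ∏ a, f a (ω a) ∂(gm n) = ∏ a, ∫ s, f a s ∂(gaussianReal 0 1) :=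
  integral_fintype_prod_eq_prod f

private theorem gm_char (n : ℕ) (t : Fin n → ℝ) :
    ∫ ω, Complex.exp (2 * Real.pi * Complex.I * ((∑ a, ω a * t a : ℝ) : ℂ)) ∂(gm n) =
      Complex.exp ((-(2 * Real.pi ^ 2 * ∑ a, t a ^ 2) : ℝ) : ℂ) := by
  have e1 : ∀ ω : Fin n → ℝ, Complex.exp (2 * Real.pi * Complex.I * ((∑ a, ω a * t a : ℝ) : ℂ)) =
      ∏ a, (fun (a : Fin n) (s : ℝ) =>
        Complex.exp (((2 * Real.pi * t a : ℝ) : ℂ) * s * Complex.I)) a (ω a) := by
    intro ω
    show _ = ∏ a, Complex.exp (((2 * Real.pi * t a : ℝ) : ℂ) * (ω a : ℂ) * Complex.I)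
    rw [← Complex.exp_sum]
    refine congrArg _ ?_
    push_cast
    rw [Finset.mul_sum]
    refine Finset.sum_congr rfl (fun a _ => ?_)
    ring
  refine (integral_congr_ae (Filter.Eventually.of_forall e1)).trans
    ((gm_prodC n (fun (a : Fin n) (s : ℝ) =>
        Complex.exp (((2 * Real.pi * t a : ℝ) : ℂ) * s * Complex.I))).trans ?_)
  have e2 : ∀ a : Fin n, ∫ s, Complex.exp (((2 * Real.pi * t a : ℝ) : ℂ) * s * Complex.I)
      ∂(gaussianReal 0 1) = Complex.exp ((-(2 * Real.pi ^ 2 * t a ^ 2) : ℝ) : ℂ) := by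
    intro a
    rw [← charFun_apply_real, charFun_gaussianReal]
    refine congrArg _ ?_
    push_cast
    ring
  rw [Finset.prod_congr rfl (fun a _ => e2 a), ← Complex.exp_sum, ← Complex.ofReal_sum,
    Finset.sum_neg_distrib, Finset.mul_sum]

private theorem gm_neg (n : ℕ) (F : (Fin n → ℝ) → ℝ) :
    ∫ ω, F (fun a => -(ω a)) ∂(gm n) = ∫ ω, F ω ∂(gm n) := by
  have h1 : MeasurePreserving (fun x : ℝ => -x) (gaussianReal 0 1) (gaussianReal 0 1) := by
    refine ⟨measurable_neg, ?_⟩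
    rw [gaussianReal_map_neg, neg_zero]
  have h2 : MeasurePreserving (fun (ω : Fin n → ℝ) a => -(ω a)) (gm n) (gm n) :=
    measurePreserving_pi (fun _ => gaussianReal 0 1) (fun _ => gaussianReal 0 1) (fun _ => h1)
  exact MeasurePreserving.integral_comp' (f := MeasurableEquiv.neg (Fin n → ℝ)) h2 F

theorem gfield_exists (Λ : Finset V) {β : ℝ} (hβ : 0 < β) : Nonempty (GField Λ β) := by
  obtain ⟨n, e, l, hoff, horth, hpars, hl, hlap⟩ := spectral Λ
  have hc : ∀ a, 0 ≤ 1 / l a - 1 / 8 := by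
    intro a
    have h1 : (1 : ℝ) / 8 ≤ 1 / l a := one_div_le_one_div_of_le (hl a).1 (hl a).2
    linarith
  have hη : ∀ a, Real.sqrt ((1 / l a - 1 / 8) / β) ^ 2 = (1 / l a - 1 / 8) / β :=
    fun a => Real.sq_sqrt (div_nonneg (hc a) hβ.le)
  have hsum : ∀ (ω : Fin n → ℝ) (v : V → ℝ),
      ip Λ (fun x => ∑ a, (ω a * Real.sqrt ((1 / l a - 1 / 8) / β)) * e a x) v =
        ∑ a, ω a * (Real.sqrt ((1 / l a - 1 / 8) / β) * ip Λ (e a) v) := by
    intro ω v
    rw [ip_comm, ip_sum_right]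
    refine Finset.sum_congr rfl (fun a _ => ?_)
    rw [ip_comm Λ v (e a)]
    ring
  have hcoef : ∀ (ω : Fin n → ℝ) (a : Fin n),
      ip Λ (e a) (fun x => ∑ b, (ω b * Real.sqrt ((1 / l b - 1 / 8) / β)) * e b x) =
        ω a * Real.sqrt ((1 / l a - 1 / 8) / β) := by
    intro ω a
    rw [ip_sum_right]
    have h1 : ∀ b : Fin n, (ω b * Real.sqrt ((1 / l b - 1 / 8) / β)) * ip Λ (e a) (e b) =
        if a = b then ω b * Real.sqrt ((1 / l b - 1 / 8) / β) else 0 := by
      intro b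
      rw [horth]
      by_cases hab : a = b
      · rw [if_pos hab, if_pos hab, mul_one]
      · rw [if_neg hab, if_neg hab, mul_zero]
    rw [Finset.sum_congr rfl (fun b _ => h1 b), Finset.sum_ite_eq Finset.univ a,
      if_pos (Finset.mem_univ a)]
  have hLap : ∀ (u : V → ℝ), Off Λ u → ∀ a, ip Λ (e a) (Lap u) = l a * ip Λ (e a) u := by
    intro u hu a
    rw [lap_symm (hoff a) hu]
    unfold ip
    rw [Finset.mul_sum]
    refine Finset.sum_congr rfl (fun x hx => ?_)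
    rw [hlap a x hx]
    ring
  refine ⟨{
    Ω := Fin n → ℝ
    ms := inferInstance
    μ := gm n
    pr := gm_prob n
    φ := fun ω x => ∑ a, (ω a * Real.sqrt ((1 / l a - 1 / 8) / β)) * e a x
    meas := ?_
    B := form Λ e (fun a => 1 / l a - 1 / 8)
    symm := ?_
    char := ?_
    lap := ?_
    neg := ?_
    mix := ?_ }⟩
  · intro x
    exact Finset.measurable_sum _ (fun a _ => ((measurable_pi_apply a).mul_const _).mul_const _)
  · intro v w
    rw [form_apply, form_apply]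
    exact Finset.sum_congr rfl (fun a _ => by ring)
  · intro v
    have e1 : ∀ ω : Fin n → ℝ, Complex.exp (2 * Real.pi * Complex.I *
        (ip Λ (fun x => ∑ a, (ω a * Real.sqrt ((1 / l a - 1 / 8) / β)) * e a x) v : ℝ)) =
        Complex.exp (2 * Real.pi * Complex.I *
        ((∑ a, ω a * (Real.sqrt ((1 / l a - 1 / 8) / β) * ip Λ (e a) v) : ℝ) : ℂ)) := by
      intro ω
      rw [hsum]
    rw [integral_congr_ae (Filter.Eventually.of_forall e1), gm_char, ← Complex.ofReal_neg]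
    refine congrArg (fun z : ℝ => Complex.exp ((z : ℝ) : ℂ)) ?_
    rw [form_apply, neg_inj, Finset.mul_sum, Finset.mul_sum]
    refine Finset.sum_congr rfl (fun a _ => ?_)
    rw [mul_pow, hη a]
    field_simp
  · intro u hu w
    rw [form_apply, hpars u w, hpars (Lap u) w, Finset.mul_sum, ← Finset.sum_sub_distrib]
    refine Finset.sum_congr rfl (fun a _ => ?_)
    rw [hLap u hu a]
    have h1 := (hl a).1.ne'
    field_simp
  · intro F
    have e1 := gm_neg n (fun ω => F (fun x => ∑ a, (ω a * Real.sqrt ((1 / l a - 1 / 8) / β)) * e a x))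
    rw [← e1]
    refine integral_congr_ae (Filter.Eventually.of_forall (fun ω => ?_))
    show F _ = F _
    refine congrArg F ?_
    funext x
    rw [← Finset.sum_neg_distrib]
    exact Finset.sum_congr rfl (fun a _ => by ring)
  · have hm := fun a => mix_one hβ (hl a).1 (hl a).2
    choose c hc0 hcm using hm
    refine ⟨∏ a, c a, Finset.prod_pos (fun a _ => hc0 a), ?_⟩
    intro y hy
    have e1 : Dir y = ∑ a, l a * (ip Λ (e a) y) ^ 2 := by
      rw [dir_eq hy, hpars y (Lap y)]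
      refine Finset.sum_congr rfl (fun a _ => ?_)
      rw [hLap y hy a]
      ring
    have e2 : ∀ ω : Fin n → ℝ, (∑ x ∈ Λ,
        (y x - ∑ a, (ω a * Real.sqrt ((1 / l a - 1 / 8) / β)) * e a x) ^ 2) =
        ∑ a, (ip Λ (e a) y - Real.sqrt ((1 / l a - 1 / 8) / β) * ω a) ^ 2 := by
      intro ω
      have e3 : (∑ x ∈ Λ, (y x - ∑ a, (ω a * Real.sqrt ((1 / l a - 1 / 8) / β)) * e a x) ^ 2) =
          ip Λ (y + (-1 : ℝ) • (fun x => ∑ a, (ω a * Real.sqrt ((1 / l a - 1 / 8) / β)) * e a x))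
            (y + (-1 : ℝ) • (fun x => ∑ a, (ω a * Real.sqrt ((1 / l a - 1 / 8) / β)) * e a x)) := by
        unfold ip
        refine Finset.sum_congr rfl (fun x _ => ?_)
        rw [Pi.add_apply, Pi.smul_apply, smul_eq_mul]
        ring
      rw [e3, hpars]
      refine Finset.sum_congr rfl (fun a _ => ?_)
      rw [ip_add_right, ip_smul_right, hcoef]
      ring
    have e4 : ∀ ω : Fin n → ℝ, Real.exp (-(4 * β) * ∑ x ∈ Λ,
        (y x - ∑ a, (ω a * Real.sqrt ((1 / l a - 1 / 8) / β)) * e a x) ^ 2) =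
        ∏ a, (fun (a : Fin n) (s : ℝ) => Real.exp (-(4 * β) *
          (ip Λ (e a) y - Real.sqrt ((1 / l a - 1 / 8) / β) * s) ^ 2)) a (ω a) := by
      intro ω
      show _ = ∏ a, Real.exp (-(4 * β) *
          (ip Λ (e a) y - Real.sqrt ((1 / l a - 1 / 8) / β) * ω a) ^ 2)
      rw [e2, ← Real.exp_sum, Finset.mul_sum]
    have e5 : (∫ ω : Fin n → ℝ, Real.exp (-(4 * β) * ∑ x ∈ Λ,
        (y x - ∑ a, (ω a * Real.sqrt ((1 / l a - 1 / 8) / β)) * e a x) ^ 2) ∂(gm n)) =
        ∏ a, ∫ s, Real.exp (-(4 * β) *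
          (ip Λ (e a) y - Real.sqrt ((1 / l a - 1 / 8) / β) * s) ^ 2) ∂(gaussianReal 0 1) := by
      exact (integral_congr_ae (Filter.Eventually.of_forall e4)).trans
        (gm_prodR n (fun (a : Fin n) (s : ℝ) => Real.exp (-(4 * β) *
          (ip Λ (e a) y - Real.sqrt ((1 / l a - 1 / 8) / β) * s) ^ 2)))
    show Real.exp (-(β / 2) * Dir y) = (∏ a, c a) * (∫ ω : Fin n → ℝ, Real.exp (-(4 * β) * ∑ x ∈ Λ,
        (y x - ∑ a, (ω a * Real.sqrt ((1 / l a - 1 / 8) / β)) * e a x) ^ 2) ∂(gm n))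
    rw [e5, e1, ← Finset.prod_mul_distrib, Finset.mul_sum, Real.exp_sum]
    exact Finset.prod_congr rfl (fun a _ => hcm a _)

end Pool.Agent.LRT
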