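import Mathlib

/-!
# LR-T3-GausA: one-dimensional mixture identity (0.4 h; Mathlib only)

`gaussianReal 0 1` has density `(2π)^(-1/2) exp(-s²/2)` (`integral_gaussianReal_eq_integral_smul` or `gaussianPDFReal`). With
`η = sqrt((1/l - 1/8)/β)`, `b = 4β`: exponent `-b (t - η s)² - s²/2 = -(1/2 + b η²) (s - s0)² - t² b/(1 + 2 b η²)`,
`s0 = b η t/(1/2 + b η²)`; `1 + 2 b η² = 8/l` so `b/(1 + 2 b η²) = 4β l/8 = (β/2) l`. Integral over `s`: `sqrt(π/(1/2 + b η²))` by
translation invariance (`integral_sub_right_eq_self`) and `integral_gaussian`. `c⁻¹ = (2π)^(-1/2) sqrt(π/(1/2 + b η²)) = sqrt(l/8)`.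
-/

set_option autoImplicit false

noncomputable section

open scoped BigOperators
open MeasureTheory ProbabilityTheory

namespace Pool.Agent.LRT

/-- one-dimensional mixture identity -/
theorem mix_one {β l : ℝ} (hβ : 0 < β) (hl : 0 < l) (hl8 : l ≤ 8) :
    ∃ c : ℝ, 0 < c ∧ ∀ t : ℝ, Real.exp (-(β / 2) * (l * t ^ 2)) =
      c * ∫ s, Real.exp (-(4 * β) * (t - Real.sqrt ((1 / l - 1 / 8) / β) * s) ^ 2) ∂(gaussianReal 0 1) := by
  set η := Real.sqrt ((1 / l - 1 / 8) / β) with hη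
  have h18 : 0 ≤ 1 / l - 1 / 8 := by
    have : 1 / 8 ≤ 1 / l := one_div_le_one_div_of_le hl hl8
    linarith
  have hη2 : η ^ 2 = (1 / l - 1 / 8) / β := Real.sq_sqrt (div_nonneg h18 hβ.le)
  have hk : (0 : ℝ) < 4 / l := by positivity
  have hpos : 0 < Real.sqrt (2 * Real.pi) := Real.sqrt_pos.mpr (by positivity)
  have hpos2 : 0 < Real.sqrt (Real.pi / (4 / l)) := Real.sqrt_pos.mpr (by positivity)
  refine ⟨Real.sqrt (2 * Real.pi) / Real.sqrt (Real.pi / (4 / l)), div_pos hpos hpos2, ?_⟩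
  intro t
  rw [integral_gaussianReal_eq_integral_smul (by norm_num : (1 : NNReal) ≠ 0)]
  have hint : ∀ s : ℝ, gaussianPDFReal 0 1 s • Real.exp (-(4 * β) * (t - η * s) ^ 2) =
      ((Real.sqrt (2 * Real.pi))⁻¹ * Real.exp (-(β / 2) * (l * t ^ 2))) *
        Real.exp (-(4 / l) * (s - β * η * l * t) ^ 2) := by
    intro s
    unfold gaussianPDFReal
    simp only [NNReal.coe_one, mul_one, sub_zero, smul_eq_mul]
    rw [mul_assoc, mul_assoc, ← Real.exp_add, ← Real.exp_add]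
    congr 2
    have hl0 : l ≠ 0 := hl.ne'
    have hb0 : β ≠ 0 := hβ.ne'
    have e1 : η ^ 2 * (8 * β * l) = 8 - l := by
      rw [hη2]; field_simp
    have key : (-(s ^ 2) / 2 + -(4 * β) * (t - η * s) ^ 2) -
        (-(β / 2) * (l * t ^ 2) + -(4 / l) * (s - β * η * l * t) ^ 2) =
        (8 - l - η ^ 2 * (8 * β * l)) * (s ^ 2 / (2 * l) - β * t ^ 2 / 2) := by
      field_simp
      ring
    have : (-(s ^ 2) / 2 + -(4 * β) * (t - η * s) ^ 2) -
        (-(β / 2) * (l * t ^ 2) + -(4 / l) * (s - β * η * l * t) ^ 2) = 0 := by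
      rw [key, e1]; ring
    linarith
  simp only [hint]
  rw [integral_const_mul]
  have h1 : ∫ s : ℝ, Real.exp (-(4 / l) * (s - β * η * l * t) ^ 2) = Real.sqrt (Real.pi / (4 / l)) := by
    rw [integral_sub_right_eq_self (fun s : ℝ => Real.exp (-(4 / l) * s ^ 2)) (β * η * l * t)]
    exact integral_gaussian (4 / l)
  rw [h1]
  field_simp

end Pool.Agent.LRT
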