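import Pool.Agent.LRT.Defs

/-!
# LR-T3-PoisA: product of series, one-dimensional Poisson summation (0.6 h)

* `hasSum_pi`: sum over `ι → ℤ` (`ι` finite) of a product of nonnegative summable functions. Induction (`Fintype.induction_empty_option`, or first for
  `Fin n` with `Fin.consEquiv`/`Fin.insertNthEquiv` and `HasSum.mul_of_nonneg`/`Summable.mul_of_nonneg`, `HasSum.prod_mul`...), or with
  `Measure.pi` of counting measures and `integral_fintype_prod_eq_prod`.
* `poisson_one`: `Complex.tsum_exp_neg_quadratic` with `a = π/(4β)`, `b = I y` (`y` real): left side terms `exp(-π a n² + 2π i y n)`,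
  `π a = π²/(4β)`, right side `a^(-1/2) ∑ exp(-(π/a) (n - y)²)`, `π/a = 4β`; take real parts (left: `exp(-g n²) cos(2π n y)`; `re` of a `tsum`:
  `Complex.re_tsum` / `Complex.hasSum_re`, summability of both sides needed: `Summable` of `exp(-g n²)`: comparison with a geometric series or
  `summable_exp_mul_sq`/jacobiTheta lemmas).
-/

set_option autoImplicit false

noncomputable section

open scoped BigOperators
open MeasureTheory

namespace Pool.Agent.LRT

variable {Λ : Finset V} {β : ℝ}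

private theorem hasSum_pi_aux (ι : Type) [Fintype ι] : ∀ (g : ι → ℤ → ℝ), (∀ i m, 0 ≤ g i m) →
    (∀ i, Summable (g i)) →
    HasSum (fun ψ : ι → ℤ => ∏ i, g i (ψ i)) (∏ i, ∑' m, g i m) := by
  refine Fintype.induction_empty_option (P := fun (ι : Type) (_ : Fintype ι) =>
    ∀ (g : ι → ℤ → ℝ), (∀ i m, 0 ≤ g i m) → (∀ i, Summable (g i)) →
    HasSum (fun ψ : ι → ℤ => ∏ i, g i (ψ i)) (∏ i, ∑' m, g i m)) ?_ ?_ ?_ ι
  · intro α β _ e ih g h0 hg
    letI : Fintype α := Fintype.ofEquiv β e.symm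
    have h1 := ih (fun i => g (e i)) (fun i m => h0 _ _) (fun i => hg _)
    rw [← Equiv.hasSum_iff (e.arrowCongr (Equiv.refl ℤ))]
    have h2 : ∀ φ : α → ℤ, ((fun ψ : β → ℤ => ∏ i, g i (ψ i)) ∘
        (e.arrowCongr (Equiv.refl ℤ))) φ = ∏ j, g (e j) (φ j) := by
      intro φ
      change ∏ i, g i (φ (e.symm i)) = ∏ j, g (e j) (φ j)
      rw [← Equiv.prod_comp e (fun i => g i (φ (e.symm i)))]
      simp only [Equiv.symm_apply_apply]
    have h3 : ∏ i : β, ∑' m, g i m = ∏ j : α, ∑' m, g (e j) m :=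
      (Equiv.prod_comp e (fun i => ∑' m, g i m)).symm
    rw [h3]
    exact h1.congr_fun h2
  · intro g _ _
    simp
  · intro α _ ih g h0 hg
    have h1 := ih (fun i => g (some i)) (fun i m => h0 _ _) (fun i => hg _)
    have h2 : HasSum (g none) (∑' m, g none m) := (hg none).hasSum
    have h3 : Summable (fun x : ℤ × (α → ℤ) => g none x.1 * ∏ i, g (some i) (x.2 i)) :=
      h2.summable.mul_of_nonneg h1.summable (fun m => h0 _ _)
        (fun ψ => Finset.prod_nonneg fun i _ => h0 _ _)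
    have h4 := h2.mul h1 h3
    rw [Fintype.prod_option, ← Equiv.hasSum_iff (Equiv.piOptionEquivProd (β := fun _ : Option α => ℤ)).symm]
    refine h4.congr_fun ?_
    rintro ⟨m, ψ⟩
    simp only [Function.comp]
    rw [Fintype.prod_option]
    rfl

theorem hasSum_pi {ι : Type} [Fintype ι] (g : ι → ℤ → ℝ) (h0 : ∀ i m, 0 ≤ g i m)
    (hg : ∀ i, Summable (g i)) :
    HasSum (fun ψ : ι → ℤ => ∏ i, g i (ψ i)) (∏ i, ∑' m, g i m) :=
  hasSum_pi_aux ι g h0 hg

private theorem summ_gauss (c : ℝ) (hc : 0 < c) (y : ℝ) :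
    Summable (fun m : ℤ => Real.exp (-c * ((m : ℝ) - y) ^ 2)) := by
  have h0 : 0 < (Complex.I * ((c / Real.pi : ℝ) : ℂ)).im := by
    simp only [Complex.mul_im, Complex.I_re, Complex.ofReal_im, Complex.I_im, Complex.ofReal_re]
    have : 0 < c / Real.pi := div_pos hc Real.pi_pos
    linarith
  have h1 := ((summable_jacobiTheta₂_term_iff (Complex.I * ((-(c * y / Real.pi) : ℝ) : ℂ))
    (Complex.I * ((c / Real.pi : ℝ) : ℂ))).2 h0).norm
  have h2 := h1.mul_left (Real.exp (-c * y ^ 2))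
  refine h2.congr fun m => ?_
  rw [norm_jacobiTheta₂_term, ← Real.exp_add]
  congr 1
  have e1 : (Complex.I * ((c / Real.pi : ℝ) : ℂ)).im = c / Real.pi := by
    simp only [Complex.mul_im, Complex.I_re, Complex.ofReal_im, Complex.I_im, Complex.ofReal_re]
    ring
  have e2 : (Complex.I * ((-(c * y / Real.pi) : ℝ) : ℂ)).im = -(c * y / Real.pi) := by
    simp only [Complex.mul_im, Complex.I_re, Complex.ofReal_im, Complex.I_im, Complex.ofReal_re]
    ring
  rw [e1, e2]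
  have hp := Real.pi_ne_zero
  field_simp
  ring

theorem poisson_one {β : ℝ} (hβ : 0 < β) (y : ℝ) :
    Summable (fun m : ℤ => Real.exp (-(4 * β) * ((m : ℝ) - y) ^ 2)) ∧
    ∑' m : ℤ, Real.exp (-(4 * β) * ((m : ℝ) - y) ^ 2) =
      Real.sqrt (Real.pi / (4 * β)) * lam (Real.pi ^ 2 / (4 * β)) y := by
  have hs := summ_gauss (4 * β) (by positivity) y
  refine ⟨hs, ?_⟩
  have hpi := Real.pi_pos
  have ha : 0 < Real.pi / (4 * β) := by positivity
  have hg : 0 < Real.pi ^ 2 / (4 * β) := by positivity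
  have hP := Complex.tsum_exp_neg_quadratic (a := ((Real.pi / (4 * β) : ℝ) : ℂ))
    (by rw [Complex.ofReal_re]; exact ha) (Complex.I * (y : ℂ))
  have hR : ∀ n : ℤ, Complex.exp (-(Real.pi : ℂ) / ((Real.pi / (4 * β) : ℝ) : ℂ) *
      ((n : ℂ) + Complex.I * (Complex.I * (y : ℂ))) ^ 2) =
      ((Real.exp (-(4 * β) * ((n : ℝ) - y) ^ 2) : ℝ) : ℂ) := by
    intro n
    rw [Complex.ofReal_exp]
    congr 1
    have e : Complex.I * (Complex.I * (y : ℂ)) = -(y : ℂ) := by
      rw [← mul_assoc, Complex.I_mul_I]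
      ring
    rw [e]
    push_cast
    have h1 : (Real.pi : ℂ) ≠ 0 := by exact_mod_cast hpi.ne'
    have h2 : (β : ℂ) ≠ 0 := by exact_mod_cast hβ.ne'
    field_simp
    ring
  have hL : ∀ n : ℤ, (Complex.exp (-(Real.pi : ℂ) * ((Real.pi / (4 * β) : ℝ) : ℂ) * (n : ℂ) ^ 2 +
      2 * (Real.pi : ℂ) * (Complex.I * (y : ℂ)) * (n : ℂ))) =
      ((Real.exp (-(Real.pi ^ 2 / (4 * β) * (n : ℝ) ^ 2)) : ℝ) : ℂ) *
        Complex.exp (((2 * Real.pi * n * y : ℝ) : ℂ) * Complex.I) := by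
    intro n
    rw [Complex.ofReal_exp, ← Complex.exp_add]
    congr 1
    push_cast
    have h1 : (Real.pi : ℂ) ≠ 0 := by exact_mod_cast hpi.ne'
    have h2 : (β : ℂ) ≠ 0 := by exact_mod_cast hβ.ne'
    field_simp
  have hsum0 : Summable (fun n : ℤ => Real.exp (-(Real.pi ^ 2 / (4 * β) * (n : ℝ) ^ 2))) := by
    refine (summ_gauss (Real.pi ^ 2 / (4 * β)) hg 0).congr fun n => ?_
    congr 1
    ring
  have hsumL : Summable (fun n : ℤ =>
      ((Real.exp (-(Real.pi ^ 2 / (4 * β) * (n : ℝ) ^ 2)) : ℝ) : ℂ) *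
        Complex.exp (((2 * Real.pi * n * y : ℝ) : ℂ) * Complex.I)) := by
    refine Summable.of_norm (hsum0.congr fun n => ?_)
    rw [norm_mul, Complex.norm_exp_ofReal_mul_I, mul_one, Complex.norm_real, Real.norm_eq_abs,
      abs_of_pos (Real.exp_pos _)]
  rw [tsum_congr hL, tsum_congr hR, ← Complex.ofReal_tsum] at hP
  have hP2 := congrArg Complex.re hP
  rw [Complex.re_tsum hsumL] at hP2
  have hlam : ∑' n : ℤ, (((Real.exp (-(Real.pi ^ 2 / (4 * β) * (n : ℝ) ^ 2)) : ℝ) : ℂ) *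
        Complex.exp (((2 * Real.pi * n * y : ℝ) : ℂ) * Complex.I)).re =
      lam (Real.pi ^ 2 / (4 * β)) y := by
    unfold lam
    refine tsum_congr fun n => ?_
    rw [Complex.re_ofReal_mul, Complex.exp_ofReal_mul_I_re]
  rw [hlam] at hP2
  have hpow : (((Real.pi / (4 * β) : ℝ) : ℂ)) ^ (1 / 2 : ℂ) =
      ((Real.sqrt (Real.pi / (4 * β)) : ℝ) : ℂ) := by
    rw [Real.sqrt_eq_rpow, Complex.ofReal_cpow ha.le]
    norm_num
  rw [hpow] at hP2
  have hsq : 0 < Real.sqrt (Real.pi / (4 * β)) := Real.sqrt_pos.2 ha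
  have e3 : (1 / ((Real.sqrt (Real.pi / (4 * β)) : ℝ) : ℂ) *
      ((∑' m : ℤ, Real.exp (-(4 * β) * ((m : ℝ) - y) ^ 2) : ℝ) : ℂ)) =
      ((1 / Real.sqrt (Real.pi / (4 * β)) *
        ∑' m : ℤ, Real.exp (-(4 * β) * ((m : ℝ) - y) ^ 2) : ℝ) : ℂ) := by
    push_cast
    rfl
  rw [e3, Complex.ofReal_re] at hP2
  rw [hP2]
  field_simp

end Pool.Agent.LRT
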