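import Pool.Agent.LRT.Energy
import Pool.Agent.LRT.PoisA

/-!
# LR-T3-Pois: Poisson representation of the theta function (0.6 h; from `hasSum_pi`, `poisson_one` of PoisA)

PLAN. `mix` for `y = ext Λ ψ - h` (vanishes off `Λ`): `exp(-(β/2) Dir(ext ψ - h)) = c ∫ ∏_{x∈Λ} exp(-4β (ψ x - (h x + φ x))²)`.
Sum over `ψ : Λ → ℤ`: exchange with the integral (nonnegative integrand: `integral_tsum` / `hasSum_integral_of_summable_integral_norm`;
uniform bound of `∑_ψ ∏` by `lam_le`), and `∑_ψ ∏_x g_x(ψ x) = ∏_x ∑_m g_x m` for nonnegative summable `g_x` (finite index set;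
lemma `hasSum_pi`: induction on the index finset / `Fin n`, or `Measure.pi` of counting measures).
One dimension (`poisson_one`): `∑_m exp(-4β (m - y)²) = sqrt(π/(4β)) * lam (π²/(4β)) y`
(`Complex.tsum_exp_neg_quadratic` with `a = π/(4β)`, `b = I y`; real parts: the imaginary part `∑ exp(-g q²) sin(2π q y)` is not needed, take `re`).
`lam` is bounded and continuous (`lam_bound`, uniformly convergent series), `lam ≥ 0` by `poisson_one`.
-/

set_option autoImplicit false

noncomputable section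

open scoped BigOperators
open MeasureTheory

namespace Pool.Agent.LRT

variable {Λ : Finset V} {β : ℝ}

private lemma summable_gauss {g : ℝ} (hg : 0 < g) :
    Summable (fun q : ℤ => Real.exp (-(g * (q : ℝ) ^ 2))) := by
  have h := (poisson_one (β := g / 4) (by positivity) 0).1
  refine h.congr fun q => ?_
  congr 1
  ring

private lemma lam_le_const {g : ℝ} (hg : 0 < g) (y : ℝ) :
    lam g y ≤ ∑' q : ℤ, Real.exp (-(g * (q : ℝ) ^ 2)) := by
  have hs := summable_gauss hg
  have h1 : Summable (fun q : ℤ => Real.exp (-(g * (q : ℝ) ^ 2)) *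
      Real.cos (2 * Real.pi * q * y)) := by
    refine Summable.of_norm_bounded hs fun q => ?_
    rw [norm_mul, Real.norm_eq_abs, Real.norm_eq_abs, Real.abs_exp]
    exact mul_le_of_le_one_right (Real.exp_pos _).le (Real.abs_cos_le_one _)
  refine h1.tsum_le_tsum (fun q => ?_) hs
  exact mul_le_of_le_one_right (Real.exp_pos _).le (Real.cos_le_one _)

theorem theta_rep (G : GField Λ β) (hβ : 0 < β) :
    ∃ c : ℝ, 0 < c ∧ ∀ h : V → ℝ, Off Λ h →
      Summable (fun ψ : Λ → ℤ => Real.exp (-(β / 2) * Dir (fun x => ext Λ ψ x - h x))) ∧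
      ∑' ψ : Λ → ℤ, Real.exp (-(β / 2) * Dir (fun x => ext Λ ψ x - h x)) =
        c * ∫ ω, ∏ x ∈ Λ, lam (Real.pi ^ 2 / (4 * β)) (h x + G.φ ω x) ∂G.μ := by
  obtain ⟨c0, hc0, hmix⟩ := G.mix
  set g : ℝ := Real.pi ^ 2 / (4 * β) with hg
  have hgpos : 0 < g := by positivity
  set s : ℝ := Real.sqrt (Real.pi / (4 * β)) with hs
  have hspos : 0 < s := Real.sqrt_pos.2 (by positivity)
  refine ⟨c0 * s ^ Λ.card, by positivity, fun h hh => ?_⟩
  -- the summands
  set f : (Λ → ℤ) → G.Ω → ℝ := fun ψ ω =>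
    ∏ x : Λ, Real.exp (-(4 * β) * ((ψ x : ℝ) - (h x + G.φ ω x)) ^ 2) with hf
  have hf0 : ∀ ψ ω, 0 ≤ f ψ ω := fun ψ ω => Finset.prod_nonneg fun x _ => (Real.exp_pos _).le
  have hf1 : ∀ ψ ω, f ψ ω ≤ 1 := fun ψ ω => Finset.prod_le_one (fun x _ => (Real.exp_pos _).le)
    fun x _ => by
      rw [Real.exp_le_one_iff]
      have : 0 ≤ ((ψ x : ℝ) - (h x + G.φ ω x)) ^ 2 := sq_nonneg _
      nlinarith
  have hfm : ∀ ψ, Measurable (f ψ) := by
    intro ψ
    refine Finset.measurable_prod _ fun x _ => ?_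
    have := G.meas (x : V)
    exact Real.measurable_exp.comp ((((measurable_const.sub (measurable_const.add this)).pow_const
      2)).const_mul _)
  have hfi : ∀ ψ, Integrable (f ψ) G.μ := by
    intro ψ
    refine Integrable.of_bound (hfm ψ).aestronglyMeasurable 1 (Filter.Eventually.of_forall
      fun ω => ?_)
    rw [Real.norm_of_nonneg (hf0 ψ ω)]
    exact hf1 ψ ω
  -- the mixture formula
  have hterm : ∀ ψ : Λ → ℤ, Real.exp (-(β / 2) * Dir (fun x => ext Λ ψ x - h x)) =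
      c0 * ∫ ω, f ψ ω ∂G.μ := by
    intro ψ
    rw [hmix (fun x => ext Λ ψ x - h x) (fun x hx => by
      simp only [ext, dif_neg hx, hh x hx, sub_zero])]
    congr 1
    refine integral_congr_ae (Filter.Eventually.of_forall fun ω => ?_)
    simp only [hf]
    rw [← Real.exp_sum]
    congr 1
    rw [Finset.mul_sum, ← Finset.sum_coe_sort Λ]
    refine Finset.sum_congr rfl fun x _ => ?_
    have : ext Λ ψ (x : V) = (ψ x : ℝ) := by
      simp only [ext, dif_pos x.2]
    rw [this]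
    ring
  -- the sum
  have hsum : ∀ ω, HasSum (fun ψ => f ψ ω) (s ^ Λ.card * ∏ x ∈ Λ, lam g (h x + G.φ ω x)) := by
    intro ω
    have h1 := hasSum_pi (ι := Λ)
      (fun x m => Real.exp (-(4 * β) * ((m : ℝ) - (h x + G.φ ω x)) ^ 2))
      (fun x m => (Real.exp_pos _).le) (fun x => (poisson_one hβ _).1)
    have h2 : ∏ x : Λ, ∑' m : ℤ, Real.exp (-(4 * β) * ((m : ℝ) - (h x + G.φ ω x)) ^ 2) =
        s ^ Λ.card * ∏ x ∈ Λ, lam g (h x + G.φ ω x) := by
      rw [Finset.prod_congr rfl fun x _ => (poisson_one hβ _).2, Finset.prod_mul_distrib,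
        Finset.prod_const, Finset.card_univ, Fintype.card_coe, ← Finset.prod_coe_sort Λ]
    rw [h2] at h1
    exact h1
  -- uniform bound
  set L : ℝ := ∑' q : ℤ, Real.exp (-(g * (q : ℝ) ^ 2)) with hL
  have hlam0 : ∀ y, 0 ≤ lam g y := by
    intro y
    have h1 := (poisson_one hβ y).2
    have h2 : 0 ≤ ∑' m : ℤ, Real.exp (-(4 * β) * ((m : ℝ) - y) ^ 2) :=
      tsum_nonneg fun m => (Real.exp_pos _).le
    rw [h1] at h2
    exact nonneg_of_mul_nonneg_right h2 hspos
  have hbd : ∀ ω (t : Finset (Λ → ℤ)), ∑ ψ ∈ t, f ψ ω ≤ s ^ Λ.card * L ^ Λ.card := by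
    intro ω t
    refine (sum_le_hasSum t (fun ψ _ => hf0 ψ ω) (hsum ω)).trans ?_
    refine mul_le_mul_of_nonneg_left ?_ (by positivity)
    refine (Finset.prod_le_prod (fun x _ => hlam0 _) fun x _ => lam_le_const hgpos _).trans ?_
    rw [Finset.prod_const]
  have hint : Summable (fun ψ => ∫ ω, f ψ ω ∂G.μ) := by
    refine summable_of_sum_le (c := s ^ Λ.card * L ^ Λ.card)
      (fun ψ => integral_nonneg (hf0 ψ)) fun t => ?_
    rw [← integral_finsetSum _ fun ψ _ => hfi ψ]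
    refine (integral_mono (integrable_finsetSum _ fun ψ _ => hfi ψ)
      (integrable_const (s ^ Λ.card * L ^ Λ.card)) fun ω => ?_).trans ?_
    · exact hbd ω t
    · simp
  have hH : HasSum (fun ψ => ∫ ω, f ψ ω ∂G.μ) (∫ ω, ∑' ψ, f ψ ω ∂G.μ) := by
    refine hasSum_integral_of_summable_integral_norm hfi ?_
    refine hint.congr fun ψ => ?_
    refine integral_congr_ae (Filter.Eventually.of_forall fun ω => ?_)
    exact (Real.norm_of_nonneg (hf0 ψ ω)).symm
  have hH2 : ∫ ω, ∑' ψ, f ψ ω ∂G.μ =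
      s ^ Λ.card * ∫ ω, ∏ x ∈ Λ, lam g (h x + G.φ ω x) ∂G.μ := by
    rw [← integral_const_mul]
    exact integral_congr_ae (Filter.Eventually.of_forall fun ω => (hsum ω).tsum_eq)
  rw [hH2] at hH
  have hF := hH.mul_left c0
  have hF2 : HasSum (fun ψ : Λ → ℤ => Real.exp (-(β / 2) * Dir (fun x => ext Λ ψ x - h x)))
      (c0 * (s ^ Λ.card * ∫ ω, ∏ x ∈ Λ, lam g (h x + G.φ ω x) ∂G.μ)) := by
    have : (fun ψ : Λ → ℤ => Real.exp (-(β / 2) * Dir (fun x => ext Λ ψ x - h x))) =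
        fun ψ => c0 * ∫ ω, f ψ ω ∂G.μ := funext hterm
    rw [this]
    exact hF
  refine ⟨hF2.summable, ?_⟩
  rw [hF2.tsum_eq]
  ring

end Pool.Agent.LRT
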