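import Pool.Agent.LRT.Pack
import Pool.Agent.LRT.Jstar

/-!
# LR-T3-PreZero: the initial family (0.4 h)
See the docstring.
-/

set_option autoImplicit false

noncomputable section

open scoped BigOperators
open MeasureTheory

namespace Pool.Agent.LRT

variable {Λ : Finset V} {β : ℝ}

private theorem pack_single (t : ℤ) (x : V) : pack t {x} = 1 := by
  apply le_antisymm
  · obtain ⟨T, hT, _, hc⟩ := exists_pack t {x}
    rw [← hc]
    exact (Finset.card_le_card hT).trans (by simp)
  · have := card_le_pack (t := t) (Finset.Subset.refl ({x} : Finset V)) (by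
      intro a ha b hb hab
      rw [Finset.mem_singleton] at ha hb
      exact absurd (ha.trans hb.symm) hab)
    simpa using this

private theorem num_ineq {g B0 : ℝ} (hB : 0 ≤ B0) (hg : B0 + C1 + 3 ≤ g) {q : ℕ} (hq : 1 ≤ q) :
    2 ^ (q + 1) * Real.exp (-(g * (q : ℝ) ^ 2)) ≤ Real.exp (-(q : ℝ) - B0 - C1) := by
  have hq' : (1 : ℝ) ≤ q := by exact_mod_cast hq
  have h2 : (2 : ℝ) ^ (q + 1) ≤ Real.exp ((q : ℝ) + 1) := by
    have h3 : (2 : ℝ) ≤ Real.exp 1 := by
      have := Real.add_one_le_exp (1 : ℝ)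
      linarith
    calc (2 : ℝ) ^ (q + 1) ≤ (Real.exp 1) ^ (q + 1) := pow_le_pow_left₀ (by norm_num) h3 _
      _ = Real.exp ((q : ℝ) + 1) := by
        rw [← Real.exp_nat_mul]
        congr 1
        push_cast
        ring
  have h0 : (0 : ℝ) ≤ C1 := by unfold C1; norm_num
  calc 2 ^ (q + 1) * Real.exp (-(g * (q : ℝ) ^ 2))
      ≤ Real.exp ((q : ℝ) + 1) * Real.exp (-(g * (q : ℝ) ^ 2)) :=
        mul_le_mul_of_nonneg_right h2 (Real.exp_pos _).le
    _ = Real.exp ((q : ℝ) + 1 - g * (q : ℝ) ^ 2) := by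
        rw [← Real.exp_add]
        congr 1
    _ ≤ Real.exp (-(q : ℝ) - B0 - C1) := by
        rw [Real.exp_le_exp]
        have hsq : (1 : ℝ) ≤ (q : ℝ) ^ 2 := one_le_pow₀ hq'
        have h4 : (B0 + C1 + 3) * (q : ℝ) ^ 2 ≤ g * (q : ℝ) ^ 2 :=
          mul_le_mul_of_nonneg_right hg (by positivity)
        have h5 : B0 + C1 ≤ (B0 + C1) * (q : ℝ) ^ 2 :=
          le_mul_of_one_le_right (by linarith) hsq
        nlinarith

/-- The initial family satisfies `Pre 0`: `K_q ≤ exp(-q - B0 - C1)` for `q ≥ 1` if `B0 + C1 + 3 ≤ g`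
(`bud Λ B0 0 c = B0` for a singleton: `pack = 1`, `min 0 _ = 0`, `0 - _ = 0`; everything is alive at `0`; `Chain` of a singleton is void;
`nd x y ≥ 1` for `x ≠ y`; `Q = q x`, `n = q x`; `(q+1) log 2 + q - g q² ≤ -B0 - C1` as `g q² ≥ (B0 + C1) + 3 q²`). -/
theorem pre_zero {g B0 : ℝ} (hB : 0 ≤ B0) (hg : B0 + C1 + 3 ≤ g) {q : V → ℕ} (hq : ∀ x, 1 ≤ q x) :
    Pre Λ B0 0 Λ (fun x => site g q x) := by
  have hS : ∀ x, (site g q x).S = {x} := fun _ => rfl
  have hQ : ∀ x, (site g q x).Q = (q x : ℤ) := by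
    intro x
    simp [Cl.Q, site]
  have hn : ∀ x, (site g q x).n = (q x : ℝ) := by
    intro x
    simp [Cl.n, site]
  have hz : ∀ x, (site g q x).z = 2 ^ (q x + 1) * Real.exp (-(g * (q x : ℝ) ^ 2)) := fun _ => rfl
  have hv : ∀ x, (site g q x).v = Pi.single x (q x : ℝ) := fun _ => rfl
  have hρ : ∀ x, (site g q x).ρ = Pi.single x (q x : ℤ) := fun _ => rfl
  refine ⟨?_, ?_, ?_, ?_, ?_, ?_, ?_⟩
  · intro x hx
    refine ⟨?_, ?_, ?_, ?_, ?_⟩
    · rw [hS]; exact Finset.singleton_nonempty x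
    · rw [hS]; exact Finset.singleton_subset_iff.2 hx
    · intro y hy
      rw [hS, Finset.mem_singleton] at hy
      rw [hρ]
      exact Pi.single_eq_of_ne hy _
    · rw [hQ, hv, Finset.sum_eq_single_of_mem x hx]
      · simp
      · intro y _ hy
        exact Pi.single_eq_of_ne hy _
    · rw [hz]; positivity
  · intro i _ j _ hij _ _ x hx y hy
    rw [hS, Finset.mem_singleton] at hx hy
    subst hx hy
    have h1 := nd_pos hij
    have h2 : r 0 = 1 := by simp [r]
    rw [h2]
    omega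
  · intro i _ j _ _ _ h
    exact absurd h (Nat.not_lt_zero _)
  · intro i _ _ X hX hne hX'
    rw [hS] at hX hX'
    obtain ⟨y, hy⟩ := hne
    have hy' := Finset.mem_singleton.1 (hX hy)
    subst hy'
    exact absurd (Finset.Subset.antisymm hX (Finset.singleton_subset_iff.2 hy)) hX'
  · intro i _ x hx
    rw [hv] at hx
    have h1 : x = i := by
      by_contra hne
      exact hx (Pi.single_eq_of_ne hne _)
    refine ⟨i, by rw [hS]; exact Finset.mem_singleton_self i, ?_⟩
    rw [h1, nd_self]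
    have := r_pos (min 0 (js Λ (site g q i)))
    omega
  · intro i _ _
    rw [hz, hn, bud, hS, pack_single]
    have h := num_ineq hB hg (hq i)
    refine h.trans (le_of_eq ?_)
    congr 1
    simp
  · intro i _ h
    exact absurd h (Nat.not_lt_zero _)

end Pool.Agent.LRT
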