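import Pool.Agent.LRT.Defs

/-!
# LR-T3-SiteX: expansion of the on-site weights (0.7 h)

`lam g y = ∑_{n : ℕ} 2^{-(n+1)} (1 + K_{n+1} cos(2π (n+1) y))`, `K_q = 2^(q+1) exp(-g q²)` (`lam_split`; `∑_{q ∈ ℤ}` = term 0 + twice the sum over
`q ≥ 1`, cos even; `∑ 2^{-(n+1)} = 1`; `tsum_of_nat_of_neg_add_one`/`hasSum_int...`; `g > 0`).
`fac_site`: for `x ∈ Λ` the factor of `site g q x` is `1 + K_{q x} cos(2π q_x (h x + φ x))` (`ip Λ h (Pi.single x q) = h x q`).
Claim for `X ⊆ Λ` (induction on `card (Λ \ X)`): for every `q ≥ 1`: with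
`I_X(q; h) = ∫ ∏_{x∈X} fac(site g q x) ∏_{x∈Λ\X} lam g (h x + φ x)`, `θ I_X(q;0) ≤ I_X(q;h)`. `X = Λ`: hypothesis. Step: `x ∉ X`:
`I_X(q;h) = ∑_n 2^{-(n+1)} I_{X∪{x}}(q[x ↦ n+1]; h)` (integral of a series: uniformly bounded terms times `2^{-(n+1)}`,
`hasSum_integral_of_summable_integral_norm` or `integral_tsum`), same for `h = 0`, compare termwise (`tsum_le_tsum`, `tsum_mul_left`);
the sites of `X` do not see the change of `q` at `x`.
-/

set_option autoImplicit false

noncomputable section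

open scoped BigOperators
open MeasureTheory

namespace Pool.Agent.LRT

variable {Λ : Finset V} {β : ℝ}

/-- summability of the weights -/
private lemma sx_summable_nat {g : ℝ} (hg : 0 < g) :
    Summable fun n : ℕ => Real.exp (-(g * (n : ℝ) ^ 2)) := by
  refine Summable.of_nonneg_of_le (fun n => (Real.exp_pos _).le) (fun n => ?_)
    (summable_geometric_of_lt_one (Real.exp_pos (-g)).le (by
      have := Real.exp_lt_exp.2 (neg_lt_zero.2 hg)
      rwa [Real.exp_zero] at this))
  rw [← Real.exp_nat_mul]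
  refine Real.exp_le_exp.2 ?_
  have h : (n : ℝ) ≤ (n : ℝ) ^ 2 := by
    rcases Nat.eq_zero_or_pos n with h | h
    · subst h; simp
    · have : (1 : ℝ) ≤ n := by exact_mod_cast h
      nlinarith
  nlinarith

private lemma sx_summable_int {g : ℝ} (hg : 0 < g) :
    Summable fun q : ℤ => Real.exp (-(g * (q : ℝ) ^ 2)) := by
  refine Summable.of_nat_of_neg ?_ ?_
  · simpa using sx_summable_nat hg
  · simpa using sx_summable_nat hg

private lemma sx_summable_succ {g : ℝ} (hg : 0 < g) :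
    Summable fun n : ℕ => Real.exp (-(g * ((n : ℝ) + 1) ^ 2)) := by
  have := (summable_nat_add_iff 1).2 (sx_summable_nat hg)
  simpa using this

private lemma sx_cont {g : ℝ} (hg : 0 < g) : Continuous (lam g) := by
  refine continuous_tsum (fun q => ?_) (sx_summable_int hg) (fun q y => ?_)
  · fun_prop
  · rw [Real.norm_eq_abs, abs_mul, abs_of_pos (Real.exp_pos _)]
    exact mul_le_of_le_one_right (Real.exp_pos _).le (Real.abs_cos_le_one _)

private lemma sx_bound {g : ℝ} (hg : 0 < g) (y : ℝ) :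
    |lam g y| ≤ ∑' q : ℤ, Real.exp (-(g * (q : ℝ) ^ 2)) := by
  rw [lam, ← Real.norm_eq_abs]
  refine tsum_of_norm_bounded (sx_summable_int hg).hasSum fun q => ?_
  rw [Real.norm_eq_abs, abs_mul, abs_of_pos (Real.exp_pos _)]
  exact mul_le_of_le_one_right (Real.exp_pos _).le (Real.abs_cos_le_one _)

/-- the weights `2^{-(n+1)}` -/
private def sxw (n : ℕ) : ℝ := 1 / 2 / 2 ^ n

private lemma sxw_pos (n : ℕ) : 0 < sxw n := by unfold sxw; positivity

private lemma sxw_hasSum : HasSum sxw 1 := by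
  exact hasSum_geometric_two' 1

private lemma sxw_mul (n : ℕ) : sxw n * 2 ^ (n + 1 + 1) = 2 := by
  unfold sxw
  rw [pow_succ, pow_succ]
  field_simp

/-- the terms of the expansion -/
private def sxf (g : ℝ) (n : ℕ) (y : ℝ) : ℝ :=
  1 + 2 ^ (n + 1 + 1) * Real.exp (-(g * ((n : ℝ) + 1) ^ 2)) *
    Real.cos (2 * Real.pi * (((n : ℝ) + 1) * y))

private lemma sxf_eq (g : ℝ) (n : ℕ) (y : ℝ) :
    sxw n * sxf g n y = sxw n + 2 * (Real.exp (-(g * ((n : ℝ) + 1) ^ 2)) *
      Real.cos (2 * Real.pi * (((n : ℝ) + 1) * y))) := by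
  rw [sxf, mul_add, mul_one, mul_assoc, ← mul_assoc, sxw_mul]

private lemma sxf_bound (g : ℝ) (n : ℕ) (y : ℝ) :
    |sxw n * sxf g n y| ≤ sxw n + 2 * Real.exp (-(g * ((n : ℝ) + 1) ^ 2)) := by
  rw [sxf_eq]
  refine (abs_add_le _ _).trans ?_
  rw [abs_of_pos (sxw_pos n), abs_mul, abs_mul, abs_of_pos (Real.exp_pos _), abs_of_pos
    (by norm_num : (0 : ℝ) < 2)]
  have := mul_le_of_le_one_right (Real.exp_pos (-(g * ((n : ℝ) + 1) ^ 2))).le
    (Real.abs_cos_le_one (2 * Real.pi * (((n : ℝ) + 1) * y)))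
  linarith

private lemma sx_summable_bound {g : ℝ} (hg : 0 < g) :
    Summable fun n : ℕ => sxw n + 2 * Real.exp (-(g * ((n : ℝ) + 1) ^ 2)) :=
  sxw_hasSum.summable.add ((sx_summable_succ hg).mul_left 2)

private lemma lam_split {g : ℝ} (hg : 0 < g) (y : ℝ) :
    HasSum (fun n : ℕ => sxw n * sxf g n y) (lam g y) := by
  have hs : Summable fun n : ℕ => sxw n * sxf g n y :=
    Summable.of_norm_bounded (sx_summable_bound hg) (fun n => sxf_bound g n y)
  have hF : ∀ n : ℕ, |Real.exp (-(g * ((n : ℝ) + 1) ^ 2)) *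
      Real.cos (2 * Real.pi * (((n : ℝ) + 1) * y))| ≤ Real.exp (-(g * ((n : ℝ) + 1) ^ 2)) := by
    intro n
    rw [abs_mul, abs_of_pos (Real.exp_pos _)]
    exact mul_le_of_le_one_right (Real.exp_pos _).le (Real.abs_cos_le_one _)
  have hF1 : Summable fun n : ℕ => Real.exp (-(g * ((n : ℝ) + 1) ^ 2)) *
      Real.cos (2 * Real.pi * (((n : ℝ) + 1) * y)) :=
    Summable.of_norm_bounded (sx_summable_succ hg) hF
  have hN : Summable fun n : ℕ => Real.exp (-(g * (((n : ℤ) : ℝ)) ^ 2)) *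
      Real.cos (2 * Real.pi * ((n : ℤ) : ℝ) * y) := by
    refine Summable.of_norm_bounded (sx_summable_nat hg) (fun n => ?_)
    rw [Real.norm_eq_abs, abs_mul, abs_of_pos (Real.exp_pos _)]
    refine (mul_le_of_le_one_right (Real.exp_pos _).le (Real.abs_cos_le_one _)).trans ?_
    simp
  have hneg : ∀ n : ℕ, Real.exp (-(g * (((-((n : ℤ) + 1) : ℤ) : ℝ)) ^ 2)) *
      Real.cos (2 * Real.pi * ((-((n : ℤ) + 1) : ℤ) : ℝ) * y) =
      Real.exp (-(g * ((n : ℝ) + 1) ^ 2)) * Real.cos (2 * Real.pi * (((n : ℝ) + 1) * y)) := by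
    intro n
    push_cast
    have e1' : (-((n : ℝ) + 1)) ^ 2 = ((n : ℝ) + 1) ^ 2 := by ring
    have e2' : 2 * Real.pi * (-((n : ℝ) + 1)) * y = -(2 * Real.pi * (((n : ℝ) + 1) * y)) := by
      ring
    rw [e1', e2', Real.cos_neg]
  have hlam : lam g y = 1 + 2 * ∑' n : ℕ, Real.exp (-(g * ((n : ℝ) + 1) ^ 2)) *
      Real.cos (2 * Real.pi * (((n : ℝ) + 1) * y)) := by
    rw [lam, tsum_of_nat_of_neg_add_one hN (by
      refine hF1.congr fun n => ?_
      exact (hneg n).symm)]
    rw [tsum_congr hneg, hN.tsum_eq_zero_add]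
    have e3 : ∀ n : ℕ, Real.exp (-(g * ((((n + 1 : ℕ) : ℤ) : ℝ)) ^ 2)) *
      Real.cos (2 * Real.pi * (((n + 1 : ℕ) : ℤ) : ℝ) * y) =
      Real.exp (-(g * ((n : ℝ) + 1) ^ 2)) * Real.cos (2 * Real.pi * (((n : ℝ) + 1) * y)) := by
      intro n
      push_cast
      rw [mul_assoc]
    rw [tsum_congr e3]
    simp
    ring
  have hval : ∑' n : ℕ, sxw n * sxf g n y = lam g y := by
    rw [hlam, tsum_congr (fun n => sxf_eq g n y), sxw_hasSum.summable.tsum_add
      (hF1.mul_left 2), sxw_hasSum.tsum_eq, tsum_mul_left]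
  rw [← hval]
  exact hs.hasSum

/-- the factor of a site -/
private lemma fac_site (G : GField Λ β) (h : V → ℝ) (g : ℝ) (q : V → ℕ) {x : V} (hx : x ∈ Λ)
    (ω : G.Ω) :
    fac G h (site g q x) ω = 1 + 2 ^ (q x + 1) * Real.exp (-(g * (q x : ℝ) ^ 2)) *
      Real.cos (2 * Real.pi * ((q x : ℝ) * (h x + G.φ ω x))) := by
  have e1 : ip Λ h (site g q x).R = h x * q x := by
    rw [ip, Finset.sum_eq_single x]
    · simp [Cl.R, site]
    · intro y _ hy
      simp [Cl.R, site, Pi.single_eq_of_ne hy]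
    · intro h; exact absurd hx h
  have e2 : ip Λ (G.φ ω) (site g q x).v = G.φ ω x * q x := by
    rw [ip, Finset.sum_eq_single x]
    · simp [site]
    · intro y _ hy
      simp [site, Pi.single_eq_of_ne hy]
    · intro h; exact absurd hx h
  rw [fac, e1, e2]
  have e3 : 2 * Real.pi * (h x * q x + G.φ ω x * q x) =
      2 * Real.pi * ((q x : ℝ) * (h x + G.φ ω x)) := by ring
  rw [e3]
  rfl

/-- the mixed integrand -/
private def sxI (G : GField Λ β) (h : V → ℝ) (g : ℝ) (X : Finset V) (q : V → ℕ) (ω : G.Ω) : ℝ :=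
  (∏ x ∈ X, fac G h (site g q x) ω) * ∏ x ∈ Λ \ X, lam g (h x + G.φ ω x)

private lemma fac_meas (G : GField Λ β) (h : V → ℝ) (c : Cl) : Measurable (fac G h c) := by
  have h1 : Measurable fun ω => ip Λ (G.φ ω) c.v := by
    unfold ip
    exact Finset.measurable_sum _ fun x _ => (G.meas x).mul_const _
  unfold fac
  fun_prop

private lemma fac_bdd (G : GField Λ β) (h : V → ℝ) (c : Cl) (ω : G.Ω) :
    |fac G h c ω| ≤ 1 + |c.z| := by
  unfold fac
  refine (abs_add_le _ _).trans ?_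
  rw [abs_one, abs_mul]
  have := mul_le_of_le_one_right (abs_nonneg c.z)
    (Real.abs_cos_le_one (2 * Real.pi * (ip Λ h c.R + ip Λ (G.φ ω) c.v)))
  linarith

private lemma sxI_prod_meas (G : GField Λ β) (h : V → ℝ) {g : ℝ} (hg : 0 < g) (X Y : Finset V)
    (q : V → ℕ) : Measurable fun ω => (∏ x ∈ X, fac G h (site g q x) ω) *
      ∏ x ∈ Y, lam g (h x + G.φ ω x) := by
  refine Measurable.mul (Finset.measurable_prod _ fun x _ => fac_meas G h _)
    (Finset.measurable_prod _ fun x _ => ?_)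
  exact (sx_cont hg).measurable.comp ((G.meas x).const_add _)

private lemma sxI_prod_bdd (G : GField Λ β) (h : V → ℝ) {g : ℝ} (hg : 0 < g) (X Y : Finset V)
    (q : V → ℕ) : ∃ C : ℝ, ∀ ω, |(∏ x ∈ X, fac G h (site g q x) ω) *
      ∏ x ∈ Y, lam g (h x + G.φ ω x)| ≤ C := by
  refine ⟨(∏ x ∈ X, (1 + |(site g q x).z|)) * ∏ x ∈ Y, ∑' q : ℤ, Real.exp (-(g * (q : ℝ) ^ 2)),
    fun ω => ?_⟩
  rw [abs_mul, Finset.abs_prod, Finset.abs_prod]
  refine mul_le_mul (Finset.prod_le_prod (fun x _ => abs_nonneg _) fun x _ => fac_bdd G h _ ω)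
    (Finset.prod_le_prod (fun x _ => abs_nonneg _) fun x _ => sx_bound hg _)
    (Finset.prod_nonneg fun x _ => abs_nonneg _) (Finset.prod_nonneg fun x _ => ?_)
  have := abs_nonneg (site g q x).z
  linarith

private lemma sx_integrable (G : GField Λ β) {f : G.Ω → ℝ} (hf : Measurable f) {C : ℝ}
    (hC : ∀ ω, |f ω| ≤ C) : Integrable f G.μ :=
  Integrable.of_bound hf.aestronglyMeasurable C (Filter.Eventually.of_forall hC)

/-- expansion at one site -/
private lemma sx_step (G : GField Λ β) (h : V → ℝ) {g : ℝ} (hg : 0 < g) (X : Finset V)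
    {x : V} (hx : x ∈ Λ) (hX : x ∉ X) (q : V → ℕ) :
    HasSum (fun n : ℕ => sxw n * ∫ ω, sxI G h g (insert x X) (Function.update q x (n + 1)) ω ∂G.μ)
      (∫ ω, sxI G h g X q ω ∂G.μ) := by
  classical
  set P : G.Ω → ℝ := fun ω => (∏ x ∈ X, fac G h (site g q x) ω) *
      ∏ x ∈ Λ \ insert x X, lam g (h x + G.φ ω x) with hP
  obtain ⟨C, hC⟩ := sxI_prod_bdd G h hg X (Λ \ insert x X) q
  have hC0 : 0 ≤ C := by
    have hne : Nonempty G.Ω := by
      by_contra hne
      rw [not_nonempty_iff] at hne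
      have h1 := G.pr.measure_univ
      rw [Set.eq_empty_of_isEmpty (Set.univ : Set G.Ω)] at h1
      simp at h1
    exact (abs_nonneg _).trans (hC hne.some)
  have hPm : Measurable P := sxI_prod_meas G h hg X (Λ \ insert x X) q
  have hsplit : ∀ ω, sxI G h g X q ω = P ω * lam g (h x + G.φ ω x) := by
    intro ω
    have hmem : x ∈ Λ \ X := Finset.mem_sdiff.2 ⟨hx, hX⟩
    rw [sxI, ← Finset.mul_prod_erase _ _ hmem]
    have : (Λ \ X).erase x = Λ \ insert x X := by
      ext y
      simp only [Finset.mem_erase, Finset.mem_sdiff, Finset.mem_insert]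
      tauto
    rw [this, hP]
    ring
  have hterm : ∀ (n : ℕ) ω, sxw n * sxI G h g (insert x X) (Function.update q x (n + 1)) ω =
      P ω * (sxw n * sxf g n (h x + G.φ ω x)) := by
    intro n ω
    rw [sxI, Finset.prod_insert hX, fac_site G h g _ hx, Function.update_self]
    have e1 : ∏ y ∈ X, fac G h (site g (Function.update q x (n + 1)) y) ω =
        ∏ y ∈ X, fac G h (site g q y) ω := by
      refine Finset.prod_congr rfl fun y hy => ?_
      have hyx : y ≠ x := fun h => hX (h ▸ hy)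
      have : site g (Function.update q x (n + 1)) y = site g q y := by
        unfold site
        rw [Function.update_of_ne hyx]
      rw [this]
    rw [e1, hP, sxf]
    push_cast
    ring
  have hFm : ∀ n : ℕ, Measurable fun ω => P ω * (sxw n * sxf g n (h x + G.φ ω x)) := by
    intro n
    refine hPm.mul ?_
    have := G.meas x
    unfold sxf
    fun_prop
  have hFb : ∀ (n : ℕ) ω, |P ω * (sxw n * sxf g n (h x + G.φ ω x))| ≤
      C * (sxw n + 2 * Real.exp (-(g * ((n : ℝ) + 1) ^ 2))) := by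
    intro n ω
    rw [abs_mul]
    exact mul_le_mul (hC ω) (sxf_bound g n _) (abs_nonneg _) hC0
  have hFi : ∀ n : ℕ, Integrable (fun ω => P ω * (sxw n * sxf g n (h x + G.φ ω x))) G.μ :=
    fun n => sx_integrable G (hFm n) (hFb n)
  have hsum : Summable fun n : ℕ => ∫ ω, ‖P ω * (sxw n * sxf g n (h x + G.φ ω x))‖ ∂G.μ := by
    refine Summable.of_nonneg_of_le (fun n => integral_nonneg fun ω => norm_nonneg _)
      (fun n => ?_) ((sx_summable_bound hg).mul_left C)
    have h1 : ∫ ω, ‖P ω * (sxw n * sxf g n (h x + G.φ ω x))‖ ∂G.μ ≤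
        ∫ _, C * (sxw n + 2 * Real.exp (-(g * ((n : ℝ) + 1) ^ 2))) ∂G.μ :=
      integral_mono (hFi n).norm (integrable_const _) fun ω => hFb n ω
    rwa [integral_const, probReal_univ, one_smul] at h1
  have key := hasSum_integral_of_summable_integral_norm hFi hsum
  have e1 : (fun n : ℕ => sxw n * ∫ ω, sxI G h g (insert x X)
      (Function.update q x (n + 1)) ω ∂G.μ) =
      fun n : ℕ => ∫ ω, P ω * (sxw n * sxf g n (h x + G.φ ω x)) ∂G.μ := by
    funext n
    rw [← integral_const_mul]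
    exact integral_congr_ae (Filter.Eventually.of_forall fun ω => hterm n ω)
  have e2 : ∫ ω, sxI G h g X q ω ∂G.μ =
      ∫ ω, ∑' n : ℕ, P ω * (sxw n * sxf g n (h x + G.φ ω x)) ∂G.μ := by
    refine integral_congr_ae (Filter.Eventually.of_forall fun ω => ?_)
    change sxI G h g X q ω = ∑' n : ℕ, P ω * (sxw n * sxf g n (h x + G.φ ω x))
    rw [tsum_mul_left, (lam_split hg _).tsum_eq, hsplit]
  rw [e1, e2]
  exact key

theorem site_good (G : GField Λ β) (h : V → ℝ) {θ : ℝ} (hθ : 0 ≤ θ) {g : ℝ} (hg : 0 < g)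
    (H : ∀ q : V → ℕ, (∀ x, 1 ≤ q x) → Good G h θ Λ (fun x => site g q x)) :
    θ * ∫ ω, ∏ x ∈ Λ, lam g (G.φ ω x) ∂G.μ ≤ ∫ ω, ∏ x ∈ Λ, lam g (h x + G.φ ω x) ∂G.μ := by
  classical
  have claim : ∀ (m : ℕ) (X : Finset V), X ⊆ Λ → (Λ \ X).card = m → ∀ q : V → ℕ,
      (∀ x, 1 ≤ q x) → θ * ∫ ω, sxI G 0 g X q ω ∂G.μ ≤ ∫ ω, sxI G h g X q ω ∂G.μ := by
    intro m
    induction m with
    | zero =>
      intro X hX hm q hq
      have hXL : X = Λ := by
        rw [Finset.card_eq_zero, Finset.sdiff_eq_empty_iff_subset] at hm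
        exact Finset.Subset.antisymm hX hm
      subst hXL
      have h1 := H q hq
      rw [Good, J, J] at h1
      simpa only [sxI, Finset.sdiff_self, Finset.prod_empty, mul_one] using h1
    | succ m ih =>
      intro X hX hm q hq
      obtain ⟨x, hx⟩ : (Λ \ X).Nonempty := by
        rw [← Finset.card_pos, hm]; omega
      rw [Finset.mem_sdiff] at hx
      have hcard : (Λ \ insert x X).card = m := by
        have : (Λ \ X).erase x = Λ \ insert x X := by
          ext y
          simp only [Finset.mem_erase, Finset.mem_sdiff, Finset.mem_insert]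
          tauto
        rw [← this, Finset.card_erase_of_mem (Finset.mem_sdiff.2 hx), hm]
        omega
      have s0 := sx_step G 0 hg X hx.1 hx.2 q
      have s1 := sx_step G h hg X hx.1 hx.2 q
      refine hasSum_le (fun n => ?_) (s0.mul_left θ) s1
      have hq' : ∀ y, 1 ≤ Function.update q x (n + 1) y := by
        intro y
        by_cases hy : y = x
        · subst hy; rw [Function.update_self]; omega
        · rw [Function.update_of_ne hy]; exact hq y
      have h2 := ih (insert x X) (Finset.insert_subset hx.1 hX) hcard _ hq'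
      have h3 := mul_le_mul_of_nonneg_left h2 (sxw_pos n).le
      calc θ * (sxw n * ∫ ω, sxI G 0 g (insert x X) (Function.update q x (n + 1)) ω ∂G.μ)
          = sxw n * (θ * ∫ ω, sxI G 0 g (insert x X) (Function.update q x (n + 1)) ω ∂G.μ) := by
            ring
        _ ≤ _ := h3
  have h1 := claim (Λ \ ∅).card ∅ (Finset.empty_subset _) rfl (fun _ => 1) (fun _ => le_rfl)
  simpa only [sxI, Finset.prod_empty, one_mul, Finset.sdiff_empty, Pi.zero_apply, zero_add]
    using h1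

end Pool.Agent.LRT
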