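import Pool.Agent.LRT.ExStep

/-!
# LR-T3-StepF: extraction step, `Pre (k+1)` good ⇒ `Post k` good (0.8 h)

`post_to_pre`: the family `c'` of `extract_step` satisfies `Pre Λ B0 (k+1)`. `js (c' i) = js (c i)`, `(c' i).n = (c i).n`,
`(c' i).Q = (c i).Q` (same `S`, `ρ`; rewrite). Recall `tau j = j + j/2 + 1`, `kap = 4 C1`, `aa = 5 C1`.
* `sepA` (alive at `k+1`, hence alive at `k`): `Post.sepA`: `16 r_k < nd`, so `r (k+1) = 64 r_k < 4 nd`.
* `sepB` (`js_i = js_j`, `tau js_i < k+1`): if `tau js_i < k`: `Post.sepB`; if `tau js_i = k`: `Post.sepA` (both alive at `k`).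
* `chain`: `Chain (64 r_k) = Chain (r (k+1))`.
* `supp`: active: `6 r_k ≤ r (k+1) = r (min (k+1) js_i)` as `k < js_i`; inactive: `r (min k js) ≤ r (min (k+1) js)`.
* `bdA` (alive at `k+1`): to show `z' ≤ exp(-n - bud (k+1) - C1 P_{k+1})`, `P_m = pack (r m) S`. From `Post.bdA`: `z ≤ exp(-n - bud k)`.
  (1) `P_{k+1} ≥ 2`: `pack_double` (`Post.chain`): `P_k ≥ 2 P_{k+1}`; `js > k+1` (`lt_js_of_pack`);
      `bud k - bud (k+1) - C1 P_{k+1} = aa (P_k - P_{k+1}) - kap - C1 P_{k+1} ≥ (aa - C1) P_{k+1} - kap = 4 C1 (P_{k+1} - 1) ≥ 0`.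
  (2) `P_{k+1} = 1`, `P_k ≥ 2`: `js > k`; `bud k - bud (k+1) - C1 = aa (P_k - 1) - kap - C1 ≥ 0`.
  (3) `P_k = 1`, `js > k`: active (`pack_one`); `P_{k+1} = 1` (`pack_one`, `r` monotone); `bud (k+1) + C1 = bud k + kap + C1`.
  (4) `P_k = 1`, `js ≤ k`: `P_{k+1} = 1`; `bud (k+1) + C1 = bud k` (`min` equal, `(k+1) - js = (k - js) + 1`).
  In (1), (2), (4) `c' i = c i` if inactive; in (1), (2) `i` is not active because `P_k ≥ 2`.
* `bdB` (`tau js_i < k+1`): if `tau js_i < k`: `Post.bdB` (inactive: `js ≤ tau js ≤ k`); if `tau js_i = k`: `js ≤ k`, ended at `k`, `P_k = 1`, so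
  `bud k = B0 + kap js - C1 (k - js) = fin B0 js`.
`stepF`: `Good` for `c'` gives `Good` for `c` since `J` agrees for `h` and for `0`.
-/

set_option autoImplicit false

noncomputable section

open scoped BigOperators

namespace Pool.Agent.LRT

variable {Λ : Finset V} {β : ℝ}

theorem post_to_pre {B0 : ℝ} {k : ℕ} {ι : Type} {s : Finset ι} {c c' : ι → Cl}
    (hp : Post Λ B0 k s c)
    (hc : ∀ i ∈ s, (c' i).S = (c i).S ∧ (c' i).ρ = (c i).ρ ∧ Wf Λ (c' i) ∧
      (¬ Active Λ k (c i) → c' i = c i) ∧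
      (Active Λ k (c i) → (∀ x, (c' i).v x ≠ 0 → ∃ y ∈ (c i).S, nd x y ≤ 6 * r k) ∧
        (c' i).z ≤ (c i).z * Real.exp (-(kap + C1)))) :
    Pre Λ B0 (k + 1) s c' := by
  have hS : ∀ i ∈ s, (c' i).S = (c i).S := fun i hi => (hc i hi).1
  have hQ : ∀ i ∈ s, (c' i).Q = (c i).Q := by
    intro i hi
    unfold Cl.Q
    rw [(hc i hi).1, (hc i hi).2.1]
  have hn : ∀ i ∈ s, (c' i).n = (c i).n := by
    intro i hi
    unfold Cl.n
    rw [(hc i hi).1, (hc i hi).2.1]
  have hj : ∀ i ∈ s, js Λ (c' i) = js Λ (c i) := by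
    intro i hi
    exact js_congr (hS i hi) (by rw [hQ i hi])
  have hbud : ∀ i ∈ s, ∀ m, bud Λ B0 m (c' i) = bud Λ B0 m (c i) := by
    intro i hi m
    unfold bud
    rw [hS i hi, hj i hi]
  have hr := r_pos k
  refine ⟨fun i hi => (hc i hi).2.2.1, ?_, ?_, ?_, ?_, ?_, ?_⟩
  · intro i hi j hj' hij h1 h2 x hx y hy
    rw [hj i hi] at h1
    rw [hj j hj'] at h2
    rw [hS i hi] at hx
    rw [hS j hj'] at hy
    have := hp.sepA i hi j hj' hij (by omega) (by omega) x hx y hy
    rw [r_succ]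
    linarith
  · intro i hi j hj' hij h1 h2 x hx y hy
    rw [hj i hi, hj j hj'] at h1
    rw [hj i hi] at h2
    rw [hS i hi] at hx
    rw [hS j hj'] at hy
    rw [hj i hi]
    rcases Nat.lt_or_ge (tau (js Λ (c i))) k with h3 | h3
    · exact hp.sepB i hi j hj' hij h1 h3 x hx y hy
    · have h4 : tau (js Λ (c i)) = k := by omega
      have h5 : tau (js Λ (c j)) = k := by rw [← h1]; exact h4
      have := hp.sepA i hi j hj' hij h4.ge h5.ge x hx y hy
      rw [h4]
      exact this
  · intro i hi h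
    rw [hj i hi] at h
    rw [hS i hi, r_succ]
    exact hp.chain i hi (by omega)
  · intro i hi x hx
    rw [hj i hi, hS i hi]
    by_cases ha : Active Λ k (c i)
    · obtain ⟨y, hy, hle⟩ := ((hc i hi).2.2.2.2 ha).1 x hx
      refine ⟨y, hy, hle.trans ?_⟩
      have : min (k + 1) (js Λ (c i)) = k + 1 := min_eq_left ha.2
      rw [this, r_succ]
      linarith
    · rw [(hc i hi).2.2.2.1 ha] at hx
      obtain ⟨y, hy, hle⟩ := hp.supp i hi x hx
      exact ⟨y, hy, hle.trans (r_mono (min_le_min (Nat.le_succ k) le_rfl))⟩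
  · intro i hi h
    rw [hj i hi] at h
    rw [hn i hi, hbud i hi, hS i hi]
    have hb := hp.bdA i hi (by omega)
    have hne : (c i).S.Nonempty := (hp.wf i hi).ne
    have hr0 : (0 : ℤ) ≤ r k := by linarith
    have hr1 : (0 : ℤ) ≤ r (k + 1) := by have := r_pos (k + 1); linarith
    by_cases ha : Active Λ k (c i)
    · have hz := ((hc i hi).2.2.2.2 ha).2
      have P0 : pack (r k) (c i).S = 1 := (pack_one hr0 hne).2 ha.1
      have P1 : pack (r (k + 1)) (c i).S = 1 :=
        (pack_one hr1 hne).2 fun x hx y hy => (ha.1 x hx y hy).trans (r_mono (Nat.le_succ k))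
      have hk : k < js Λ (c i) := ha.2
      have e : -(c i).n - bud Λ B0 (k + 1) (c i) - C1 * (pack (r (k + 1)) (c i).S : ℕ) =
          (-(c i).n - bud Λ B0 k (c i)) + -(kap + C1) := by
        unfold bud
        rw [P0, P1, min_eq_left hk.le, min_eq_left (Nat.succ_le_of_lt hk),
          Nat.sub_eq_zero_of_le hk.le, Nat.sub_eq_zero_of_le (Nat.succ_le_of_lt hk)]
        push_cast
        ring
      rw [e, Real.exp_add]
      exact hz.trans (mul_le_mul_of_nonneg_right hb (Real.exp_pos _).le)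
    · rw [(hc i hi).2.2.2.1 ha]
      refine hb.trans (Real.exp_le_exp.2 ?_)
      have hC1 : (0 : ℝ) < C1 := by unfold C1; norm_num
      rcases Nat.lt_or_ge (pack (r (k + 1)) (c i).S) 2 with h1 | h1
      · have P1 : pack (r (k + 1)) (c i).S = 1 := by
          have := pack_pos (t := r (k + 1)) hne
          omega
        rcases Nat.lt_or_ge (pack (r k) (c i).S) 2 with h2 | h2
        · have P0 : pack (r k) (c i).S = 1 := by
            have := pack_pos (t := r k) hne
            omega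
          have hk : js Λ (c i) ≤ k := by
            by_contra hcon
            exact ha ⟨(pack_one hr0 hne).1 P0, Nat.lt_of_not_le hcon⟩
          unfold bud
          rw [P0, P1, min_eq_right hk, min_eq_right (hk.trans (Nat.le_succ k)),
            Nat.succ_sub hk]
          push_cast
          linarith
        · have hk := lt_js_of_pack (Λ := Λ) hne h2
          unfold bud kap aa
          rw [P1, min_eq_left hk.le, min_eq_left (Nat.succ_le_of_lt hk),
            Nat.sub_eq_zero_of_le hk.le, Nat.sub_eq_zero_of_le (Nat.succ_le_of_lt hk)]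
          have h2' : (2 : ℝ) ≤ pack (r k) (c i).S := by exact_mod_cast h2
          push_cast
          nlinarith
      · have hd := pack_double (hp.chain i hi (by omega)) h1
        have hk := lt_js_of_pack (Λ := Λ) hne h1
        have hk' : k < js Λ (c i) := (Nat.lt_succ_self k).trans hk
        unfold bud kap aa
        rw [min_eq_left hk'.le, min_eq_left hk.le,
          Nat.sub_eq_zero_of_le hk'.le, Nat.sub_eq_zero_of_le hk.le]
        have h1' : (2 : ℝ) ≤ pack (r (k + 1)) (c i).S := by exact_mod_cast h1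
        have hd' : 2 * (pack (r (k + 1)) (c i).S : ℝ) ≤ pack (r k) (c i).S := by exact_mod_cast hd
        push_cast
        nlinarith
  · intro i hi h
    rw [hj i hi] at h
    have hk : js Λ (c i) < k := by
      unfold tau at h
      omega
    have ha : ¬ Active Λ k (c i) := fun ha => absurd ha.2 (by omega)
    rw [(hc i hi).2.2.2.1 ha]
    rcases Nat.lt_or_ge (tau (js Λ (c i))) k with h3 | h3
    · exact hp.bdB i hi h3
    · have h4 : tau (js Λ (c i)) = k := by omega
      have hne : (c i).S.Nonempty := (hp.wf i hi).ne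
      have hb := hp.bdA i hi h4.ge
      have hE := (js_le_iff hne k).1 hk.le
      have P0 : pack (r k) (c i).S = 1 := (pack_one (by linarith) hne).2 hE.1
      refine hb.trans (Real.exp_le_exp.2 ?_)
      unfold bud fin
      rw [P0, min_eq_right hk.le, h4]
      push_cast
      linarith

theorem stepF (G : GField Λ β) (hβ : 0 < β) (hβ1 : kap + C1 ≤ 2 * Real.pi ^ 2 / β / 1936)
    (h : V → ℝ) (θ : ℝ) {B0 : ℝ} (k : ℕ)
    (H : ∀ (ι : Type) (s : Finset ι) (c : ι → Cl), Pre Λ B0 (k + 1) s c → Good G h θ s c) :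
    ∀ (ι : Type) (s : Finset ι) (c : ι → Cl), Post Λ B0 k s c → Good G h θ s c := by
  intro ι s c hp
  obtain ⟨c', hJ, hc⟩ := extract_step G hβ hβ1 hp
  have := H ι s c' (post_to_pre hp hc)
  unfold Good at this ⊢
  rwa [hJ, hJ] at this

end Pool.Agent.LRT
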