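import Pool.Agent.LRT.StepG
import Pool.Agent.LRT.StepF
import Pool.Agent.LRT.Final
import Pool.Agent.LRT.SiteX
import Pool.Agent.LRT.PreZero
import Pool.Agent.LRT.Pois
import Pool.Agent.LRT.Gaus

/-!
# T3: assembly
-/

set_option autoImplicit false

noncomputable section

open scoped BigOperators
open MeasureTheory

namespace Pool.Agent.LRT

variable {Λ : Finset V} {β : ℝ}

/-- Downward induction over the stages. -/
theorem all_pre (G : GField Λ β) (hβ : 0 < β) (hβ1 : kap + C1 ≤ 2 * Real.pi ^ 2 / β / 1936)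
    {h : V → ℝ} (hh : Off Λ h) {B0 : ℝ} (hB : 1000000 ≤ B0) (k : ℕ) :
    ∀ (ι : Type) (s : Finset ι) (c : ι → Cl), Pre Λ B0 k s c →
      Good G h (Real.exp (-(3000 * Real.exp (C1 - B0) * Dir h))) s c := by
  obtain ⟨K, hK⟩ := js_bound Λ
  -- `k ≥ tau K + 1`: everything is frozen
  have base : ∀ k, tau K < k → ∀ (ι : Type) (s : Finset ι) (c : ι → Cl), Pre Λ B0 k s c →
      Good G h (Real.exp (-(3000 * Real.exp (C1 - B0) * Dir h))) s c := by
    intro k hk ι s c hp
    refine frozen_good G hh hB hp fun i hi => ?_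
    have := hK (c i) (hp.wf i hi)
    unfold tau at hk ⊢
    omega
  -- induction on the number of remaining stages
  have step : ∀ n k, tau K < k + n → ∀ (ι : Type) (s : Finset ι) (c : ι → Cl), Pre Λ B0 k s c →
      Good G h (Real.exp (-(3000 * Real.exp (C1 - B0) * Dir h))) s c := by
    intro n
    induction n with
    | zero => intro k hk; exact base k (by simpa using hk)
    | succ n ih =>
      intro k hk
      exact stepG G h _ hB k (stepF G hβ hβ1 h _ k (ih (k + 1) (by omega)))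
  exact step (tau K + 1) k (by omega)

/-- Lower bound for the theta function with explicit constants. -/
theorem theta_lower (Λ : Finset V) {β : ℝ} (hβ : 0 < β)
    (hβ1 : kap + C1 ≤ 2 * Real.pi ^ 2 / β / 1936)
    {B0 : ℝ} (hB : 1000000 ≤ B0) (hB2 : B0 + C1 + 3 ≤ Real.pi ^ 2 / (4 * β))
    (h : V → ℝ) (hh : Off Λ h) :
    Real.exp (-(3000 * Real.exp (C1 - B0) * Dir h)) *
        ∑' ψ : Λ → ℤ, Real.exp (-(β / 2) * Dir (ext Λ ψ)) ≤
      ∑' ψ : Λ → ℤ, Real.exp (-(β / 2) * Dir (fun x => ext Λ ψ x - h x)) := by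
  obtain ⟨G⟩ := gfield_exists Λ hβ
  obtain ⟨c, hc, hrep⟩ := theta_rep G hβ
  have hg : 0 < Real.pi ^ 2 / (4 * β) := by positivity
  have h1 := site_good G h (Real.exp_nonneg (-(3000 * Real.exp (C1 - B0) * Dir h))) hg
    (fun q hq => all_pre G hβ hβ1 hh hB 0 _ Λ _ (pre_zero (by linarith) hB2 hq))
  have e0 := (hrep 0 (fun _ _ => rfl)).2
  have e1 := (hrep h hh).2
  simp only [Pi.zero_apply, sub_zero, zero_add] at e0
  rw [e0, e1]
  calc _ = c * (Real.exp (-(3000 * Real.exp (C1 - B0) * Dir h)) *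
        ∫ ω, ∏ x ∈ Λ, lam (Real.pi ^ 2 / (4 * β)) (G.φ ω x) ∂G.μ) := by ring
    _ ≤ _ := mul_le_mul_of_nonneg_left h1 hc.le

end Pool.Agent.LRT
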