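import Pool.Agent.LRT.Defs

/-!
# LR-T3-Merge: the merging lemma (0.8 h)

PLAN.  All integrands are bounded (finite products of `fac`, measurable in `ω` by `G.meas`), `G.μ` is a
probability measure: everything is integrable (prove one lemma `int_prod`: for `s : Finset ι`,
`Integrable (fun ω => ∏ i ∈ s, fac G h (c i) ω) G.μ`, via `Measurable` + bound `∏ (1+|z|)`).
* `fac_mrg`: with `α i ω := 2π (ip Λ h (c i).R + ip Λ (G.φ ω) (c i).v)`,
  `fac G h (mrg c σ b z) ω = 1 + z * cos (∑ i ∈ b, σ i * α i ω)` (linearity of `ip`, push casts).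
* Induction on the number of blocks. Claim for all `n`, `BB` with `BB.card = n`, `σ = ±1`, `z`:
  if every `b ∈ BB` is `⊆ s`, nonempty, `ConnR R b`, blocks pairwise disjoint, and
  `0 ≤ z b ≤ (∏ i ∈ b, (c i).z) * 3 ^ e BB b`,  `e BB b := ∑ i ∈ b, card {j ∈ s | j ≠ i ∧ R i j ∧ (j ∈ b ∨ ∀ b' ∈ BB, j ∉ b')}`
  then `Good G h θ BB (fun b => mrg c σ b (z b))`.
  - If no two different blocks are joined by an `R`-edge: `e BB b ≤ ∑ i ∈ b, degR R s i`, so
    `z b ≤ ∏ i ∈ b, 3 ^ degR R s i * (c i).z` and `H` applies.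
  - Otherwise `b1 ≠ b2 ∈ BB`, `i ∈ b1`, `j ∈ b2`, `R i j`. Pointwise identity
    `(1+z1 cos a)(1+z2 cos b) = 1/3(1+3z1 cos a) + 1/3(1+3z2 cos b) + 1/6(1+3z1z2 cos(a+b)) + 1/6(1+3z1z2 cos(a-b))`
    gives `J(BB) = 1/3 J(BB.erase b2, z[b1 ↦ 3 z1]) + 1/3 J(BB.erase b1, z[b2 ↦ 3 z2])
       + 1/6 J(BB', σ, z[b1∪b2 ↦ 3 z1 z2]) + 1/6 J(BB', σ', same)`, `BB' = insert (b1 ∪ b2) ((BB.erase b1).erase b2)`,
    `σ' = σ` off `b2`, `-σ` on `b2` (all four have one block less; `b1 ∪ b2 ∉` the rest by disjointness; the other blocks do not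
    change under `σ → σ'` since they are disjoint from `b2`).  `e` increases by at least one for the surviving block (the edge `i j`:
    `j` becomes dropped), does not decrease for the others, and `e(b1 ∪ b2) ≥ e b1 + e b2 + 1`.
    `Good` is closed under nonnegative combinations (both for `h` and for `0`): `θ J 0 = ∑ w (θ J_w 0) ≤ ∑ w J_w h`.
* Start: `BB = s.image singleton` (or `s.map`), `σ = 1`, `z b = ∏ i ∈ b, (c i).z`; `e = 0` there; `J` of this family is `J G h s c`.
-/

set_option autoImplicit false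

noncomputable section

open scoped BigOperators
open MeasureTheory

namespace Pool.Agent.LRT

variable {Λ : Finset V} {β : ℝ}

/-- The angle of a cluster. -/
private def al (G : GField Λ β) (h : V → ℝ) {ι : Type} (c : ι → Cl) (ω : G.Ω) (i : ι) : ℝ :=
  2 * Real.pi * (ip Λ h (c i).R + ip Λ (G.φ ω) (c i).v)

/-- The factor of a block. -/
private def tf {ι : Type} (a : ι → ℝ) (σ : ι → ℤ) (z : Finset ι → ℝ) (b : Finset ι) : ℝ :=
  1 + z b * Real.cos (∑ i ∈ b, (σ i : ℝ) * a i)

private theorem al_meas (G : GField Λ β) (h : V → ℝ) {ι : Type} (c : ι → Cl) (i : ι) :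
    Measurable fun ω => al G h c ω i := by
  unfold al ip
  have := G.meas
  fun_prop

private theorem ip_sum (f : V → ℝ) {ι : Type} (b : Finset ι) (w : ι → V → ℝ) (σ : ι → ℤ) :
    ip Λ f (fun x => ∑ i ∈ b, (σ i : ℝ) * w i x) = ∑ i ∈ b, (σ i : ℝ) * ip Λ f (w i) := by
  unfold ip
  simp only [Finset.mul_sum]
  rw [Finset.sum_comm]
  refine Finset.sum_congr rfl fun i _ => Finset.sum_congr rfl fun x _ => ?_
  ring

private theorem fac_mrg (G : GField Λ β) (h : V → ℝ) {ι : Type} (c : ι → Cl) (σ : ι → ℤ)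
    (b : Finset ι) (z : Finset ι → ℝ) (ω : G.Ω) :
    fac G h (mrg c σ b (z b)) ω = tf (al G h c ω) σ z b := by
  have e1 : (mrg c σ b (z b)).R = fun x => ∑ i ∈ b, (σ i : ℝ) * (c i).R x := by
    funext x
    simp only [mrg, Cl.R]
    push_cast
    rfl
  have e2 : (mrg c σ b (z b)).v = fun x => ∑ i ∈ b, (σ i : ℝ) * (c i).v x := rfl
  have e3 : (mrg c σ b (z b)).z = z b := rfl
  unfold fac tf
  rw [e1, e2, e3, ip_sum, ip_sum]
  congr 3
  unfold al
  rw [← Finset.sum_add_distrib, Finset.mul_sum]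
  refine Finset.sum_congr rfl fun i _ => ?_
  ring

private theorem J_eq (G : GField Λ β) (h : V → ℝ) {ι : Type} (c : ι → Cl) (σ : ι → ℤ)
    (BB : Finset (Finset ι)) (z : Finset ι → ℝ) :
    J G h BB (fun b => mrg c σ b (z b)) = ∫ ω, ∏ b ∈ BB, tf (al G h c ω) σ z b ∂G.μ := by
  unfold J
  simp only [fac_mrg]

private theorem int_tf (G : GField Λ β) (h : V → ℝ) {ι : Type} (c : ι → Cl) (σ : ι → ℤ)
    (BB : Finset (Finset ι)) (z : Finset ι → ℝ) :
    Integrable (fun ω => ∏ b ∈ BB, tf (al G h c ω) σ z b) G.μ := by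
  have hm : Measurable (fun ω => ∏ b ∈ BB, tf (al G h c ω) σ z b) := by
    refine Finset.measurable_prod _ fun b _ => ?_
    unfold tf
    have : Measurable fun ω => ∑ i ∈ b, (σ i : ℝ) * al G h c ω i :=
      Finset.measurable_sum _ fun i _ => (al_meas G h c i).const_mul _
    exact ((Real.measurable_cos.comp this).const_mul _).const_add _
  refine Integrable.of_bound hm.aestronglyMeasurable (∏ b ∈ BB, (1 + |z b|)) ?_
  refine Filter.Eventually.of_forall fun ω => ?_
  rw [Real.norm_eq_abs, Finset.abs_prod]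
  refine Finset.prod_le_prod (fun _ _ => abs_nonneg _) fun b _ => ?_
  unfold tf
  refine (abs_add_le _ _).trans ?_
  rw [abs_one, abs_mul]
  have h1 := Real.abs_cos_le_one (∑ i ∈ b, (σ i : ℝ) * al G h c ω i)
  have h2 := abs_nonneg (z b)
  nlinarith

private theorem trig_id (z1 z2 a b : ℝ) :
    (1 + z1 * Real.cos a) * (1 + z2 * Real.cos b) =
      1 / 3 * (1 + 3 * z1 * Real.cos a) + 1 / 3 * (1 + 3 * z2 * Real.cos b) +
      1 / 6 * (1 + 3 * z1 * z2 * Real.cos (a + b)) + 1 / 6 * (1 + 3 * z1 * z2 * Real.cos (a - b)) := by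
  rw [Real.cos_add, Real.cos_sub]
  ring

private theorem tf_id {ι : Type} [DecidableEq ι] (a : ι → ℝ) (σ : ι → ℤ) (z : Finset ι → ℝ)
    (rest : Finset (Finset ι)) (b1 b2 : Finset ι) (h12 : b1 ≠ b2) (h1 : b1 ∉ rest) (h2 : b2 ∉ rest)
    (hu : b1 ∪ b2 ∉ rest) (hd : Disjoint b1 b2) (hd2 : ∀ b ∈ rest, Disjoint b b2) :
    ∏ b ∈ insert b1 (insert b2 rest), tf a σ z b =
      1 / 3 * ∏ b ∈ insert b1 rest, tf a σ (Function.update z b1 (3 * z b1)) b +
      1 / 3 * ∏ b ∈ insert b2 rest, tf a σ (Function.update z b2 (3 * z b2)) b +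
      1 / 6 * ∏ b ∈ insert (b1 ∪ b2) rest,
        tf a σ (Function.update z (b1 ∪ b2) (3 * z b1 * z b2)) b +
      1 / 6 * ∏ b ∈ insert (b1 ∪ b2) rest,
        tf a (fun i => if i ∈ b2 then -σ i else σ i)
          (Function.update z (b1 ∪ b2) (3 * z b1 * z b2)) b := by
  have h1' : b1 ∉ insert b2 rest := by simp [h12, h1]
  rw [Finset.prod_insert h1', Finset.prod_insert h2, Finset.prod_insert h1, Finset.prod_insert h2,
    Finset.prod_insert hu, Finset.prod_insert hu]
  have key : ∀ (u : Finset ι) (t : ℝ), u ∉ rest →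
      ∏ b ∈ rest, tf a σ (Function.update z u t) b = ∏ b ∈ rest, tf a σ z b := by
    intro u t hu
    refine Finset.prod_congr rfl fun b hb => ?_
    have : b ≠ u := fun h => hu (h ▸ hb)
    simp only [tf, Function.update_of_ne this]
  have key2 : ∏ b ∈ rest, tf a (fun i => if i ∈ b2 then -σ i else σ i)
      (Function.update z (b1 ∪ b2) (3 * z b1 * z b2)) b = ∏ b ∈ rest, tf a σ z b := by
    refine Finset.prod_congr rfl fun b hb => ?_
    have : b ≠ b1 ∪ b2 := fun h => hu (h ▸ hb)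
    simp only [tf, Function.update_of_ne this]
    congr 3
    refine Finset.sum_congr rfl fun i hi => ?_
    have : i ∉ b2 := Finset.disjoint_left.1 (hd2 b hb) hi
    rw [if_neg this]
  rw [key _ _ h1, key _ _ h2, key _ _ hu, key2]
  have e1 : tf a σ (Function.update z b1 (3 * z b1)) b1 =
      1 + 3 * z b1 * Real.cos (∑ i ∈ b1, (σ i : ℝ) * a i) := by
    simp only [tf, Function.update_self]
  have e2 : tf a σ (Function.update z b2 (3 * z b2)) b2 =
      1 + 3 * z b2 * Real.cos (∑ i ∈ b2, (σ i : ℝ) * a i) := by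
    simp only [tf, Function.update_self]
  have e3 : tf a σ (Function.update z (b1 ∪ b2) (3 * z b1 * z b2)) (b1 ∪ b2) =
      1 + 3 * z b1 * z b2 * Real.cos ((∑ i ∈ b1, (σ i : ℝ) * a i) + ∑ i ∈ b2, (σ i : ℝ) * a i) := by
    simp only [tf, Function.update_self]
    rw [Finset.sum_union hd]
  have e4 : tf a (fun i => if i ∈ b2 then -σ i else σ i)
      (Function.update z (b1 ∪ b2) (3 * z b1 * z b2)) (b1 ∪ b2) =
      1 + 3 * z b1 * z b2 * Real.cos ((∑ i ∈ b1, (σ i : ℝ) * a i) - ∑ i ∈ b2, (σ i : ℝ) * a i) := by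
    simp only [tf, Function.update_self]
    rw [Finset.sum_union hd]
    congr 3
    rw [sub_eq_add_neg, ← Finset.sum_neg_distrib]
    congr 1
    · refine Finset.sum_congr rfl fun i hi => ?_
      rw [if_neg (Finset.disjoint_left.1 hd hi)]
    · refine Finset.sum_congr rfl fun i hi => ?_
      rw [if_pos hi]
      push_cast
      ring
  rw [e1, e2, e3, e4]
  have e5 : tf a σ z b1 = 1 + z b1 * Real.cos (∑ i ∈ b1, (σ i : ℝ) * a i) := rfl
  have e6 : tf a σ z b2 = 1 + z b2 * Real.cos (∑ i ∈ b2, (σ i : ℝ) * a i) := rfl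
  have := trig_id (z b1) (z b2) (∑ i ∈ b1, (σ i : ℝ) * a i) (∑ i ∈ b2, (σ i : ℝ) * a i)
  rw [← mul_assoc, e5, e6, this]
  ring

private theorem J_id (G : GField Λ β) (h : V → ℝ) {ι : Type} [DecidableEq ι] (c : ι → Cl)
    (σ : ι → ℤ) (z : Finset ι → ℝ)
    (rest : Finset (Finset ι)) (b1 b2 : Finset ι) (h12 : b1 ≠ b2) (h1 : b1 ∉ rest) (h2 : b2 ∉ rest)
    (hu : b1 ∪ b2 ∉ rest) (hd : Disjoint b1 b2) (hd2 : ∀ b ∈ rest, Disjoint b b2) :
    J G h (insert b1 (insert b2 rest)) (fun b => mrg c σ b (z b)) =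
      1 / 3 * J G h (insert b1 rest) (fun b => mrg c σ b (Function.update z b1 (3 * z b1) b)) +
      1 / 3 * J G h (insert b2 rest) (fun b => mrg c σ b (Function.update z b2 (3 * z b2) b)) +
      1 / 6 * J G h (insert (b1 ∪ b2) rest)
        (fun b => mrg c σ b (Function.update z (b1 ∪ b2) (3 * z b1 * z b2) b)) +
      1 / 6 * J G h (insert (b1 ∪ b2) rest)
        (fun b => mrg c (fun i => if i ∈ b2 then -σ i else σ i) b
          (Function.update z (b1 ∪ b2) (3 * z b1 * z b2) b)) := by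
  rw [J_eq, J_eq, J_eq, J_eq, J_eq]
  simp only [← integral_const_mul]
  rw [← integral_add, ← integral_add, ← integral_add]
  · refine integral_congr_ae (Filter.Eventually.of_forall fun ω => ?_)
    exact tf_id (al G h c ω) σ z rest b1 b2 h12 h1 h2 hu hd hd2
  all_goals first
    | exact (int_tf G h c _ _ _).const_mul _
    | exact ((int_tf G h c _ _ _).const_mul _).add ((int_tf G h c _ _ _).const_mul _)
    | exact (((int_tf G h c _ _ _).const_mul _).add ((int_tf G h c _ _ _).const_mul _)).add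
        ((int_tf G h c _ _ _).const_mul _)

/-- Number of relevant neighbours. -/
private def mf {ι : Type} (R : ι → ι → Prop) (s : Finset ι) (BB : Finset (Finset ι))
    (u : Finset ι) (i : ι) : ℕ := by
  classical
  exact (s.filter fun j => j ≠ i ∧ R i j ∧ (j ∈ u ∨ ∀ b' ∈ BB, j ∉ b')).card

private theorem mf_le {ι : Type} (R : ι → ι → Prop) (s : Finset ι) {BB BB' : Finset (Finset ι)}
    {b u : Finset ι} (hbu : b ⊆ u) (hdrop : ∀ j, (∀ b' ∈ BB, j ∉ b') → (∀ b' ∈ BB', j ∉ b'))
    (i : ι) : mf R s BB b i ≤ mf R s BB' u i := by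
  classical
  unfold mf
  refine Finset.card_le_card fun j hj => ?_
  rw [Finset.mem_filter] at hj ⊢
  refine ⟨hj.1, hj.2.1, hj.2.2.1, ?_⟩
  rcases hj.2.2.2 with h | h
  · exact Or.inl (hbu h)
  · exact Or.inr (hdrop j h)

private theorem mf_lt {ι : Type} (R : ι → ι → Prop) (s : Finset ι) {BB BB' : Finset (Finset ι)}
    {b u : Finset ι} (hbu : b ⊆ u) (hdrop : ∀ j, (∀ b' ∈ BB, j ∉ b') → (∀ b' ∈ BB', j ∉ b'))
    {i0 j0 : ι} (hj : j0 ∈ s) (hne : j0 ≠ i0) (hR : R i0 j0)
    (h1 : j0 ∈ u ∨ ∀ b' ∈ BB', j0 ∉ b') (h2 : j0 ∉ b) (h3 : ∃ b' ∈ BB, j0 ∈ b') :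
    mf R s BB b i0 < mf R s BB' u i0 := by
  classical
  unfold mf
  refine Finset.card_lt_card ?_
  rw [Finset.ssubset_iff_of_subset]
  · refine ⟨j0, ?_, ?_⟩
    · rw [Finset.mem_filter]
      exact ⟨hj, hne, hR, h1⟩
    · rw [Finset.mem_filter]
      rintro ⟨-, -, -, h | h⟩
      · exact h2 h
      · obtain ⟨b', hb', hjb⟩ := h3
        exact h b' hb' hjb
  · intro j hj
    rw [Finset.mem_filter] at hj ⊢
    refine ⟨hj.1, hj.2.1, hj.2.2.1, ?_⟩
    rcases hj.2.2.2 with h | h
    · exact Or.inl (hbu h)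
    · exact Or.inr (hdrop j h)

/-- Conditions on the families of blocks in the induction. -/
private structure Cnd {ι : Type} (s : Finset ι) (c : ι → Cl) (R : ι → ι → Prop)
    (BB : Finset (Finset ι)) (z : Finset ι → ℝ) : Prop where
  sub : ∀ b ∈ BB, b ⊆ s
  ne : ∀ b ∈ BB, b.Nonempty
  conn : ∀ b ∈ BB, ConnR R b
  disj : ∀ b ∈ BB, ∀ b' ∈ BB, b ≠ b' → Disjoint b b'
  z0 : ∀ b ∈ BB, 0 ≤ z b
  zle : ∀ b ∈ BB, z b ≤ (∏ i ∈ b, (c i).z) * 3 ^ (∑ i ∈ b, mf R s BB b i)

private theorem cnd_del {ι : Type} [DecidableEq ι] {s : Finset ι} {c : ι → Cl}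
    (hz : ∀ i ∈ s, 0 ≤ (c i).z) {R : ι → ι → Prop} {rest : Finset (Finset ι)} {b1 b2 : Finset ι}
    (h12 : b1 ≠ b2) (h1 : b1 ∉ rest) (h2 : b2 ∉ rest) {z : Finset ι → ℝ} {i0 j0 : ι}
    (hi : i0 ∈ b1) (hj : j0 ∈ b2) (hR : R i0 j0) (hC : Cnd s c R (insert b1 (insert b2 rest)) z) :
    Cnd s c R (insert b1 rest) (Function.update z b1 (3 * z b1)) := by
  have hsub : insert b1 rest ⊆ insert b1 (insert b2 rest) :=
    Finset.insert_subset_insert _ (Finset.subset_insert _ _)
  have m1 : b1 ∈ insert b1 (insert b2 rest) := Finset.mem_insert_self _ _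
  have m2 : b2 ∈ insert b1 (insert b2 rest) :=
    Finset.mem_insert_of_mem (Finset.mem_insert_self _ _)
  have hdrop : ∀ j, (∀ b' ∈ insert b1 (insert b2 rest), j ∉ b') → (∀ b' ∈ insert b1 rest, j ∉ b') :=
    fun j h b' hb' => h b' (hsub hb')
  have hj1 : j0 ∉ b1 := Finset.disjoint_right.1 (hC.disj b1 m1 b2 m2 h12) hj
  have hpos : ∀ b ∈ insert b1 (insert b2 rest), 0 ≤ ∏ i ∈ b, (c i).z := fun b hb =>
    Finset.prod_nonneg fun i hi => hz i (hC.sub b hb hi)
  refine ⟨fun b hb => hC.sub b (hsub hb), fun b hb => hC.ne b (hsub hb),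
    fun b hb => hC.conn b (hsub hb), fun b hb b' hb' => hC.disj b (hsub hb) b' (hsub hb'), ?_, ?_⟩
  · intro b hb
    by_cases hbb : b = b1
    · subst hbb
      rw [Function.update_self]
      have := hC.z0 b m1
      positivity
    · rw [Function.update_of_ne hbb]
      exact hC.z0 b (hsub hb)
  · intro b hb
    by_cases hbb : b = b1
    · subst hbb
      rw [Function.update_self]
      have hlt : ∑ i ∈ b, mf R s (insert b (insert b2 rest)) b i <
          ∑ i ∈ b, mf R s (insert b rest) b i := by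
        refine Finset.sum_lt_sum (fun i _ => mf_le R s (Finset.Subset.refl _) hdrop i) ⟨i0, hi, ?_⟩
        refine mf_lt R s (Finset.Subset.refl _) hdrop (hC.sub b2 m2 hj) ?_ hR (Or.inr ?_) hj1
          ⟨b2, m2, hj⟩
        · rintro rfl
          exact hj1 hi
        · intro b' hb' hjb
          rcases Finset.mem_insert.1 hb' with rfl | hb''
          · exact hj1 hjb
          · have hne : b' ≠ b2 := fun h => h2 (h ▸ hb'')
            exact Finset.disjoint_left.1 (hC.disj b' (hsub hb') b2 m2 hne) hjb hj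
      have e := hC.zle b m1
      calc 3 * z b ≤ 3 * ((∏ i ∈ b, (c i).z) * 3 ^ (∑ i ∈ b, mf R s (insert b (insert b2 rest)) b i)) := by
            linarith
        _ = (∏ i ∈ b, (c i).z) * 3 ^ (∑ i ∈ b, mf R s (insert b (insert b2 rest)) b i + 1) := by
            rw [pow_succ]
            ring
        _ ≤ (∏ i ∈ b, (c i).z) * 3 ^ (∑ i ∈ b, mf R s (insert b rest) b i) :=
            mul_le_mul_of_nonneg_left (pow_le_pow_right₀ (by norm_num) hlt) (hpos b m1)
    · rw [Function.update_of_ne hbb]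
      refine (hC.zle b (hsub hb)).trans ?_
      refine mul_le_mul_of_nonneg_left (pow_le_pow_right₀ (by norm_num) ?_) (hpos b (hsub hb))
      exact Finset.sum_le_sum fun i _ => mf_le R s (Finset.Subset.refl _) hdrop i

private theorem conn_union {ι : Type} [DecidableEq ι] {R : ι → ι → Prop}
    (Rs : ∀ i j, R i j → R j i) {b1 b2 : Finset ι} (_hd : Disjoint b1 b2)
    (c1 : ConnR R b1) (c2 : ConnR R b2) {i0 j0 : ι} (hi : i0 ∈ b1) (hj : j0 ∈ b2) (hR : R i0 j0) :
    ConnR R (b1 ∪ b2) := by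
  intro X hX hne hX'
  by_cases h1 : (X ∩ b1).Nonempty ∧ X ∩ b1 ≠ b1
  · obtain ⟨i, hi, j, hj, hjX, hRij⟩ := c1 (X ∩ b1) Finset.inter_subset_right h1.1 h1.2
    refine ⟨i, (Finset.mem_inter.1 hi).1, j, Finset.mem_union_left _ hj, ?_, hRij⟩
    intro hx
    exact hjX (Finset.mem_inter.2 ⟨hx, hj⟩)
  by_cases h2 : (X ∩ b2).Nonempty ∧ X ∩ b2 ≠ b2
  · obtain ⟨i, hi, j, hj, hjX, hRij⟩ := c2 (X ∩ b2) Finset.inter_subset_right h2.1 h2.2
    refine ⟨i, (Finset.mem_inter.1 hi).1, j, Finset.mem_union_right _ hj, ?_, hRij⟩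
    intro hx
    exact hjX (Finset.mem_inter.2 ⟨hx, hj⟩)
  have d1 : X ∩ b1 = ∅ ∨ b1 ⊆ X := by
    by_cases h : (X ∩ b1).Nonempty
    · right
      by_contra hc
      exact h1 ⟨h, fun he => hc (Finset.inter_eq_right.1 he)⟩
    · left
      exact Finset.not_nonempty_iff_eq_empty.1 h
  have d2 : X ∩ b2 = ∅ ∨ b2 ⊆ X := by
    by_cases h : (X ∩ b2).Nonempty
    · right
      by_contra hc
      exact h2 ⟨h, fun he => hc (Finset.inter_eq_right.1 he)⟩
    · left
      exact Finset.not_nonempty_iff_eq_empty.1 h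
  rcases d1 with d1 | d1 <;> rcases d2 with d2 | d2
  · obtain ⟨x, hx⟩ := hne
    rcases Finset.mem_union.1 (hX hx) with h | h
    · exact absurd (Finset.mem_inter.2 ⟨hx, h⟩) (by rw [d1]; simp)
    · exact absurd (Finset.mem_inter.2 ⟨hx, h⟩) (by rw [d2]; simp)
  · refine ⟨j0, d2 hj, i0, Finset.mem_union_left _ hi, ?_, Rs _ _ hR⟩
    intro hx
    exact absurd (Finset.mem_inter.2 ⟨hx, hi⟩) (by rw [d1]; simp)
  · refine ⟨i0, d1 hi, j0, Finset.mem_union_right _ hj, ?_, hR⟩
    intro hx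
    exact absurd (Finset.mem_inter.2 ⟨hx, hj⟩) (by rw [d2]; simp)
  · exact absurd (Finset.Subset.antisymm hX (Finset.union_subset d1 d2)) hX'

private theorem cnd_mrg {ι : Type} [DecidableEq ι] {s : Finset ι} {c : ι → Cl}
    (hz : ∀ i ∈ s, 0 ≤ (c i).z) {R : ι → ι → Prop} (Rs : ∀ i j, R i j → R j i)
    {rest : Finset (Finset ι)} {b1 b2 : Finset ι}
    (h12 : b1 ≠ b2) (h1 : b1 ∉ rest) (h2 : b2 ∉ rest) (hu : b1 ∪ b2 ∉ rest)
    {z : Finset ι → ℝ} {i0 j0 : ι}
    (hi : i0 ∈ b1) (hj : j0 ∈ b2) (hR : R i0 j0) (hC : Cnd s c R (insert b1 (insert b2 rest)) z) :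
    Cnd s c R (insert (b1 ∪ b2) rest) (Function.update z (b1 ∪ b2) (3 * z b1 * z b2)) := by
  have hsub : rest ⊆ insert b1 (insert b2 rest) :=
    (Finset.subset_insert _ _).trans (Finset.subset_insert _ _)
  have m1 : b1 ∈ insert b1 (insert b2 rest) := Finset.mem_insert_self _ _
  have m2 : b2 ∈ insert b1 (insert b2 rest) :=
    Finset.mem_insert_of_mem (Finset.mem_insert_self _ _)
  have hd : Disjoint b1 b2 := hC.disj b1 m1 b2 m2 h12
  have hdrop : ∀ j, (∀ b' ∈ insert b1 (insert b2 rest), j ∉ b') →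
      (∀ b' ∈ insert (b1 ∪ b2) rest, j ∉ b') := by
    intro j h b' hb'
    rcases Finset.mem_insert.1 hb' with rfl | hb''
    · rw [Finset.mem_union]
      rintro (hx | hx)
      · exact h b1 m1 hx
      · exact h b2 m2 hx
    · exact h b' (hsub hb'')
  have hpos : ∀ b ∈ insert b1 (insert b2 rest), 0 ≤ ∏ i ∈ b, (c i).z := fun b hb =>
    Finset.prod_nonneg fun i hi => hz i (hC.sub b hb hi)
  have hdu : ∀ b ∈ rest, Disjoint b (b1 ∪ b2) := by
    intro b hb
    rw [Finset.disjoint_union_right]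
    exact ⟨hC.disj b (hsub hb) b1 m1 fun h => h1 (h ▸ hb),
      hC.disj b (hsub hb) b2 m2 fun h => h2 (h ▸ hb)⟩
  have hj1 : j0 ∉ b1 := Finset.disjoint_right.1 hd hj
  refine ⟨?_, ?_, ?_, ?_, ?_, ?_⟩
  · intro b hb
    rcases Finset.mem_insert.1 hb with rfl | hb'
    · exact Finset.union_subset (hC.sub b1 m1) (hC.sub b2 m2)
    · exact hC.sub b (hsub hb')
  · intro b hb
    rcases Finset.mem_insert.1 hb with rfl | hb'
    · exact ⟨i0, Finset.mem_union_left _ hi⟩
    · exact hC.ne b (hsub hb')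
  · intro b hb
    rcases Finset.mem_insert.1 hb with rfl | hb'
    · exact conn_union Rs hd (hC.conn b1 m1) (hC.conn b2 m2) hi hj hR
    · exact hC.conn b (hsub hb')
  · intro b hb b' hb' hne
    rcases Finset.mem_insert.1 hb with rfl | hbb
    · rcases Finset.mem_insert.1 hb' with rfl | hbb'
      · exact absurd rfl hne
      · exact (hdu b' hbb').symm
    · rcases Finset.mem_insert.1 hb' with rfl | hbb'
      · exact hdu b hbb
      · exact hC.disj b (hsub hbb) b' (hsub hbb') hne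
  · intro b hb
    rcases Finset.mem_insert.1 hb with rfl | hb'
    · rw [Function.update_self]
      have e1 := hC.z0 b1 m1
      have e2 := hC.z0 b2 m2
      positivity
    · have : b ≠ b1 ∪ b2 := fun h => hu (h ▸ hb')
      rw [Function.update_of_ne this]
      exact hC.z0 b (hsub hb')
  · intro b hb
    rcases Finset.mem_insert.1 hb with rfl | hb'
    · rw [Function.update_self]
      have hlt : ∑ i ∈ b1, mf R s (insert b1 (insert b2 rest)) b1 i <
          ∑ i ∈ b1, mf R s (insert (b1 ∪ b2) rest) (b1 ∪ b2) i := by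
        refine Finset.sum_lt_sum (fun i _ => mf_le R s Finset.subset_union_left hdrop i)
          ⟨i0, hi, ?_⟩
        refine mf_lt R s Finset.subset_union_left hdrop (hC.sub b2 m2 hj) ?_ hR
          (Or.inl (Finset.mem_union_right _ hj)) hj1 ⟨b2, m2, hj⟩
        rintro rfl
        exact hj1 hi
      have hle : ∑ i ∈ b2, mf R s (insert b1 (insert b2 rest)) b2 i ≤
          ∑ i ∈ b2, mf R s (insert (b1 ∪ b2) rest) (b1 ∪ b2) i :=
        Finset.sum_le_sum fun i _ => mf_le R s Finset.subset_union_right hdrop i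
      rw [Finset.sum_union hd, Finset.prod_union hd]
      have e1 := hC.zle b1 m1
      have e2 := hC.zle b2 m2
      have p1 := hpos b1 m1
      have p2 := hpos b2 m2
      have e3 : z b1 * z b2 ≤
          ((∏ i ∈ b1, (c i).z) * 3 ^ (∑ i ∈ b1, mf R s (insert b1 (insert b2 rest)) b1 i)) *
          ((∏ i ∈ b2, (c i).z) * 3 ^ (∑ i ∈ b2, mf R s (insert b1 (insert b2 rest)) b2 i)) :=
        mul_le_mul e1 e2 (hC.z0 b2 m2) (by positivity)
      have e4 : (3 : ℝ) ^ (∑ i ∈ b1, mf R s (insert b1 (insert b2 rest)) b1 i + 1 +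
            ∑ i ∈ b2, mf R s (insert b1 (insert b2 rest)) b2 i) ≤
          3 ^ (∑ i ∈ b1, mf R s (insert (b1 ∪ b2) rest) (b1 ∪ b2) i +
            ∑ i ∈ b2, mf R s (insert (b1 ∪ b2) rest) (b1 ∪ b2) i) :=
        pow_le_pow_right₀ (by norm_num) (Nat.add_le_add hlt hle)
      calc 3 * z b1 * z b2 = 3 * (z b1 * z b2) := by ring
        _ ≤ 3 * (((∏ i ∈ b1, (c i).z) * 3 ^ (∑ i ∈ b1, mf R s (insert b1 (insert b2 rest)) b1 i)) *
          ((∏ i ∈ b2, (c i).z) * 3 ^ (∑ i ∈ b2, mf R s (insert b1 (insert b2 rest)) b2 i))) := by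
            linarith
        _ = ((∏ i ∈ b1, (c i).z) * ∏ i ∈ b2, (c i).z) *
          3 ^ (∑ i ∈ b1, mf R s (insert b1 (insert b2 rest)) b1 i + 1 +
            ∑ i ∈ b2, mf R s (insert b1 (insert b2 rest)) b2 i) := by
            rw [pow_add, pow_add]
            ring
        _ ≤ _ := mul_le_mul_of_nonneg_left e4 (mul_nonneg p1 p2)
    · have : b ≠ b1 ∪ b2 := fun h => hu (h ▸ hb')
      rw [Function.update_of_ne this]
      refine (hC.zle b (hsub hb')).trans ?_
      refine mul_le_mul_of_nonneg_left (pow_le_pow_right₀ (by norm_num) ?_) (hpos b (hsub hb'))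
      exact Finset.sum_le_sum fun i _ => mf_le R s (Finset.Subset.refl _) hdrop i

theorem merge_good (G : GField Λ β) (h : V → ℝ) (θ : ℝ) {ι : Type} (s : Finset ι) (c : ι → Cl)
    (hz : ∀ i ∈ s, 0 ≤ (c i).z) (R : ι → ι → Prop) (Rs : ∀ i j, R i j → R j i)
    (H : ∀ (BB : Finset (Finset ι)) (σ : ι → ℤ) (z : Finset ι → ℝ),
      (∀ i, σ i = 1 ∨ σ i = -1) →
      (∀ b ∈ BB, b ⊆ s ∧ b.Nonempty ∧ ConnR R b ∧ 0 ≤ z b ∧
        z b ≤ ∏ i ∈ b, (3 : ℝ) ^ degR R s i * (c i).z) →
      (∀ b ∈ BB, ∀ b' ∈ BB, b ≠ b' → ∀ i ∈ b, ∀ j ∈ b', i ≠ j ∧ ¬ R i j) →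
      Good G h θ BB (fun b => mrg c σ b (z b))) :
    Good G h θ s c := by
  classical
  have main : ∀ n : ℕ, ∀ (BB : Finset (Finset ι)) (σ : ι → ℤ) (z : Finset ι → ℝ), BB.card = n →
      (∀ i, σ i = 1 ∨ σ i = -1) → Cnd s c R BB z → Good G h θ BB (fun b => mrg c σ b (z b)) := by
    intro n
    induction n with
    | zero =>
      intro BB σ z hn hσ hC
      rw [Finset.card_eq_zero] at hn
      subst hn
      exact H ∅ σ z hσ (by simp) (by simp)
    | succ n ih =>
      intro BB σ z hn hσ hC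
      by_cases hE : ∃ b1 ∈ BB, ∃ b2 ∈ BB, b1 ≠ b2 ∧ ∃ i ∈ b1, ∃ j ∈ b2, R i j
      · obtain ⟨b1, m1, b2, m2, h12, i0, hi, j0, hj, hR⟩ := hE
        have m2' : b2 ∈ BB.erase b1 := Finset.mem_erase.2 ⟨h12.symm, m2⟩
        have hBB : BB = insert b1 (insert b2 ((BB.erase b1).erase b2)) := by
          rw [Finset.insert_erase m2', Finset.insert_erase m1]
        have hr1 : b1 ∉ (BB.erase b1).erase b2 := by simp
        have hr2 : b2 ∉ (BB.erase b1).erase b2 := by simp
        have hrs : (BB.erase b1).erase b2 ⊆ BB :=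
          (Finset.erase_subset _ _).trans (Finset.erase_subset _ _)
        have hrc : ((BB.erase b1).erase b2).card + 1 = n := by
          rw [Finset.card_erase_of_mem m2', Finset.card_erase_of_mem m1]
          have : 0 < (BB.erase b1).card := Finset.card_pos.2 ⟨b2, m2'⟩
          rw [Finset.card_erase_of_mem m1] at this
          omega
        have hru : b1 ∪ b2 ∉ (BB.erase b1).erase b2 := by
          intro hmem
          have hne : b1 ∪ b2 ≠ b1 := by
            intro he
            have : j0 ∈ b1 := he ▸ Finset.mem_union_right b1 hj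
            exact Finset.disjoint_right.1 (hC.disj b1 m1 b2 m2 h12) hj this
          exact Finset.disjoint_left.1 (hC.disj _ (hrs hmem) b1 m1 hne)
            (Finset.mem_union_left _ hi) hi
        have hd : Disjoint b1 b2 := hC.disj b1 m1 b2 m2 h12
        have hd2 : ∀ b ∈ (BB.erase b1).erase b2, Disjoint b b2 := fun b hb =>
          hC.disj b (hrs hb) b2 m2 fun he => hr2 (he ▸ hb)
        generalize hrest : (BB.erase b1).erase b2 = rest at *
        subst hBB
        have gA := ih (insert b1 rest) σ (Function.update z b1 (3 * z b1))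
          (by rw [Finset.card_insert_of_notMem hr1, hrc]) hσ
          (cnd_del hz h12 hr1 hr2 hi hj hR hC)
        have gB := ih (insert b2 rest) σ (Function.update z b2 (3 * z b2))
          (by rw [Finset.card_insert_of_notMem hr2, hrc]) hσ
          (cnd_del hz h12.symm hr2 hr1 hj hi (Rs _ _ hR) (by rwa [Finset.insert_comm] at hC))
        have hCu := cnd_mrg hz Rs h12 hr1 hr2 hru hi hj hR hC
        have gC := ih (insert (b1 ∪ b2) rest) σ _
          (by rw [Finset.card_insert_of_notMem hru, hrc]) hσ hCu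
        have gD := ih (insert (b1 ∪ b2) rest) (fun i => if i ∈ b2 then -σ i else σ i) _
          (by rw [Finset.card_insert_of_notMem hru, hrc]) (by
            intro i
            by_cases hi2 : i ∈ b2
            · simp only [if_pos hi2]
              rcases hσ i with h | h
              · right; rw [h]
              · left; rw [h]; norm_num
            · simp only [if_neg hi2]
              exact hσ i) hCu
        unfold Good at gA gB gC gD ⊢
        rw [J_id G h c σ z rest b1 b2 h12 hr1 hr2 hru hd hd2,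
          J_id G 0 c σ z rest b1 b2 h12 hr1 hr2 hru hd hd2]
        linarith
      · push Not at hE
        refine H BB σ z hσ ?_ ?_
        · intro b hb
          refine ⟨hC.sub b hb, hC.ne b hb, hC.conn b hb, hC.z0 b hb, (hC.zle b hb).trans ?_⟩
          rw [Finset.prod_mul_distrib, Finset.prod_pow_eq_pow_sum, mul_comm]
          refine mul_le_mul_of_nonneg_right (pow_le_pow_right₀ (by norm_num) ?_)
            (Finset.prod_nonneg fun i hi => hz i (hC.sub b hb hi))
          refine Finset.sum_le_sum fun i _ => ?_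
          unfold mf degR
          refine Finset.card_le_card fun j hj => ?_
          rw [Finset.mem_filter] at hj ⊢
          exact ⟨hj.1, hj.2.1, hj.2.2.1⟩
        · intro b hb b' hb' hne i hi j hj
          refine ⟨?_, hE b hb b' hb' hne i hi j hj⟩
          rintro rfl
          exact Finset.disjoint_left.1 (hC.disj b hb b' hb' hne) hi hj
  have hinj : Set.InjOn (fun i : ι => ({i} : Finset ι)) s := by
    intro i _ j _ hij
    exact Finset.singleton_injective hij
  have hstart := main _ (s.image fun i => ({i} : Finset ι)) (fun _ => 1)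
    (fun b => ∏ i ∈ b, (c i).z) rfl (fun _ => Or.inl rfl) ?_
  · have hJ : ∀ h' : V → ℝ, J G h' (s.image fun i => ({i} : Finset ι))
        (fun b => mrg c (fun _ => 1) b (∏ i ∈ b, (c i).z)) = J G h' s c := by
      intro h'
      rw [J_eq G h' c (fun _ => 1) _ (fun b => ∏ i ∈ b, (c i).z)]
      unfold J
      refine integral_congr_ae (Filter.Eventually.of_forall fun ω => ?_)
      simp only
      rw [Finset.prod_image hinj]
      refine Finset.prod_congr rfl fun i _ => ?_
      simp only [tf, Finset.prod_singleton, Finset.sum_singleton, fac, al]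
      norm_num
    unfold Good at hstart ⊢
    rw [hJ h, hJ 0] at hstart
    exact hstart
  · refine ⟨?_, ?_, ?_, ?_, ?_, ?_⟩
    · intro b hb
      obtain ⟨i, hi, rfl⟩ := Finset.mem_image.1 hb
      exact Finset.singleton_subset_iff.2 hi
    · intro b hb
      obtain ⟨i, hi, rfl⟩ := Finset.mem_image.1 hb
      exact Finset.singleton_nonempty i
    · intro b hb
      obtain ⟨i, hi, rfl⟩ := Finset.mem_image.1 hb
      intro X hX hne hX'
      exact absurd ((Finset.subset_singleton_iff.1 hX).resolve_left hne.ne_empty) hX'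
    · intro b hb b' hb' hne
      obtain ⟨i, hi, rfl⟩ := Finset.mem_image.1 hb
      obtain ⟨j, hj, rfl⟩ := Finset.mem_image.1 hb'
      rw [Finset.disjoint_singleton]
      rintro rfl
      exact hne rfl
    · intro b hb
      obtain ⟨i, hi, rfl⟩ := Finset.mem_image.1 hb
      simp only [Finset.prod_singleton]
      exact hz i hi
    · intro b hb
      obtain ⟨i, hi, rfl⟩ := Finset.mem_image.1 hb
      simp only [Finset.prod_singleton]
      have h3 : (1 : ℝ) ≤ 3 ^ (∑ i' ∈ ({i} : Finset ι),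
          mf R s (s.image fun i => ({i} : Finset ι)) {i} i') := one_le_pow₀ (by norm_num)
      have h4 := hz i hi
      nlinarith

end Pool.Agent.LRT
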