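import Pool.Agent.LRT.Defs

/-!
# LR-T3-Pack: packing numbers (0.6 h)

`pack t S` = largest cardinality of a subset of `S` with pairwise distances `> t`.
First prove the basics of `nd`: `nd_self`, `nd_comm`, `nd_nonneg`, `nd_tri : nd x z ≤ nd x y + nd y z`, `nd x y = 0 ↔ x = y`
(unfold, `abs`/`max` splitting + omega), and `pack` attained: `exists T ⊆ S, separated, T.card = pack t S`
(`Finset.exists_mem_eq_sup`; the filter is nonempty: it contains `∅`), and `card_le_pack` for separated `T ⊆ S` (`Finset.le_sup`).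
* `pack_pos`: a singleton is separated.
* `pack_one`: if all distances are `≤ t` a separated set has at most one point; conversely two points at distance `> t` give 2.
* `pack_biUnion`: for an optimal `T`, `T = ⋃ (T ∩ S i)`, cardinalities add (`Finset.card_biUnion_le`).
* `pack_cover`: optimal `T`; if `x ∈ S` had `nd x y > t` for all `y ∈ T` then `insert x T` is larger.
* `pack_double`: `T = {x_1..x_P}` optimal for `r (k+1) = 64 r k`, `P ≥ 2`. For `x ∈ T` apply `Chain (64 * r k) S` to
  `X = {y ∈ S | nd x y ≤ r k}` (contains `x`, is not `S` because another point of `T` is at distance `> r (k+1) ≥ r k`): get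
  `y ∈ X`, `y' ∈ S \ X`, `4 nd y y' ≤ 64 r k`, so `r k < nd x y' ≤ 17 r k`. Choose `g x := y'`. The set `T ∪ T.image g` is
  separated for `r k`: `nd x (g x) > r k`; for `x ≠ x'` in `T`: `nd x x' > 64 r k`, `nd (g x) x' > 47 r k`,
  `nd (g x) (g x') > 30 r k`; so `g` is injective on `T`, `T` and the image are disjoint, the union has `2 P` elements.
-/

set_option autoImplicit false

noncomputable section

open scoped BigOperators

namespace Pool.Agent.LRT

theorem nd_self (x : V) : nd x x = 0 := by simp [nd]

theorem nd_comm (x y : V) : nd x y = nd y x := by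
  simp only [nd]
  rw [abs_sub_comm x.1, abs_sub_comm x.2]

theorem nd_nonneg (x y : V) : 0 ≤ nd x y := le_max_of_le_left (abs_nonneg _)

theorem nd_tri (x y z : V) : nd x z ≤ nd x y + nd y z := by
  simp only [nd]
  apply max_le
  · have h1 : |x.1 - z.1| ≤ |x.1 - y.1| + |y.1 - z.1| := abs_sub_le _ _ _
    have h2 := le_max_left |x.1 - y.1| |x.2 - y.2|
    have h3 := le_max_left |y.1 - z.1| |y.2 - z.2|
    linarith
  · have h1 : |x.2 - z.2| ≤ |x.2 - y.2| + |y.2 - z.2| := abs_sub_le _ _ _
    have h2 := le_max_right |x.1 - y.1| |x.2 - y.2|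
    have h3 := le_max_right |y.1 - z.1| |y.2 - z.2|
    linarith

theorem nd_pos {x y : V} (h : x ≠ y) : 1 ≤ nd x y := by
  by_contra hc
  have h0 : nd x y ≤ 0 := by omega
  have h1 : |x.1 - y.1| ≤ 0 := (le_max_left _ _).trans h0
  have h2 : |x.2 - y.2| ≤ 0 := (le_max_right _ _).trans h0
  apply h
  have h3 := abs_nonpos_iff.1 h1
  have h4 := abs_nonpos_iff.1 h2
  exact Prod.ext (by omega) (by omega)

theorem r_pos (k : ℕ) : 1 ≤ r k := by
  unfold r
  exact one_le_pow₀ (by norm_num)

theorem r_succ (k : ℕ) : r (k + 1) = 64 * r k := by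
  unfold r
  ring

theorem r_mono {j k : ℕ} (h : j ≤ k) : r j ≤ r k := by
  unfold r
  exact pow_le_pow_right₀ (by norm_num) h

/-- Separated subsets have at most `pack` elements. -/
theorem card_le_pack {t : ℤ} {S T : Finset V} (hT : T ⊆ S)
    (hs : ∀ x ∈ T, ∀ y ∈ T, x ≠ y → t < nd x y) : T.card ≤ pack t S := by
  unfold pack
  apply Finset.le_sup (f := Finset.card)
  simp only [Finset.mem_filter, Finset.mem_powerset]
  exact ⟨hT, hs⟩

/-- The packing number is attained. -/
theorem exists_pack (t : ℤ) (S : Finset V) :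
    ∃ T : Finset V, T ⊆ S ∧ (∀ x ∈ T, ∀ y ∈ T, x ≠ y → t < nd x y) ∧ T.card = pack t S := by
  by_contra hcon
  push Not at hcon
  have hpos : ⊥ < pack t S := by
    rw [bot_eq_zero]
    rcases Nat.eq_zero_or_pos (pack t S) with h0 | h0
    · exact absurd h0.symm (hcon ∅ (Finset.empty_subset _) (by
        intro x hx
        exact absurd hx (Finset.notMem_empty x)))
    · exact h0
  have hlt : pack t S < pack t S := by
    conv_lhs => unfold pack
    rw [Finset.sup_lt_iff hpos]
    intro T hT
    simp only [Finset.mem_filter, Finset.mem_powerset] at hT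
    exact lt_of_le_of_ne (card_le_pack hT.1 hT.2) (hcon T hT.1 hT.2)
  exact lt_irrefl _ hlt

theorem pack_pos {t : ℤ} {S : Finset V} (h : S.Nonempty) : 1 ≤ pack t S := by
  obtain ⟨x, hx⟩ := h
  have h1 : ({x} : Finset V).card ≤ pack t S := card_le_pack (Finset.singleton_subset_iff.2 hx) (by
    intro a ha b hb hab
    rw [Finset.mem_singleton] at ha hb
    exact absurd (ha.trans hb.symm) hab)
  simpa using h1

theorem pack_one {t : ℤ} (ht : 0 ≤ t) {S : Finset V} (h : S.Nonempty) :
    pack t S = 1 ↔ ∀ x ∈ S, ∀ y ∈ S, nd x y ≤ t := by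
  classical
  constructor
  · intro h1 x hx y hy
    by_contra hc
    have hxy : x ≠ y := by
      rintro rfl
      rw [nd_self] at hc
      exact hc ht
    have h2 : ({x, y} : Finset V).card ≤ pack t S := card_le_pack (by
      intro a ha
      rw [Finset.mem_insert, Finset.mem_singleton] at ha
      rcases ha with rfl | rfl
      · exact hx
      · exact hy) (by
      intro a ha b hb hab
      rw [Finset.mem_insert, Finset.mem_singleton] at ha hb
      rcases ha with rfl | rfl <;> rcases hb with rfl | rfl
      · exact absurd rfl hab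
      · exact not_le.1 hc
      · rw [nd_comm]; exact not_le.1 hc
      · exact absurd rfl hab)
    rw [Finset.card_pair hxy, h1] at h2
    omega
  · intro h1
    apply le_antisymm _ (pack_pos h)
    obtain ⟨T, hT, hs, hc⟩ := exists_pack t S
    rw [← hc, Finset.card_le_one]
    intro a ha b hb
    by_contra hab
    have h2 := hs a ha b hb hab
    have h3 := h1 a (hT ha) b (hT hb)
    omega

theorem pack_biUnion {t : ℤ} {ι : Type} (b : Finset ι) (S : ι → Finset V) :
    pack t (b.biUnion S) ≤ ∑ i ∈ b, pack t (S i) := by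
  classical
  obtain ⟨T, hT, hs, hc⟩ := exists_pack t (b.biUnion S)
  rw [← hc]
  have h1 : T ⊆ b.biUnion fun i => T.filter (· ∈ S i) := by
    intro x hx
    have h2 := hT hx
    rw [Finset.mem_biUnion] at h2 ⊢
    obtain ⟨i, hi, hxi⟩ := h2
    exact ⟨i, hi, Finset.mem_filter.2 ⟨hx, hxi⟩⟩
  refine (Finset.card_le_card h1).trans (Finset.card_biUnion_le.trans ?_)
  refine Finset.sum_le_sum fun i _ => ?_
  apply card_le_pack
  · intro x hx
    exact (Finset.mem_filter.1 hx).2
  · intro x hx y hy hxy
    exact hs x (Finset.mem_filter.1 hx).1 y (Finset.mem_filter.1 hy).1 hxy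

theorem pack_cover (t : ℤ) (S : Finset V) :
    ∃ T : Finset V, T ⊆ S ∧ T.card = pack t S ∧ ∀ x ∈ S, ∃ y ∈ T, nd x y ≤ max t 0 := by
  classical
  obtain ⟨T, hT, hs, hc⟩ := exists_pack t S
  refine ⟨T, hT, hc, ?_⟩
  intro x hx
  by_contra hcon
  push Not at hcon
  have hxT : x ∉ T := by
    intro hxT
    have := hcon x hxT
    rw [nd_self] at this
    exact absurd this (not_lt.2 (le_max_right _ _))
  have h1 : (insert x T).card ≤ pack t S := card_le_pack (by
    intro a ha
    rw [Finset.mem_insert] at ha
    rcases ha with rfl | ha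
    · exact hx
    · exact hT ha) (by
    intro a ha b hb hab
    rw [Finset.mem_insert] at ha hb
    rcases ha with rfl | ha <;> rcases hb with rfl | hb
    · exact absurd rfl hab
    · exact lt_of_le_of_lt (le_max_left _ _) (hcon b hb)
    · rw [nd_comm]; exact lt_of_le_of_lt (le_max_left _ _) (hcon a ha)
    · exact hs a ha b hb hab)
  rw [Finset.card_insert_of_notMem hxT, hc] at h1
  omega

theorem pack_double {k : ℕ} {S : Finset V} (hS : Chain (64 * r k) S)
    (h2 : 2 ≤ pack (r (k + 1)) S) : 2 * pack (r (k + 1)) S ≤ pack (r k) S := by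
  classical
  obtain ⟨T, hT, hs, hc⟩ := exists_pack (r (k + 1)) S
  have hr := r_pos k
  rw [r_succ] at hs
  have hg : ∀ x : V, ∃ y : V, x ∈ T → y ∈ S ∧ r k < nd x y ∧ nd x y ≤ 17 * r k := by
    intro x
    by_cases hx : x ∈ T
    · have hX1 : x ∈ S.filter (fun y => nd x y ≤ r k) := by
        rw [Finset.mem_filter, nd_self]
        exact ⟨hT hx, by omega⟩
      have hX2 : S.filter (fun y => nd x y ≤ r k) ≠ S := by
        intro he
        rw [← hc] at h2
        obtain ⟨z, hz, hzx⟩ := Finset.exists_mem_ne (by omega : 1 < T.card) x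
        have h3 := hs x hx z hz (Ne.symm hzx)
        have h4 : z ∈ S.filter (fun y => nd x y ≤ r k) := by rw [he]; exact hT hz
        have h5 := (Finset.mem_filter.1 h4).2
        omega
      obtain ⟨y, hy, y', hy', hyn, h4⟩ := hS _ (Finset.filter_subset _ _) ⟨x, hX1⟩ hX2
      refine ⟨y', fun _ => ⟨hy', ?_, ?_⟩⟩
      · by_contra hcon
        exact hyn (Finset.mem_filter.2 ⟨hy', not_lt.1 hcon⟩)
      · have h5 := (Finset.mem_filter.1 hy).2
        have h6 := nd_tri x y y'
        omega
    · exact ⟨x, fun h => absurd h hx⟩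
  choose g hg using hg
  have hgg : ∀ x ∈ T, ∀ y ∈ T, x ≠ y → r k < nd (g x) (g y) := by
    intro x hx y hy hxy
    have h3 := hs x hx y hy hxy
    have h4 := (hg x hx).2.2
    have h5 := (hg y hy).2.2
    have h6 := nd_tri x (g x) y
    have h7 := nd_tri (g x) (g y) y
    rw [nd_comm (g y) y] at h7
    omega
  have hgx : ∀ x ∈ T, ∀ y ∈ T, r k < nd x (g y) := by
    intro x hx y hy
    by_cases hxy : x = y
    · subst hxy
      exact (hg x hx).2.1
    · have h3 := hs x hx y hy hxy
      have h5 := (hg y hy).2.2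
      have h6 := nd_tri x (g y) y
      rw [nd_comm (g y) y] at h6
      omega
  have hinj : Set.InjOn g (T : Set V) := by
    intro x hx y hy hxy
    by_contra hne
    have h3 := hgg x hx y hy hne
    rw [hxy, nd_self] at h3
    omega
  have hdis : Disjoint T (T.image g) := by
    rw [Finset.disjoint_left]
    intro x hx hx'
    obtain ⟨y, hy, rfl⟩ := Finset.mem_image.1 hx'
    have h3 := hgx (g y) hx y hy
    rw [nd_self] at h3
    omega
  have hcard : (T ∪ T.image g).card = 2 * pack (r (k + 1)) S := by
    rw [Finset.card_union_of_disjoint hdis, Finset.card_image_of_injOn hinj, hc]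
    ring
  rw [← hcard]
  apply card_le_pack
  · intro x hx
    rw [Finset.mem_union] at hx
    rcases hx with hx | hx
    · exact hT hx
    · obtain ⟨y, hy, rfl⟩ := Finset.mem_image.1 hx
      exact (hg y hy).1
  · intro x hx y hy hxy
    rw [Finset.mem_union] at hx hy
    rcases hx with hx | hx <;> rcases hy with hy | hy
    · have := hs x hx y hy hxy
      omega
    · obtain ⟨z, hz, rfl⟩ := Finset.mem_image.1 hy
      exact hgx x hx z hz
    · obtain ⟨z, hz, rfl⟩ := Finset.mem_image.1 hx
      rw [nd_comm]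
      exact hgx y hy z hz
    · obtain ⟨z, hz, rfl⟩ := Finset.mem_image.1 hx
      obtain ⟨w, hw, rfl⟩ := Finset.mem_image.1 hy
      exact hgg z hz w hw fun h => hxy (by rw [h])

end Pool.Agent.LRT
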