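import Pool.Agent.LRT.Budget
import Pool.Agent.LRT.Merge

/-!
# LR-T3-StepG: merging step, `Post k` good ⇒ `Pre k` good (0.8 h)

`pre_to_post`: the merged family satisfies `Post`. For `b ∈ BB` either `b = {i}` (card 1) or `card b ≥ 2` (then all elements alive,
`block_alive`; `k ≤ js`, `block_js`, hence `tau js ≥ k + 1`, the block is alive).
* `wf`: `mrg_wf`.  * `sepA`: `b ≠ b'` alive, `x ∈ S_i`, `y ∈ S_j`, `i ∈ b`, `j ∈ b'`: `i`, `j` are alive (`block_single` or `block_alive`),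
  `¬ R i j` gives `16 r k < nd x y`.  * `sepB`: both frozen, so both singletons: `Pre.sepB`.
* `chain`: card 1: `Pre.chain` and `chain_mono` (`r k ≤ 64 r k`); card ≥ 2: `chain_union`.
* `supp`: `m.v x ≠ 0` gives `i ∈ b` with `(c i).v x ≠ 0`, `y ∈ S_i` with `nd x y ≤ r (min k js_i)`; card 1: same `js`; card ≥ 2:
  `min k (js m) = k` and `r` monotone.
* `bdA`: card ≥ 2: `z_merge`, `mrg_n`, `bud_merge`; card 1: `z_merge` for `b = {i}`, `m.n ≤ (c i).n`, `bud` depends only on `S` and `js`.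
* `bdB`: card 1 frozen: `deg_frozen`, so `z ≤ z_i`, `Pre.bdB`, `m.n ≤ n_i`.
`stepG`: `merge_good` with `R = Rk Λ k c` (symmetric by `nd_comm`).
-/

set_option autoImplicit false

noncomputable section

open scoped BigOperators
namespace Pool.Agent.LRT

variable {Λ : Finset V} {β : ℝ}

private theorem mrg_S {ι : Type} (c : ι → Cl) (σ : ι → ℤ) (b : Finset ι) (z : ℝ) :
    (mrg c σ b z).S = b.biUnion fun i => (c i).S := rfl

private theorem mrg_v {ι : Type} (c : ι → Cl) (σ : ι → ℤ) (b : Finset ι) (z : ℝ) (x : V) :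
    (mrg c σ b z).v x = ∑ i ∈ b, (σ i : ℝ) * (c i).v x := rfl

private theorem mrg_z {ι : Type} (c : ι → Cl) (σ : ι → ℤ) (b : Finset ι) (z : ℝ) :
    (mrg c σ b z).z = z := rfl

private theorem le_tau (j : ℕ) : j ≤ tau j := by
  unfold tau
  omega

theorem pre_to_post {B0 : ℝ} {k : ℕ} {ι : Type} {s : Finset ι} {c : ι → Cl}
    (hB : 1000000 ≤ B0) (hp : Pre Λ B0 k s c)
    (BB : Finset (Finset ι)) (σ : ι → ℤ) (z : Finset ι → ℝ)
    (hσ : ∀ i, σ i = 1 ∨ σ i = -1)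
    (hb : ∀ b ∈ BB, b ⊆ s ∧ b.Nonempty ∧ ConnR (Rk Λ k c) b ∧ 0 ≤ z b ∧
        z b ≤ ∏ i ∈ b, (3 : ℝ) ^ degR (Rk Λ k c) s i * (c i).z)
    (hd : ∀ b ∈ BB, ∀ b' ∈ BB, b ≠ b' → ∀ i ∈ b, ∀ j ∈ b', i ≠ j ∧ ¬ Rk Λ k c i j) :
    Post Λ B0 k BB (fun b => mrg c σ b (z b)) := by
  classical
  have hr := r_pos k
  have hs1 : ∀ b ∈ BB, b.card < 2 → ∃ i ∈ s, b = {i} := by
    intro b hbB hcard
    obtain ⟨hsub, hne, -, -, -⟩ := hb b hbB
    have hc1 : b.card = 1 := by
      have := hne.card_pos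
      omega
    obtain ⟨i, rfl⟩ := Finset.card_eq_one.1 hc1
    exact ⟨i, hsub (Finset.mem_singleton_self i), rfl⟩
  have alive : ∀ b ∈ BB, k ≤ tau (js Λ (mrg c σ b (z b))) →
      ∀ i ∈ b, k ≤ tau (js Λ (c i)) := by
    intro b hbB hal i hi
    by_cases h2 : 2 ≤ b.card
    · exact block_alive (hb b hbB).2.2.1 h2 i hi
    · obtain ⟨i', hi', rfl⟩ := hs1 b hbB (by omega)
      rw [(block_single hp.wf hσ hi' _).1] at hal
      rw [Finset.mem_singleton] at hi
      subst hi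
      exact hal
  have frozen : ∀ b ∈ BB, tau (js Λ (mrg c σ b (z b))) < k → ∃ i ∈ s, b = {i} := by
    intro b hbB hfr
    by_contra hcon
    have h2 : 2 ≤ b.card := by
      by_contra h2
      exact hcon (hs1 b hbB (by omega))
    have h1 := block_js (σ := σ) hp (hb b hbB).1 (hb b hbB).2.2.1 h2 (z b)
    have h3 := le_tau (js Λ (mrg c σ b (z b)))
    omega
  refine ⟨?_, ?_, ?_, ?_, ?_, ?_, ?_⟩
  · intro b hbB
    exact mrg_wf hp.wf hσ (hb b hbB).1 (hb b hbB).2.1 (hb b hbB).2.2.2.1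
  · intro b hbB b' hbB' hne hal hal' x hx y hy
    rw [mrg_S, Finset.mem_biUnion] at hx hy
    obtain ⟨i, hi, hxi⟩ := hx
    obtain ⟨j, hj, hyj⟩ := hy
    have h1 := alive b hbB hal i hi
    have h2 := alive b' hbB' hal' j hj
    by_contra hcon
    exact (hd b hbB b' hbB' hne i hi j hj).2 ⟨h1, h2, x, hxi, y, hyj, not_lt.1 hcon⟩
  · intro b hbB b' hbB' hne hjs hfr x hx y hy
    obtain ⟨i, hi, rfl⟩ := frozen b hbB hfr
    obtain ⟨j, hj, rfl⟩ := frozen b' hbB' (by rw [← hjs]; exact hfr)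
    have hij := (hd _ hbB _ hbB' hne i (Finset.mem_singleton_self i) j
      (Finset.mem_singleton_self j)).1
    obtain ⟨ei, eSi⟩ := block_single hp.wf hσ hi (z {i})
    obtain ⟨ej, eSj⟩ := block_single hp.wf hσ hj (z {j})
    rw [ei] at hfr ⊢
    rw [ei, ej] at hjs
    rw [eSi] at hx
    rw [eSj] at hy
    exact hp.sepB i hi j hj hij hjs hfr x hx y hy
  · intro b hbB hal
    have hle : r k ≤ 64 * r k := by omega
    by_cases h2 : 2 ≤ b.card
    · rw [mrg_S]
      have hsub := (hb b hbB).1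
      refine chain_union (fun i hi => (hp.wf i (hsub hi)).ne) (fun i hi => ?_) (hb b hbB).2.2.1
      exact chain_mono hle (hp.chain i (hsub hi) (alive b hbB hal i hi))
    · obtain ⟨i, hi, rfl⟩ := hs1 b hbB (by omega)
      obtain ⟨ei, eSi⟩ := block_single hp.wf hσ hi (z {i})
      rw [eSi]
      rw [ei] at hal
      exact chain_mono hle (hp.chain i hi hal)
  · intro b hbB x hx
    rw [mrg_v] at hx
    obtain ⟨i, hi, hne⟩ := Finset.exists_ne_zero_of_sum_ne_zero hx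
    have hvi : (c i).v x ≠ 0 := right_ne_zero_of_mul hne
    obtain ⟨y, hy, hxy⟩ := hp.supp i ((hb b hbB).1 hi) x hvi
    by_cases h2 : 2 ≤ b.card
    · refine ⟨y, ?_, ?_⟩
      · rw [mrg_S, Finset.mem_biUnion]
        exact ⟨i, hi, hy⟩
      · have h1 := block_js (σ := σ) hp (hb b hbB).1 (hb b hbB).2.2.1 h2 (z b)
        rw [min_eq_left h1]
        exact hxy.trans (r_mono (min_le_left _ _))
    · obtain ⟨i', hi', rfl⟩ := hs1 b hbB (by omega)
      obtain ⟨ei, eSi⟩ := block_single hp.wf hσ hi' (z {i'})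
      rw [Finset.mem_singleton] at hi
      subst hi
      rw [ei, eSi]
      exact ⟨y, hy, hxy⟩
  · intro b hbB hal
    obtain ⟨hsub, hne, hconn, hz0, hz1⟩ := hb b hbB
    have hzm := z_merge hp hsub (alive b hbB hal)
    have hn := mrg_n hp.wf hσ hsub (z b)
    rw [mrg_z]
    refine (hz1.trans hzm).trans (Real.exp_le_exp.2 ?_)
    have hbud : bud Λ B0 k (mrg c σ b (z b)) ≤ ∑ i ∈ b, bud Λ B0 k (c i) := by
      by_cases h2 : 2 ≤ b.card
      · exact bud_merge hB hp hsub hconn h2 (z b)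
      · obtain ⟨i, hi, rfl⟩ := hs1 b hbB (by omega)
        obtain ⟨ei, eSi⟩ := block_single hp.wf hσ hi (z {i})
        rw [Finset.sum_singleton]
        unfold bud
        rw [ei, eSi]
    linarith
  · intro b hbB hfr
    obtain ⟨hsub, hne, hconn, hz0, hz1⟩ := hb b hbB
    have hn := mrg_n hp.wf hσ hsub (z b)
    obtain ⟨i, hi, rfl⟩ := frozen b hbB hfr
    obtain ⟨ei, eSi⟩ := block_single hp.wf hσ hi (z {i})
    rw [ei] at hfr ⊢
    rw [Finset.prod_singleton, deg_frozen s c hfr, pow_zero, one_mul] at hz1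
    rw [Finset.sum_singleton] at hn
    rw [mrg_z]
    refine (hz1.trans (hp.bdB i hi hfr)).trans (Real.exp_le_exp.2 ?_)
    linarith

theorem stepG (G : GField Λ β) (h : V → ℝ) (θ : ℝ) {B0 : ℝ} (hB : 1000000 ≤ B0) (k : ℕ)
    (H : ∀ (ι : Type) (s : Finset ι) (c : ι → Cl), Post Λ B0 k s c → Good G h θ s c) :
    ∀ (ι : Type) (s : Finset ι) (c : ι → Cl), Pre Λ B0 k s c → Good G h θ s c := by
  intro ι s c hp
  refine merge_good G h θ s c (fun i hi => (hp.wf i hi).pos) (Rk Λ k c) ?_ ?_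
  · rintro i j ⟨h1, h2, x, hx, y, hy, hxy⟩
    exact ⟨h2, h1, y, hy, x, hx, by rw [nd_comm]; exact hxy⟩
  · intro BB σ z hσ hb hd
    exact H (Finset ι) BB _ (pre_to_post hB hp BB σ z hσ hb hd)

end Pool.Agent.LRT
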