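import Pool.Agent.LRT.Main

/-!
# LR-T3-T3eps: `T3` from `theta_lower` (0.3 h)
-/

set_option autoImplicit false

noncomputable section

open scoped BigOperators
open MeasureTheory

namespace Pool.Agent.LRT

/-- **T3** -/
theorem T3 (ε : ℝ) (hε : 0 < ε) : ∃ β1 : ℝ, 0 < β1 ∧ ∀ β : ℝ, 0 < β → β < β1 →
    ∀ (Λ : Finset V) (h : V → ℝ), Off Λ h →
      Real.exp (-(ε * β / 2 * Dir h)) * ∑' ψ : Λ → ℤ, Real.exp (-(β / 2) * Dir (ext Λ ψ)) ≤
        ∑' ψ : Λ → ℤ, Real.exp (-(β / 2) * Dir (fun x => ext Λ ψ x - h x)) := by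
  have hC1 : 0 < C1 := by norm_num [C1]
  have hkap : 0 < kap := by norm_num [kap, C1]
  set M : ℝ := 1000000 + C1 + 3 with hM
  have hM0 : 0 < M := by positivity
  set A : ℝ := 3000 * Real.exp (2 * C1 + 3) with hA
  have hA0 : 0 < A := by positivity
  -- bounds on beta
  refine ⟨min (2 * Real.pi ^ 2 / 1936 / (kap + C1))
    (min (Real.pi ^ 2 / (4 * M)) (ε * Real.pi ^ 4 / (64 * A))), ?_, ?_⟩
  · have := Real.pi_pos
    positivity
  intro β hβ hβ1 Λ h hh
  rw [lt_min_iff, lt_min_iff] at hβ1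
  obtain ⟨h1, h2, h3⟩ := hβ1
  have hpi := Real.pi_pos
  have e1 : kap + C1 ≤ 2 * Real.pi ^ 2 / β / 1936 := by
    have : β * (kap + C1) < 2 * Real.pi ^ 2 / 1936 := by
      rwa [lt_div_iff₀ (by positivity)] at h1
    rw [div_div, le_div_iff₀ (by positivity)]
    nlinarith
  have e2 : M ≤ Real.pi ^ 2 / (4 * β) := by
    rw [lt_div_iff₀ (by positivity)] at h2
    rw [le_div_iff₀ (by positivity)]
    nlinarith
  set B0 : ℝ := Real.pi ^ 2 / (4 * β) - C1 - 3 with hB0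
  have hB : 1000000 ≤ B0 := by rw [hB0]; linarith
  have key := theta_lower Λ hβ e1 hB (by rw [hB0]; linarith) h hh
  refine le_trans ?_ key
  refine mul_le_mul_of_nonneg_right ?_ (tsum_nonneg fun ψ => Real.exp_nonneg _)
  rw [Real.exp_le_exp]
  have hd : 0 ≤ Dir h := dir_nonneg h
  have e3 : 3000 * Real.exp (C1 - B0) ≤ ε * β / 2 := by
    have hx : 0 < Real.pi ^ 2 / (4 * β) := by positivity
    set x : ℝ := Real.pi ^ 2 / (4 * β) with hx'
    have f1 : C1 - B0 = (2 * C1 + 3) + (-x) := by rw [hB0]; ring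
    rw [f1, Real.exp_add, ← mul_assoc, ← hA]
    have f2 : Real.exp (-x) ≤ 2 / x ^ 2 := by
      rw [Real.exp_neg, ← one_div, div_le_div_iff₀ (Real.exp_pos _) (by positivity)]
      have := Real.quadratic_le_exp_of_nonneg hx.le
      nlinarith
    have f3 : A * Real.exp (-x) ≤ A * (2 / x ^ 2) := mul_le_mul_of_nonneg_left f2 hA0.le
    refine f3.trans ?_
    have f4 : 2 / x ^ 2 = 32 * β ^ 2 / Real.pi ^ 4 := by
      rw [hx']; field_simp; ring
    rw [f4]
    have f5 : β * (64 * A) < ε * Real.pi ^ 4 := by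
      rwa [lt_div_iff₀ (by positivity)] at h3
    rw [mul_div_assoc', div_le_iff₀ (by positivity)]
    nlinarith
  nlinarith

end Pool.Agent.LRT
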