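import Pool.Agent.LRT.Energy
import Pool.Agent.LR.Forms

/-!
# LR-T3, transfer to the interface, part A

Comparison of the lattice Dirichlet integral `LRT.Dir` with the forms `Qnn` and `QD` of the interface.
-/

set_option autoImplicit false

noncomputable section

open scoped BigOperators Topology
open MeasureTheory Filter Set

namespace Pool.Agent.LR

/-- the four unit vectors -/
def nbrs : Finset V := {(1, 0), (-1, 0), (0, 1), (0, -1)}

theorem Jnn_eq (x y : V) : Jnn x y = if y - x ∈ nbrs then 1 else 0 := by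
  unfold Jnn nbrs
  have h : ((x.1 - y.1) ^ 2 + (x.2 - y.2) ^ 2 = 1) ↔
      y - x ∈ ({(1, 0), (-1, 0), (0, 1), (0, -1)} : Finset V) := by
    simp only [Finset.mem_insert, Finset.mem_singleton, Prod.ext_iff, Prod.fst_sub, Prod.snd_sub]
    constructor
    · intro h
      have h1 : (x.1 - y.1) ^ 2 ≤ 1 := by nlinarith [sq_nonneg (x.2 - y.2)]
      have h2 : (x.2 - y.2) ^ 2 ≤ 1 := by nlinarith [sq_nonneg (x.1 - y.1)]
      have h3 := abs_le_one_iff_mul_self_le_one.2 (by nlinarith : (x.1 - y.1) * (x.1 - y.1) ≤ 1)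
      have h4 := abs_le_one_iff_mul_self_le_one.2 (by nlinarith : (x.2 - y.2) * (x.2 - y.2) ≤ 1)
      rw [abs_le] at h3 h4
      obtain ⟨a1, a2⟩ := h3
      obtain ⟨b1, b2⟩ := h4
      have ha : x.1 - y.1 = -1 ∨ x.1 - y.1 = 0 ∨ x.1 - y.1 = 1 := by omega
      have hb : x.2 - y.2 = -1 ∨ x.2 - y.2 = 0 ∨ x.2 - y.2 = 1 := by omega
      rcases ha with ha | ha | ha <;> rcases hb with hb | hb | hb <;> rw [ha, hb] at h <;>
        first
          | (exfalso; norm_num at h; done)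
          | omega
    · rintro (⟨h1, h2⟩ | ⟨h1, h2⟩ | ⟨h1, h2⟩ | ⟨h1, h2⟩)
      · have e1 : x.1 - y.1 = -1 := by omega
        have e2 : x.2 - y.2 = 0 := by omega
        rw [e1, e2]; norm_num
      · have e1 : x.1 - y.1 = 1 := by omega
        have e2 : x.2 - y.2 = 0 := by omega
        rw [e1, e2]; norm_num
      · have e1 : x.1 - y.1 = 0 := by omega
        have e2 : x.2 - y.2 = -1 := by omega
        rw [e1, e2]; norm_num
      · have e1 : x.1 - y.1 = 0 := by omega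
        have e2 : x.2 - y.2 = 1 := by omega
        rw [e1, e2]; norm_num
  simp only [h]

theorem sum_Jnn (Λ : Finset V) (x : V) (g : V → ℝ) :
    ∑ y ∈ Λ, Jnn x y * g y = ∑ v ∈ nbrs, if x + v ∈ Λ then g (x + v) else 0 := by
  have h1 : ∑ y ∈ Λ, Jnn x y * g y = ∑ y ∈ Λ.filter (fun y => y - x ∈ nbrs), g y := by
    rw [Finset.sum_filter]
    refine Finset.sum_congr rfl fun y _ => ?_
    rw [Jnn_eq]
    split_ifs <;> simp
  have h2 : (∑ v ∈ nbrs, if x + v ∈ Λ then g (x + v) else 0) =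
      ∑ v ∈ nbrs.filter (fun v => x + v ∈ Λ), g (x + v) := by
    rw [Finset.sum_filter]
  rw [h1, h2]
  symm
  refine Finset.sum_bij (fun v _ => x + v) ?_ ?_ ?_ ?_
  · intro v hv
    rw [Finset.mem_filter] at hv ⊢
    exact ⟨hv.2, by simpa using hv.1⟩
  · intro v _ w _ h
    exact add_left_cancel h
  · intro y hy
    rw [Finset.mem_filter] at hy
    refine ⟨y - x, ?_, by abel⟩
    rw [Finset.mem_filter]
    exact ⟨hy.2, by simpa using hy.1⟩
  · intro v _
    rfl

theorem Jnn_symm (x y : V) : Jnn x y = Jnn y x := by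
  unfold Jnn
  have : (x.1 - y.1) ^ 2 + (x.2 - y.2) ^ 2 = (y.1 - x.1) ^ 2 + (y.2 - x.2) ^ 2 := by ring
  rw [this]

theorem Jnn_nonneg (x y : V) : 0 ≤ Jnn x y := by
  unfold Jnn
  split_ifs <;> norm_num

theorem sum_nbrs (g : V → ℝ) :
    ∑ v ∈ nbrs, g v = g (1, 0) + g (-1, 0) + g (0, 1) + g (0, -1) := by
  unfold nbrs
  rw [Finset.sum_insert (by decide), Finset.sum_insert (by decide), Finset.sum_insert (by decide),
    Finset.sum_singleton]
  ring

theorem Qnn_self (b : ℝ) (Λ : Finset V) (f : V → ℝ) :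
    Qnn b Λ f f = b * (∑ x ∈ Λ, ∑ y ∈ Λ, Jnn x y / 2 * (f x - f y) ^ 2 +
      ∑ x ∈ Λ, (∑ v ∈ nbrs, if x + v ∈ Λ then (0 : ℝ) else 1) * f x ^ 2) := by
  unfold Qnn
  rw [LinearMap.smul_apply, LinearMap.smul_apply, LinearMap.add_apply, LinearMap.add_apply,
    Qfr_self, massF_apply, smul_eq_mul]
  congr 2
  refine Finset.sum_congr rfl fun x _ => ?_
  have : (∑ v ∈ ({(1, 0), (-1, 0), (0, 1), (0, -1)} : Finset V), if x + v ∈ Λ then (0 : ℝ) else 1) =
    ∑ v ∈ nbrs, if x + v ∈ Λ then (0 : ℝ) else 1 := rfl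
  rw [this]
  ring

/-- the nearest neighbour form is the Dirichlet integral -/
theorem Qnn_dir (b : ℝ) {Λ : Finset V} {f : V → ℝ} (hf : Supp Λ f) :
    Qnn b Λ f f = b * LRT.Dir f := by
  rw [Qnn_self, LRT.dir_eq (Λ := Λ) hf]
  congr 1
  have h1 : ∑ x ∈ Λ, ∑ y ∈ Λ, Jnn x y / 2 * (f x - f y) ^ 2 =
      ∑ x ∈ Λ, ∑ y ∈ Λ, Jnn x y * (f x ^ 2 - f x * f y) := by
    have h2 : ∑ x ∈ Λ, ∑ y ∈ Λ, Jnn x y * f y ^ 2 = ∑ x ∈ Λ, ∑ y ∈ Λ, Jnn x y * f x ^ 2 := by
      rw [Finset.sum_comm]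
      refine Finset.sum_congr rfl fun x _ => Finset.sum_congr rfl fun y _ => ?_
      rw [Jnn_symm]
    have h3 : ∑ x ∈ Λ, ∑ y ∈ Λ, Jnn x y / 2 * (f x - f y) ^ 2 =
        ∑ x ∈ Λ, ∑ y ∈ Λ, (Jnn x y * f x ^ 2) / 2 + ∑ x ∈ Λ, ∑ y ∈ Λ, (Jnn x y * f y ^ 2) / 2 -
          ∑ x ∈ Λ, ∑ y ∈ Λ, Jnn x y * (f x * f y) := by
      simp only [← Finset.sum_add_distrib, ← Finset.sum_sub_distrib]
      refine Finset.sum_congr rfl fun x _ => Finset.sum_congr rfl fun y _ => by ring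
    have h4 : ∑ x ∈ Λ, ∑ y ∈ Λ, (Jnn x y * f y ^ 2) / 2 = ∑ x ∈ Λ, ∑ y ∈ Λ, (Jnn x y * f x ^ 2) / 2 := by
      simp only [← Finset.sum_div]
      rw [h2]
    rw [h3, h4]
    simp only [← Finset.sum_add_distrib, ← Finset.sum_sub_distrib]
    refine Finset.sum_congr rfl fun x _ => Finset.sum_congr rfl fun y _ => by ring
  rw [h1, ← Finset.sum_add_distrib]
  unfold LRT.ip
  refine Finset.sum_congr rfl fun x hx => ?_
  rw [sum_Jnn Λ x (fun y => f x ^ 2 - f x * f y), Finset.sum_mul, ← Finset.sum_add_distrib]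
  have h5 : ∀ v ∈ nbrs, ((if x + v ∈ Λ then f x ^ 2 - f x * f (x + v) else 0) +
      (if x + v ∈ Λ then (0 : ℝ) else 1) * f x ^ 2) = f x ^ 2 - f x * f (x + v) := by
    intro v _
    split_ifs with h
    · ring
    · rw [hf _ h]; ring
  rw [Finset.sum_congr rfl h5, sum_nbrs]
  unfold LRT.Lap
  have e1 : x + ((1, 0) : V) = (x.1 + 1, x.2) := by
    ext <;> simp
  have e2 : x + ((-1, 0) : V) = (x.1 - 1, x.2) := by
    ext <;> simp [sub_eq_add_neg]
  have e3 : x + ((0, 1) : V) = (x.1, x.2 + 1) := by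
    ext <;> simp
  have e4 : x + ((0, -1) : V) = (x.1, x.2 - 1) := by
    ext <;> simp [sub_eq_add_neg]
  rw [e1, e2, e3, e4]
  ring

theorem Qnn_form {b : ℝ} (hb : 0 ≤ b) (Λ : Finset V) : IsForm (Qnn b Λ) := by
  unfold Qnn
  refine IsForm.smul (IsForm.add (isForm_Qfr fun x _ y _ => Jnn_nonneg x y)
    (isForm_massF fun x _ => ?_)) hb
  refine Finset.sum_nonneg fun v _ => ?_
  split_ifs <;> norm_num

theorem Qnn_pdef {b : ℝ} (hb : 0 < b) (Λ : Finset V) : PDef (Qnn b Λ) Λ := by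
  intro f hf h0
  rw [Qnn_dir b hf]
  exact mul_pos hb (LRT.dir_pos (Λ := Λ) hf h0)

/-- lower bound of the long range form by the nearest neighbour form -/
theorem dir_le_QD {α : ℝ} (hα : 4 < α) {β : ℝ} (hβ : 0 ≤ β) {Λ : Finset V} {f : V → ℝ}
    (hf : Supp Λ f) : 4 * β * LRT.Dir f ≤ QD α β Λ f f := by
  rw [← Qnn_dir (4 * β) hf, Qnn_self, QD_self, mul_add, Finset.mul_sum, Finset.mul_sum]
  have hJ1 : ∀ v ∈ nbrs, Jc α β v = 4 * β := by
    intro v hv
    have hlen : len v = 1 ∧ v ≠ 0 := by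
      unfold nbrs at hv
      simp only [Finset.mem_insert, Finset.mem_singleton] at hv
      rcases hv with rfl | rfl | rfl | rfl <;> constructor <;>
        first
          | (unfold len; norm_num)
          | decide
    rw [Jc_of_ne hlen.2, hlen.1, Real.one_rpow, mul_one]
  have hJ : ∀ x y : V, 4 * β * Jnn x y ≤ JJ α β x y := by
    intro x y
    rw [Jnn_symm, Jnn_eq]
    split_ifs with h
    · unfold JJ
      rw [hJ1 _ h, mul_one]
    · rw [mul_zero]
      exact JJ_nonneg hβ x y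
  refine add_le_add (Finset.sum_le_sum fun x _ => ?_) (Finset.sum_le_sum fun x _ => ?_)
  · rw [Finset.mul_sum]
    refine Finset.sum_le_sum fun y _ => ?_
    have := mul_le_mul_of_nonneg_right (hJ x y) (sq_nonneg (f x - f y))
    nlinarith
  · rw [← mul_assoc]
    refine mul_le_mul_of_nonneg_right ?_ (sq_nonneg _)
    have h1 : 4 * β * (∑ v ∈ nbrs, if x + v ∈ Λ then (0 : ℝ) else 1) =
        ∑ y ∈ nbrs.image (fun v => x + v), if y ∈ Λ then 0 else JJ α β x y := by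
      rw [Finset.sum_image (fun v _ w _ h => add_left_cancel h), Finset.mul_sum]
      refine Finset.sum_congr rfl fun v hv => ?_
      split_ifs with h
      · ring
      · have e : JJ α β x (x + v) = Jc α β v := by
          unfold JJ
          rw [show x - (x + v) = -v by abel, Jc_neg]
        rw [e, hJ1 v hv, mul_one]
    rw [h1]
    unfold kil
    refine (summable_kil (by linarith) hβ Λ x).sum_le_tsum _ fun y _ => ?_
    split_ifs
    · exact le_rfl
    · exact JJ_nonneg hβ x y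

end Pool.Agent.LR
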