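import Pool.Agent.LRT.TrA

/-!
# LR-T3, transfer to the interface, part B

`Q_Λ(f) ≤ 8 c D(f)` for the long range form.
-/

set_option autoImplicit false

noncomputable section

open scoped BigOperators Topology
open MeasureTheory Filter Set

namespace Pool.Agent.LR

/-- `∑_x (f(x+v) - f(x))²` -/
def Tsh (f : V → ℝ) (v : V) : ℝ := ∑' x : V, (f (x + v) - f x) ^ 2

theorem Tsh_fin {Λ : Finset V} {f : V → ℝ} (hf : Supp Λ f) (v w : V) :
    (Function.support fun x : V => (f (x + v) - f (x + w)) ^ 2).Finite := by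
  refine ((Λ.image (fun x => x - v)) ∪ Λ.image (fun x => x - w)).finite_toSet.subset ?_
  intro x hx
  rw [Function.mem_support] at hx
  by_contra h
  simp only [Finset.coe_union, Finset.coe_image, Set.mem_union, Set.mem_image, Finset.mem_coe,
    not_or, not_exists, not_and] at h
  apply hx
  have h1 : f (x + v) = 0 := hf _ fun hm => h.1 _ hm (by abel)
  have h2 : f (x + w) = 0 := hf _ fun hm => h.2 _ hm (by abel)
  rw [h1, h2]
  norm_num

theorem Tsh_sum {Λ : Finset V} {f : V → ℝ} (hf : Supp Λ f) (v w : V) :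
    Summable fun x : V => (f (x + v) - f (x + w)) ^ 2 :=
  summable_of_hasFiniteSupport (Tsh_fin hf v w)

theorem Tsh_sum0 {Λ : Finset V} {f : V → ℝ} (hf : Supp Λ f) (v : V) :
    Summable fun x : V => (f (x + v) - f x) ^ 2 := by
  have := Tsh_sum hf v 0
  simpa using this

theorem Tsh_shift (f : V → ℝ) (v w : V) : ∑' x : V, (f (x + w + v) - f (x + w)) ^ 2 = Tsh f v :=
  (Equiv.addRight w).tsum_eq (fun x => (f (x + v) - f x) ^ 2)

theorem Tsh_neg (f : V → ℝ) (v : V) : Tsh f (-v) = Tsh f v := by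
  rw [← Tsh_shift f (-v) v]
  unfold Tsh
  refine tsum_congr fun x => ?_
  rw [show x + v + -v = x by abel]
  ring

theorem Tsh_add {Λ : Finset V} {f : V → ℝ} (hf : Supp Λ f) (v w : V) {t : ℝ} (ht : 0 < t) :
    Tsh f (v + w) ≤ (1 + 1 / t) * Tsh f v + (1 + t) * Tsh f w := by
  rw [← Tsh_shift f v w]
  unfold Tsh
  rw [← tsum_mul_left, ← tsum_mul_left, ← Summable.tsum_add]
  · refine (Tsh_sum0 hf (v + w)).tsum_le_tsum (fun x => ?_) ?_
    · have e : x + (v + w) = x + w + v := by abel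
      rw [e]
      obtain ⟨a, ha⟩ : ∃ a, a = f (x + w + v) - f (x + w) := ⟨_, rfl⟩
      obtain ⟨b, hb⟩ : ∃ b, b = f (x + w) - f x := ⟨_, rfl⟩
      have e2 : f (x + w + v) - f x = a + b := by rw [ha, hb]; ring
      rw [e2, ← ha, ← hb]
      have h1 : 0 ≤ (a - t * b) ^ 2 / t := by positivity
      have h2 : (a - t * b) ^ 2 / t = 1 / t * a ^ 2 - 2 * a * b + t * b ^ 2 := by
        field_simp
        ring
      nlinarith
    · refine Summable.add ?_ ?_
      · have := Tsh_sum hf (w + v) w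
        refine (this.congr fun x => ?_).mul_left _
        rw [show x + (w + v) = x + w + v by abel]
      · exact (Tsh_sum0 hf w).mul_left _
  · have := Tsh_sum hf (w + v) w
    refine (this.congr fun x => ?_).mul_left _
    rw [show x + (w + v) = x + w + v by abel]
  · exact (Tsh_sum0 hf w).mul_left _

theorem Tsh_nonneg (f : V → ℝ) (v : V) : 0 ≤ Tsh f v := tsum_nonneg fun _ => sq_nonneg _

theorem Tsh_zero (f : V → ℝ) : Tsh f 0 = 0 := by
  unfold Tsh
  simp

theorem Tsh_nsmul {Λ : Finset V} {f : V → ℝ} (hf : Supp Λ f) (v : V) (n : ℕ) :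
    Tsh f (n • v) ≤ (n : ℝ) ^ 2 * Tsh f v := by
  induction n with
  | zero => simp [Tsh_zero]
  | succ n ih =>
    rcases Nat.eq_zero_or_pos n with h0 | h0
    · subst h0
      simp
    · have hn : (0 : ℝ) < n := by exact_mod_cast h0
      have h1 := Tsh_add hf (n • v) v hn
      rw [succ_nsmul]
      refine h1.trans ?_
      have h2 : (1 + 1 / (n : ℝ)) * Tsh f (n • v) ≤ (1 + 1 / (n : ℝ)) * ((n : ℝ) ^ 2 * Tsh f v) :=
        mul_le_mul_of_nonneg_left ih (by positivity)
      have h3 : (1 + 1 / (n : ℝ)) * ((n : ℝ) ^ 2 * Tsh f v) + (1 + (n : ℝ)) * Tsh f v =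
          ((n + 1 : ℕ) : ℝ) ^ 2 * Tsh f v := by
        push_cast
        field_simp
        ring
      linarith

theorem Tsh_zsmul {Λ : Finset V} {f : V → ℝ} (hf : Supp Λ f) (v : V) (a : ℤ) :
    Tsh f (a • v) ≤ (a : ℝ) ^ 2 * Tsh f v := by
  rcases Int.eq_nat_or_neg a with ⟨n, rfl | rfl⟩
  · have := Tsh_nsmul hf v n
    rw [natCast_zsmul]
    simpa using this
  · have := Tsh_nsmul hf v n
    rw [neg_smul, natCast_zsmul, Tsh_neg]
    simpa using this

theorem dir_Tsh {Λ : Finset V} {f : V → ℝ} (hf : Supp Λ f) :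
    LRT.Dir f = Tsh f (1, 0) + Tsh f (0, 1) := by
  unfold LRT.Dir Tsh
  rw [← (Tsh_sum0 hf (1, 0)).tsum_add (Tsh_sum0 hf (0, 1))]
  refine tsum_congr fun x => ?_
  have e1 : x + ((1, 0) : V) = (x.1 + 1, x.2) := by
    ext <;> simp
  have e3 : x + ((0, 1) : V) = (x.1, x.2 + 1) := by
    ext <;> simp
  rw [e1, e3]

theorem Tsh_le {Λ : Finset V} {f : V → ℝ} (hf : Supp Λ f) (v : V) :
    Tsh f v ≤ 2 * len v ^ 2 * LRT.Dir f := by
  have e : v = v.1 • ((1, 0) : V) + v.2 • ((0, 1) : V) := by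
    ext <;> simp
  have h1 := Tsh_add hf (v.1 • ((1, 0) : V)) (v.2 • ((0, 1) : V)) one_pos
  rw [← e] at h1
  have h2 := Tsh_zsmul hf (1, 0) v.1
  have h3 := Tsh_zsmul hf (0, 1) v.2
  rw [dir_Tsh hf, len_sq]
  have h4 := Tsh_nonneg f (1, 0)
  have h5 := Tsh_nonneg f (0, 1)
  have h6 : 0 ≤ (v.1 : ℝ) ^ 2 * Tsh f (0, 1) := mul_nonneg (sq_nonneg _) h5
  have h7 : 0 ≤ (v.2 : ℝ) ^ 2 * Tsh f (1, 0) := mul_nonneg (sq_nonneg _) h4
  have h8 : (1 : ℝ) + 1 / 1 = 2 := by norm_num
  have h9 : (1 : ℝ) + 1 = 2 := by norm_num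
  rw [h8, h9] at h1
  nlinarith

/-- upper bound of the long range form by the nearest neighbour form -/
theorem QD_le_dir {α : ℝ} (hα : 4 < α) {β : ℝ} (hβ : 0 ≤ β) {Λ : Finset V} {f : V → ℝ}
    (hf : Supp Λ f) : QD α β Λ f f ≤ 8 * cc α β * LRT.Dir f := by
  have hD : 0 ≤ LRT.Dir f := LRT.dir_nonneg f
  have hT : ∀ x v : V, (f (x + v) - f x) ^ 2 ≤ 2 * len v ^ 2 * LRT.Dir f := by
    intro x v
    exact ((Tsh_sum0 hf v).le_tsum x fun _ _ => sq_nonneg _).trans (Tsh_le hf v)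
  have hS : ∀ x : V, Summable fun v : V => Jc α β v * (f (x + v) - f x) ^ 2 := by
    intro x
    refine ((summable_Jc_len_sq hα β).mul_right (2 * LRT.Dir f)).of_nonneg_of_le
      (fun v => mul_nonneg (Jc_nonneg hβ v) (sq_nonneg _)) fun v => ?_
    have := mul_le_mul_of_nonneg_left (hT x v) (Jc_nonneg (α := α) hβ v)
    linarith
  have hS2 : ∀ x : V, Summable fun y : V => JJ α β x y * (f x - f y) ^ 2 := by
    intro x
    have h := (Equiv.subLeft x).summable_iff.2 (hS x)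
    have h' := (Equiv.subRight x).summable_iff.2 (hS x)
    refine h'.congr fun y => ?_
    simp only [Function.comp_apply, Equiv.subRight_apply, JJ]
    rw [show x + (y - x) = y by abel, ← Jc_neg α β (x - y), neg_sub]
    ring
  have hS3 : ∀ x : V, ∑' y : V, JJ α β x y * (f x - f y) ^ 2 =
      ∑' v : V, Jc α β v * (f (x + v) - f x) ^ 2 := by
    intro x
    rw [← (Equiv.subRight x).tsum_eq (fun v : V => Jc α β v * (f (x + v) - f x) ^ 2)]
    refine tsum_congr fun y => ?_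
    simp only [Equiv.subRight_apply, JJ]
    rw [show x + (y - x) = y by abel, ← Jc_neg α β (x - y), neg_sub]
    ring
  have h1 : ∀ x ∈ Λ, ∑ y ∈ Λ, JJ α β x y / 2 * (f x - f y) ^ 2 + kil α β Λ x * f x ^ 2 ≤
      ∑' y : V, JJ α β x y * (f x - f y) ^ 2 := by
    intro x hx
    have e1 : ∑ y ∈ Λ, JJ α β x y / 2 * (f x - f y) ^ 2 ≤
        ∑' y : V, if y ∈ Λ then JJ α β x y * (f x - f y) ^ 2 else 0 := by
      rw [tsum_eq_sum (s := Λ) (fun y hy => if_neg hy)]
      refine Finset.sum_le_sum fun y hy => ?_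
      rw [if_pos hy]
      have := mul_nonneg (JJ_nonneg (α := α) hβ x y) (sq_nonneg (f x - f y))
      linarith
    have e2 : kil α β Λ x * f x ^ 2 =
        ∑' y : V, if y ∈ Λ then 0 else JJ α β x y * (f x - f y) ^ 2 := by
      unfold kil
      rw [← tsum_mul_right]
      refine tsum_congr fun y => ?_
      split_ifs with h
      · ring
      · rw [hf y h]; ring
    have s1 : Summable fun y : V => if y ∈ Λ then JJ α β x y * (f x - f y) ^ 2 else 0 :=
      summable_of_ne_finset_zero (s := Λ) fun y hy => if_neg hy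
    have s2 : Summable fun y : V => if y ∈ Λ then 0 else JJ α β x y * (f x - f y) ^ 2 := by
      refine (hS2 x).of_nonneg_of_le (fun y => ?_) fun y => ?_
      · split_ifs
        · exact le_rfl
        · exact mul_nonneg (JJ_nonneg hβ x y) (sq_nonneg _)
      · split_ifs
        · exact mul_nonneg (JJ_nonneg hβ x y) (sq_nonneg _)
        · exact le_rfl
    have e3 : ∑' y : V, JJ α β x y * (f x - f y) ^ 2 =
        (∑' y : V, if y ∈ Λ then JJ α β x y * (f x - f y) ^ 2 else 0) +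
        ∑' y : V, if y ∈ Λ then 0 else JJ α β x y * (f x - f y) ^ 2 := by
      rw [← s1.tsum_add s2]
      refine tsum_congr fun y => ?_
      split_ifs <;> ring
    rw [e3, e2]
    linarith
  rw [QD_self, ← Finset.sum_add_distrib]
  calc ∑ x ∈ Λ, (∑ y ∈ Λ, JJ α β x y / 2 * (f x - f y) ^ 2 + kil α β Λ x * f x ^ 2)
      ≤ ∑ x ∈ Λ, ∑' v : V, Jc α β v * (f (x + v) - f x) ^ 2 :=
        Finset.sum_le_sum fun x hx => (h1 x hx).trans_eq (hS3 x)
    _ = ∑' v : V, ∑ x ∈ Λ, Jc α β v * (f (x + v) - f x) ^ 2 :=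
        (Summable.tsum_finsetSum fun x _ => hS x).symm
    _ ≤ ∑' v : V, Jc α β v * len v ^ 2 * (2 * LRT.Dir f) := by
        refine (summable_sum fun x _ => hS x).tsum_le_tsum (fun v => ?_)
          ((summable_Jc_len_sq hα β).mul_right _)
        rw [← Finset.mul_sum]
        have h2 : ∑ x ∈ Λ, (f (x + v) - f x) ^ 2 ≤ 2 * len v ^ 2 * LRT.Dir f :=
          ((Tsh_sum0 hf v).sum_le_tsum Λ fun _ _ => sq_nonneg _).trans (Tsh_le hf v)
        have := mul_le_mul_of_nonneg_left h2 (Jc_nonneg (α := α) hβ v)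
        linarith
    _ = 8 * cc α β * LRT.Dir f := by
        rw [tsum_mul_right, tsum_Jc_len_sq]
        ring

end Pool.Agent.LR
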