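import Pool.Agent.LRT.T3
import Pool.Agent.LRT.TrB
import Pool.Agent.LR.B1.Gau

/-!
# LR-T3: the interface statements `t3nn` and `t3`
-/

set_option autoImplicit false

noncomputable section

open scoped BigOperators Topology
open MeasureTheory Filter Set

namespace Pool.Agent.LR

/-- truncation -/
def cutO (O : Finset V) (f : V → ℝ) : V → ℝ := fun x => if x ∈ O then f x else 0

theorem supp_cutO (O : Finset V) (f : V → ℝ) : Supp O (cutO O f) := fun _ h => if_neg h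

/-- monotonicity of the energy in the form; the forms need only be compared on functions supported in `O` -/
theorem En_mono_form {M N : BF V} {O : Finset V} (hM : IsForm M) (hP : PDef M O) (hN : IsForm N)
    (cM : ∀ f, M f f = M (cutO O f) (cutO O f)) (cN : ∀ f, N f f = N (cutO O f) (cutO O f))
    (hle : ∀ f, Supp O f → M f f ≤ N f f) (h : V → ℝ) : En M O h ≤ En N O h := by
  have hD : IsForm (N - M) := by
    refine ⟨fun f g => ?_, fun f => ?_⟩
    · simp only [LinearMap.sub_apply]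
      rw [hM.symm f g, hN.symm f g]
    · simp only [LinearMap.sub_apply]
      rw [cM, cN]
      linarith [hle _ (supp_cutO O f)]
  have h1 := En_add_form hM hP hD h
  have e : M + (N - M) = N := by abel
  rwa [e] at h1

theorem Qnn_cut (b : ℝ) (Λ : Finset V) (f : V → ℝ) :
    Qnn b Λ f f = Qnn b Λ (cutO Λ f) (cutO Λ f) := by
  rw [Qnn_self, Qnn_self]
  congr 2
  · refine Finset.sum_congr rfl fun x hx => Finset.sum_congr rfl fun y hy => ?_
    simp only [cutO, if_pos hx, if_pos hy]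
  · refine Finset.sum_congr rfl fun x hx => ?_
    simp only [cutO, if_pos hx]

theorem QD_cut (α β : ℝ) (Λ : Finset V) (f : V → ℝ) :
    QD α β Λ f f = QD α β Λ (cutO Λ f) (cutO Λ f) := by
  rw [QD_self, QD_self]
  congr 1
  · refine Finset.sum_congr rfl fun x hx => Finset.sum_congr rfl fun y hy => ?_
    simp only [cutO, if_pos hx, if_pos hy]
  · refine Finset.sum_congr rfl fun x hx => ?_
    simp only [cutO, if_pos hx]

theorem Th_Qnn (b : ℝ) {Λ : Finset V} {h : V → ℝ} (hh : Supp Λ h) :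
    Th (Qnn b Λ) Λ h = ∑' ψ : Λ → ℤ, Real.exp (-(b / 2) * LRT.Dir (fun x => LRT.ext Λ ψ x - h x)) := by
  unfold Th
  refine tsum_congr fun ψ => ?_
  unfold wt
  rw [Qnn_dir b ((supp_emb ψ).sub hh)]
  congr 1
  have : LRT.Dir (emb Λ ψ - h) = LRT.Dir (fun x => LRT.ext Λ ψ x - h x) := rfl
  rw [this]
  ring

/-- **T3 for the nearest neighbour form** (interface statement) -/
theorem t3nn : ∀ ε > (0 : ℝ), ∃ b₁ > 0, ∀ b : ℝ, 0 < b → b < b₁ → ∀ (Λ : Finset V) (h : V → ℝ),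
    Supp Λ h → En (Qnn b Λ) Λ h ≤ ε / 2 * Qnn b Λ h h := by
  intro ε hε
  obtain ⟨b₁, hb₁, H⟩ := LRT.T3 ε hε
  refine ⟨b₁, hb₁, fun b hb hlt Λ h hh => ?_⟩
  have h1 := H b hb hlt Λ h hh
  have hF := Qnn_form hb.le Λ
  have hP := Qnn_pdef hb Λ
  have e0 : Th (Qnn b Λ) Λ 0 = ∑' ψ : Λ → ℤ, Real.exp (-(b / 2) * LRT.Dir (LRT.ext Λ ψ)) := by
    rw [Th_Qnn b supp_zero]
    refine tsum_congr fun ψ => ?_
    simp only [Pi.zero_apply, sub_zero]
  rw [← e0, ← Th_Qnn b hh] at h1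
  have p0 := Th_pos hF hP (0 : V → ℝ)
  have p1 := Th_pos hF hP h
  rw [Qnn_dir b hh]
  unfold En
  have h2 : Real.exp (-(ε * b / 2 * LRT.Dir h)) ≤ Th (Qnn b Λ) Λ h / Th (Qnn b Λ) Λ 0 := by
    rw [le_div_iff₀ p0]
    exact h1
  have h3 := Real.log_le_log (Real.exp_pos _) h2
  rw [Real.log_exp] at h3
  linarith

/-- **T3 for the long range form** (interface statement) -/
theorem t3 {α : ℝ} (hα : 4 < α) : ∀ ε > (0 : ℝ), ∃ β₁ > 0, ∀ β : ℝ, 0 < β → β < β₁ →
    ∀ (Λ : Finset V) (h : V → ℝ), Supp Λ h →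
      En (QD α β Λ) Λ h ≤ ε / 2 * QD α β Λ h h := by
  intro ε hε
  obtain ⟨K, hK⟩ : ∃ K, K = 8 * cc α 1 := ⟨_, rfl⟩
  have hc1 : 0 < cc α 1 := cc_pos hα one_pos
  have hK0 : 0 < K := by rw [hK]; linarith
  obtain ⟨b₁, hb₁, H⟩ := t3nn (4 * ε / K) (by positivity)
  refine ⟨b₁ / K, by positivity, fun β hβ hlt Λ h hh => ?_⟩
  have hb : 0 < K * β := by positivity
  have hb2 : K * β < b₁ := by
    rw [lt_div_iff₀ hK0] at hlt
    linarith
  have h1 := H (K * β) hb hb2 Λ h hh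
  rw [Qnn_dir _ hh] at h1
  have h2 := dir_le_QD hα hβ.le hh
  have hcc : cc α β = β * cc α 1 := by
    unfold cc
    rw [show (∑' v : V, Jc α β v * len v ^ 2) = β * ∑' v : V, Jc α 1 v * len v ^ 2 by
      rw [← tsum_mul_left]
      refine tsum_congr fun v => ?_
      rw [Jc_linear_beta]
      ring]
    ring
  have h3 : En (QD α β Λ) Λ h ≤ En (Qnn (K * β) Λ) Λ h := by
    refine En_mono_form (isForm_QD hβ.le Λ) (pdef_QD (by linarith) hβ Λ) (Qnn_form hb.le Λ)
      (QD_cut α β Λ) (Qnn_cut _ Λ) (fun f hf => ?_) h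
    rw [Qnn_dir _ hf]
    refine (QD_le_dir hα hβ.le hf).trans_eq ?_
    rw [hK, hcc]
    ring
  have hD : 0 ≤ LRT.Dir h := LRT.dir_nonneg h
  calc En (QD α β Λ) Λ h ≤ En (Qnn (K * β) Λ) Λ h := h3
    _ ≤ 4 * ε / K / 2 * (K * β * LRT.Dir h) := h1
    _ = ε / 2 * (4 * β * LRT.Dir h) := by field_simp
    _ ≤ ε / 2 * QD α β Λ h h := mul_le_mul_of_nonneg_left h2 (by positivity)

end Pool.Agent.LR
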