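import Pool.Agent.LRT.Bump
import Pool.Agent.LRT.Energy
import Pool.Agent.LRT.Jstar

/-!
# LR-T3-Wave: the test function of an active cluster (0.8 h)

PLAN. `x0 ∈ S_i`. `P` = image of `{j ∈ s | tau (js_j) < k}` under `j ↦ (c_j, js_j)` with `c_j ∈ S_j` chosen (`Wf.ne`).
`hP` clear; `hsep`: two different pairs with the same scale come from different `j`, use `Post.sepB`. Take `u` from `bump_exists`.
* `i` is active: `k < js_i ≤ tau js_i`, so `i` is alive; `S_i` has diameter `≤ r_k`; `active_facts`: every point of `S_i` is at distance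
  `> 8 r_k` from every `w ∉ Λ`, so all `x` with `nd x x0 ≤ 5 r_k + 1 ≤ 6 r_k` are in `Λ`: (1), (2). `Dir u ≤ 1936`: `dir_bump`.
* own density: `v_i x ≠ 0` → `nd x y ≤ r (min k js_i) = r_k` for some `y ∈ S_i`, `nd x x0 ≤ 2 r_k`; `x` and its four neighbours have `u = 1`.
* `j ≠ i` alive: `v_j x ≠ 0` → `nd x y ≤ r_k`, `y ∈ S_j`, `nd y x0 > 16 r_k` (`Post.sepA`): `x` and neighbours have `u = 0`.
* `j ≠ i` frozen: `js_j` is a scale where `j` is ended (`js_le_iff`), so `S_j` has diameter `≤ r (js_j)`; `v_j x ≠ 0` →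
  `nd x c_j ≤ 2 r (js_j)`; `x` and neighbours are in `{nd · c_j ≤ 3 r (js_j)}` where `u` is constant `= κ`: `Lap u x = 0`, and
  `ip Λ u v_j = κ ∑_Λ v_j = κ Q_j` (`Wf.tot`). If `Q_j ≠ 0`: there are `y ∈ S_j`, `w ∉ Λ`, `nd y w ≤ 8 r (js_j)`; if `κ ≠ 0` then
  `nd c_j x0 < 5 r_k`, `nd x0 w ≤ 5 r_k + 9 r (js_j) ≤ 8 r_k` (`js_j ≤ k - 2`), contradiction to `active_facts`; so `κ = 0`.
-/

set_option autoImplicit false

noncomputable section

open scoped BigOperators

namespace Pool.Agent.LRT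

private theorem lap_const {u : V → ℝ} {x : V} {a : ℝ} (h : ∀ y, nd x y ≤ 1 → u y = a) :
    Lap u x = 0 := by
  have h0 := h x (by rw [nd_self]; norm_num)
  have h1 := h (x.1 + 1, x.2) (by simp [nd])
  have h2 := h (x.1 - 1, x.2) (by simp [nd])
  have h3 := h (x.1, x.2 + 1) (by simp [nd])
  have h4 := h (x.1, x.2 - 1) (by simp [nd])
  unfold Lap
  rw [h0, h1, h2, h3, h4]
  ring

theorem wave_exists {Λ : Finset V} {B0 : ℝ} {k : ℕ} {ι : Type} {s : Finset ι} {c : ι → Cl}
    (hp : Post Λ B0 k s c) {i : ι} (hi : i ∈ s) (ha : Active Λ k (c i)) :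
    ∃ u : V → ℝ, (∀ x, u x ≠ 0 → ∀ y, nd x y ≤ 1 → y ∈ Λ) ∧ Dir u ≤ 1936 ∧
      (∀ x, (c i).v x ≠ 0 → u x = 1 ∧ Lap u x = 0) ∧
      (∀ x, u x ≠ 0 → ∃ y ∈ (c i).S, nd x y ≤ 5 * r k) ∧
      (∀ j ∈ s, j ≠ i → ip Λ u (c j).v = 0 ∧ ∀ x, (c j).v x ≠ 0 → Lap u x = 0) := by
  classical
  obtain ⟨x0, hx0⟩ := (hp.wf i hi).ne
  have hr := r_pos k
  obtain ⟨hQ, hfar⟩ := active_facts (hp.wf i hi) ha
  have hal : k ≤ tau (js Λ (c i)) := by
    have := ha.2
    unfold tau
    omega
  let cen : ι → V := fun j => if h : (c j).S.Nonempty then h.choose else (0, 0)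
  have hcen : ∀ j ∈ s, cen j ∈ (c j).S := fun j hj => by
    have h := (hp.wf j hj).ne
    simp only [cen, dif_pos h]
    exact h.choose_spec
  let P : Finset (V × ℕ) := (s.filter fun j => tau (js Λ (c j)) < k).image
    fun j => (cen j, js Λ (c j))
  obtain ⟨u, hu1, hu2, hu3, hu4, hu5⟩ := bump_exists k x0 P
    (by
      intro p hpP
      obtain ⟨j, hj, rfl⟩ := Finset.mem_image.1 hpP
      exact (Finset.mem_filter.1 hj).2)
    (by
      intro p hpP q hqP hpq h2
      obtain ⟨j, hj, rfl⟩ := Finset.mem_image.1 hpP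
      obtain ⟨j', hj', rfl⟩ := Finset.mem_image.1 hqP
      rw [Finset.mem_filter] at hj hj'
      have hne : j ≠ j' := fun h => hpq (by rw [h])
      exact hp.sepB j hj.1 j' hj'.1 hne h2 hj.2 _ (hcen j hj.1) _ (hcen j' hj'.1))
  have hnz : ∀ x, u x ≠ 0 → nd x x0 < 5 * r k := fun x hx => by
    by_contra hc
    exact hx (hu3 x (not_lt.1 hc))
  refine ⟨u, ?_, dir_bump hr x0 hu3 hu5, ?_, ?_, ?_⟩
  · intro x hx y hxy
    by_contra hy
    have h1 := hfar x0 hx0 y hy
    have h2 := hnz x hx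
    have h3 := nd_tri x0 x y
    rw [nd_comm x0 x] at h3
    omega
  · intro x hx
    obtain ⟨y, hy, hxy⟩ := hp.supp i hi x hx
    rw [min_eq_left ha.2.le] at hxy
    have h1 := ha.1 y hy x0 hx0
    have h2 := nd_tri x y x0
    have h3 : ∀ z, nd x z ≤ 1 → u z = 1 := by
      intro z hz
      apply hu2
      have h4 := nd_tri z x x0
      rw [nd_comm z x] at h4
      omega
    exact ⟨h3 x (by rw [nd_self]; norm_num), lap_const h3⟩
  · intro x hx
    exact ⟨x0, hx0, (hnz x hx).le⟩
  · intro j hj hji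
    rcases lt_or_ge (tau (js Λ (c j))) k with hfz | hal'
    · -- frozen
      have hjk : js Λ (c j) + 1 ≤ k := by
        unfold tau at hfz
        omega
      have hrj := r_pos (js Λ (c j))
      have hrk : 64 * r (js Λ (c j)) ≤ r k := by
        rw [← r_succ]
        exact r_mono hjk
      have hend := (js_le_iff (hp.wf j hj).ne _).1 (le_refl (js Λ (c j)))
      have hPj : (cen j, js Λ (c j)) ∈ P :=
        Finset.mem_image.2 ⟨j, Finset.mem_filter.2 ⟨hj, hfz⟩, rfl⟩
      have hcj := hcen j hj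
      have hconst : ∀ x, nd x (cen j) ≤ 3 * r (js Λ (c j)) → u x = u (cen j) := fun x hx =>
        hu4 _ hPj x (cen j) hx (by rw [nd_self]; linarith)
      have hv : ∀ x, (c j).v x ≠ 0 → ∀ z, nd x z ≤ 1 → u z = u (cen j) := by
        intro x hx z hz
        obtain ⟨y, hy, hxy⟩ := hp.supp j hj x hx
        rw [min_eq_right (by omega)] at hxy
        have h1 := hend.1 y hy (cen j) hcj
        have h2 := nd_tri x y (cen j)
        have h3 := nd_tri z x (cen j)
        rw [nd_comm z x] at h3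
        apply hconst
        omega
      refine ⟨?_, fun x hx => lap_const (hv x hx)⟩
      have hip : ip Λ u (c j).v = u (cen j) * (c j).Q := by
        unfold ip
        rw [← (hp.wf j hj).tot, Finset.mul_sum]
        refine Finset.sum_congr rfl fun x _ => ?_
        by_cases hx : (c j).v x = 0
        · rw [hx, mul_zero, mul_zero]
        · rw [hv x hx x (by rw [nd_self]; norm_num)]
      rw [hip]
      rcases hend.2 with h0 | ⟨y, hy, w, hw, hyw⟩
      · rw [h0]; simp
      · have hk0 : u (cen j) = 0 := by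
          by_contra hne
          have h1 := hnz _ hne
          have h2 := hfar x0 hx0 w hw
          have h3 := nd_tri x0 (cen j) w
          have h4 := nd_tri (cen j) y w
          have h5 := hend.1 (cen j) hcj y hy
          rw [nd_comm x0 (cen j)] at h3
          omega
        rw [hk0, zero_mul]
    · -- alive
      have hv : ∀ x, (c j).v x ≠ 0 → ∀ z, nd x z ≤ 1 → u z = 0 := by
        intro x hx z hz
        obtain ⟨y, hy, hxy⟩ := hp.supp j hj x hx
        have h1 := hp.sepA i hi j hj (Ne.symm hji) hal hal' x0 hx0 y hy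
        have h2 : r (min k (js Λ (c j))) ≤ r k := r_mono (min_le_left _ _)
        have h3 := nd_tri x0 z y
        have h4 := nd_tri z x y
        rw [nd_comm z x] at h4
        rw [nd_comm x0 z] at h3
        apply hu3
        omega
      refine ⟨?_, fun x hx => lap_const (hv x hx)⟩
      unfold ip
      apply Finset.sum_eq_zero
      intro x _
      by_cases hx : (c j).v x = 0
      · rw [hx, mul_zero]
      · rw [hv x hx x (by rw [nd_self]; norm_num), zero_mul]

end Pool.Agent.LRT
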